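import Mathlib

/-!
Basic objects for the counterexample to MP_fc4783_an: characters, finitely supported means on
the integers, admissible sequences of means, null sequences and structured sequences.
-/

namespace Pool.Agent.P.MP_fc4783_an

open Filter Topology Finset

/-- `e(x) = exp (2 π i x)`. -/
noncomputable def ex (x : ℝ) : ℂ := Complex.exp (2 * Real.pi * x * Complex.I)

/-- Distance to the nearest integer. -/
noncomputable def dZ (x : ℝ) : ℝ := |x - round x|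

lemma ex_add (x y : ℝ) : ex (x + y) = ex x * ex y := by
  unfold ex; rw [← Complex.exp_add]; congr 1; push_cast; ring

@[simp] lemma ex_zero : ex 0 = 1 := by simp [ex]

@[simp] lemma norm_ex (x : ℝ) : ‖ex x‖ = 1 := by
  unfold ex
  have : (2 * Real.pi * x * Complex.I : ℂ) = ((2 * Real.pi * x : ℝ) : ℂ) * Complex.I := by
    push_cast; ring
  rw [this, Complex.norm_exp_ofReal_mul_I]

lemma ex_ne_zero (x : ℝ) : ex x ≠ 0 := Complex.exp_ne_zero _

@[simp] lemma ex_int (n : ℤ) : ex n = 1 := by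
  unfold ex
  have := Complex.exp_int_mul_two_pi_mul_I n
  rw [← this]; congr 1; push_cast; ring

lemma ex_add_int (x : ℝ) (n : ℤ) : ex (x + n) = ex x := by rw [ex_add, ex_int, mul_one]

lemma ex_neg_mul (x : ℝ) : ex (-x) * ex x = 1 := by rw [← ex_add]; simp

lemma conj_ex (x : ℝ) : (starRingEnd ℂ) (ex x) = ex (-x) := by
  unfold ex
  rw [← Complex.exp_conj]; congr 1
  simp only [map_mul, Complex.conj_ofReal, Complex.conj_I, map_ofNat]
  push_cast; ring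

lemma continuous_ex : Continuous ex := by unfold ex; fun_prop

lemma ex_eq_one_iff (x : ℝ) : ex x = 1 ↔ ∃ n : ℤ, x = n := by
  constructor
  · intro h
    unfold ex at h
    obtain ⟨n, hn⟩ := Complex.exp_eq_one_iff.1 h
    refine ⟨n, ?_⟩
    have h2 : (2 * Real.pi * Complex.I : ℂ) ≠ 0 := Complex.two_pi_I_ne_zero
    have : (x : ℂ) = n := by
      apply mul_right_cancel₀ h2
      rw [← hn]; ring
    exact_mod_cast this
  · rintro ⟨n, rfl⟩; exact ex_int n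

lemma norm_ex_sub_one_le (x : ℝ) : ‖ex x - 1‖ ≤ 2 * Real.pi * |x| := by
  unfold ex
  have : (2 * Real.pi * x * Complex.I : ℂ) = Complex.I * ((2 * Real.pi * x : ℝ) : ℂ) := by
    push_cast; ring
  rw [this]
  refine (Real.norm_exp_I_mul_ofReal_sub_one_le).trans ?_
  rw [Real.norm_eq_abs, abs_mul, abs_of_pos (by positivity : (0 : ℝ) < 2 * Real.pi)]

lemma dZ_nonneg (x : ℝ) : 0 ≤ dZ x := abs_nonneg _

lemma dZ_le (x : ℝ) (n : ℤ) : dZ x ≤ |x - n| := round_le x n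

lemma dZ_le_abs (x : ℝ) : dZ x ≤ |x| := by simpa using dZ_le x 0

lemma dZ_le_half (x : ℝ) : dZ x ≤ 1 / 2 := abs_sub_round x

lemma dZ_add_le (x y : ℝ) : dZ (x + y) ≤ dZ x + dZ y := by
  refine (dZ_le _ (round x + round y)).trans ?_
  unfold dZ
  push_cast
  calc |x + y - (round x + round y)| = |(x - round x) + (y - round y)| := by ring_nf
    _ ≤ _ := abs_add_le _ _

lemma dZ_neg (x : ℝ) : dZ (-x) = dZ x := by
  apply le_antisymm
  · refine (dZ_le _ (-round x)).trans (le_of_eq ?_)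
    unfold dZ; push_cast; rw [← abs_neg]; ring_nf
  · refine (dZ_le _ (-round (-x))).trans (le_of_eq ?_)
    unfold dZ; push_cast; rw [← abs_neg]; ring_nf

lemma dZ_sub_le (x y : ℝ) : dZ (x - y) ≤ dZ x + dZ y := by
  rw [sub_eq_add_neg]; exact (dZ_add_le _ _).trans (by rw [dZ_neg])

lemma dZ_add_int (x : ℝ) (n : ℤ) : dZ (x + n) = dZ x := by
  unfold dZ; rw [round_add_intCast]; push_cast; ring_nf

@[simp] lemma dZ_int (n : ℤ) : dZ n = 0 := by simp [dZ]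

@[simp] lemma dZ_zero : dZ 0 = 0 := by simp [dZ]

lemma dZ_int_mul_le (n : ℤ) (x : ℝ) : dZ (n * x) ≤ |(n : ℝ)| * dZ x := by
  refine (dZ_le _ (n * round x)).trans (le_of_eq ?_)
  unfold dZ; push_cast; rw [← abs_mul]; ring_nf

lemma dZ_eq_zero_iff (x : ℝ) : dZ x = 0 ↔ ∃ n : ℤ, x = n := by
  constructor
  · intro h; exact ⟨round x, by unfold dZ at h; linarith [abs_eq_zero.1 h]⟩
  · rintro ⟨n, rfl⟩; simp

lemma norm_ex_sub_one_le_dZ (x : ℝ) : ‖ex x - 1‖ ≤ 2 * Real.pi * dZ x := by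
  have := norm_ex_sub_one_le (x - round x)
  rwa [sub_eq_add_neg x, ← Int.cast_neg, ex_add_int, Int.cast_neg, ← sub_eq_add_neg] at this

lemma norm_ex_sub_ex_le (x y : ℝ) : ‖ex x - ex y‖ ≤ 2 * Real.pi * dZ (x - y) := by
  have : ex x - ex y = ex y * (ex (x - y) - 1) := by
    rw [mul_sub, ← ex_add]; simp
  rw [this, norm_mul, norm_ex, one_mul]; exact norm_ex_sub_one_le_dZ _

/-- A finitely supported probability vector on the integers, given by weights on a finite index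
set and a map to the integers. -/
structure Mean where
  S : Finset (ℕ × ℕ)
  w : ℕ × ℕ → ℝ
  p : ℕ × ℕ → ℤ
  nonneg : ∀ j, 0 ≤ w j
  sum_one : ∑ j ∈ S, w j = 1

namespace Mean

/-- Average of a complex sequence. -/
noncomputable def avg (μ : Mean) (ψ : ℤ → ℂ) : ℂ := ∑ j ∈ μ.S, (μ.w j : ℂ) * ψ (μ.p j)

/-- Average of a real sequence. -/
noncomputable def avgR (μ : Mean) (g : ℤ → ℝ) : ℝ := ∑ j ∈ μ.S, μ.w j * g (μ.p j)

variable (μ : Mean)

lemma avg_ofReal (g : ℤ → ℝ) : μ.avg (fun s => (g s : ℂ)) = (μ.avgR g : ℝ) := by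
  simp [avg, avgR]

lemma avg_add (φ ψ : ℤ → ℂ) : μ.avg (fun s => φ s + ψ s) = μ.avg φ + μ.avg ψ := by
  simp [avg, mul_add, sum_add_distrib]

lemma avg_sub (φ ψ : ℤ → ℂ) : μ.avg (fun s => φ s - ψ s) = μ.avg φ - μ.avg ψ := by
  simp [avg, mul_sub, sum_sub_distrib]

lemma avg_const_mul (c : ℂ) (ψ : ℤ → ℂ) : μ.avg (fun s => c * ψ s) = c * μ.avg ψ := by
  simp only [avg, mul_sum]; exact sum_congr rfl fun _ _ => by ring

lemma avg_const (c : ℂ) : μ.avg (fun _ => c) = c := by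
  simp only [avg, ← sum_mul]
  rw [← Complex.ofReal_sum, μ.sum_one]; simp

lemma avg_sum {α : Type*} (T : Finset α) (ψ : α → ℤ → ℂ) :
    μ.avg (fun s => ∑ a ∈ T, ψ a s) = ∑ a ∈ T, μ.avg (ψ a) := by
  simp only [avg, mul_sum]; exact sum_comm

lemma avg_conj (ψ : ℤ → ℂ) :
    μ.avg (fun s => (starRingEnd ℂ) (ψ s)) = (starRingEnd ℂ) (μ.avg ψ) := by
  simp [avg, Complex.conj_ofReal]

lemma avgR_add (f g : ℤ → ℝ) : μ.avgR (fun s => f s + g s) = μ.avgR f + μ.avgR g := by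
  simp [avgR, mul_add, sum_add_distrib]

lemma avgR_sub (f g : ℤ → ℝ) : μ.avgR (fun s => f s - g s) = μ.avgR f - μ.avgR g := by
  simp [avgR, mul_sub, sum_sub_distrib]

lemma avgR_const_mul (c : ℝ) (g : ℤ → ℝ) : μ.avgR (fun s => c * g s) = c * μ.avgR g := by
  simp only [avgR, mul_sum]; exact sum_congr rfl fun _ _ => by ring

lemma avgR_const (c : ℝ) : μ.avgR (fun _ => c) = c := by
  simp only [avgR, ← sum_mul, μ.sum_one, one_mul]

lemma avgR_sum {α : Type*} (T : Finset α) (g : α → ℤ → ℝ) :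
    μ.avgR (fun s => ∑ a ∈ T, g a s) = ∑ a ∈ T, μ.avgR (g a) := by
  simp only [avgR, mul_sum]; exact sum_comm

lemma avgR_mono_on {f g : ℤ → ℝ} (h : ∀ j ∈ μ.S, f (μ.p j) ≤ g (μ.p j)) :
    μ.avgR f ≤ μ.avgR g :=
  sum_le_sum fun j hj => mul_le_mul_of_nonneg_left (h j hj) (μ.nonneg j)

lemma avgR_mono {f g : ℤ → ℝ} (h : ∀ s, f s ≤ g s) : μ.avgR f ≤ μ.avgR g :=
  μ.avgR_mono_on fun _ _ => h _

lemma avgR_nonneg {g : ℤ → ℝ} (h : ∀ s, 0 ≤ g s) : 0 ≤ μ.avgR g := by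
  have := μ.avgR_mono (f := fun _ => 0) h
  rwa [avgR_const] at this

lemma norm_avg_le_avgR_on {ψ : ℤ → ℂ} {g : ℤ → ℝ} (h : ∀ j ∈ μ.S, ‖ψ (μ.p j)‖ ≤ g (μ.p j)) :
    ‖μ.avg ψ‖ ≤ μ.avgR g := by
  refine (norm_sum_le _ _).trans (sum_le_sum fun j hj => ?_)
  rw [norm_mul, Complex.norm_real, Real.norm_of_nonneg (μ.nonneg j)]
  exact mul_le_mul_of_nonneg_left (h j hj) (μ.nonneg j)

lemma norm_avg_le_avgR {ψ : ℤ → ℂ} {g : ℤ → ℝ} (h : ∀ s, ‖ψ s‖ ≤ g s) :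
    ‖μ.avg ψ‖ ≤ μ.avgR g := μ.norm_avg_le_avgR_on fun _ _ => h _

lemma norm_avg_le {ψ : ℤ → ℂ} {C : ℝ} (h : ∀ s, ‖ψ s‖ ≤ C) : ‖μ.avg ψ‖ ≤ C := by
  have := μ.norm_avg_le_avgR (g := fun _ => C) h
  rwa [avgR_const] at this

lemma norm_avg_sub_le {φ ψ : ℤ → ℂ} {C : ℝ} (h : ∀ s, ‖φ s - ψ s‖ ≤ C) :
    ‖μ.avg φ - μ.avg ψ‖ ≤ C := by
  rw [← avg_sub]; exact μ.norm_avg_le h

/-- Weighted Cauchy-Schwarz inequality. -/
lemma avgR_mul_sq_le (c g : ℤ → ℝ) (hc0 : ∀ s, 0 ≤ c s) (hc1 : ∀ s, c s ≤ 1) :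
    μ.avgR (fun s => c s * g s) ^ 2 ≤ μ.avgR (fun s => c s * g s ^ 2) := by
  set a := μ.avgR (fun s => c s * g s) with ha
  have h1 : 0 ≤ μ.avgR (fun s => c s * (g s - a) ^ 2) :=
    μ.avgR_nonneg fun s => mul_nonneg (hc0 s) (sq_nonneg _)
  have h2 : μ.avgR (fun s => c s * (g s - a) ^ 2) = μ.avgR (fun s => c s * g s ^ 2)
      - 2 * a * a + a ^ 2 * μ.avgR c := by
    have e1 := μ.avgR_const_mul (2 * a) (fun s => c s * g s)
    have e2 := μ.avgR_const_mul (a ^ 2) c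
    rw [← ha] at e1
    rw [← e1, ← e2, ← avgR_sub, ← avgR_add]
    congr 1; ext s; ring
  have h3 : μ.avgR c ≤ 1 := by
    have := μ.avgR_mono (g := fun _ => 1) hc1
    rwa [avgR_const] at this
  nlinarith [sq_nonneg a]

end Mean

/-- Admissible sequences of means: almost invariant under shifts of small size `n`, with a
pointwise limit `L` of the Fourier transforms whose large values are finite in number in every
finitely generated group of frequencies. -/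
structure Adm (ν : ℕ → Mean) (n : ℤ → ℝ) (L : ℝ → ℂ) : Prop where
  nonneg : ∀ h, 0 ≤ n h
  zero : n 0 = 0
  sub : ∀ h h', n (h - h') ≤ n h + n h'
  inv : ∀ (h : ℤ) (ε : ℝ), 0 < ε → ∀ᶠ i in atTop, ∀ ψ : ℤ → ℂ, (∀ s, ‖ψ s‖ ≤ 1) →
    ‖(ν i).avg (fun s => ψ (s + h)) - (ν i).avg ψ‖ ≤ n h + ε
  inf : ∀ ε : ℝ, 0 < ε → {h | n h ≤ ε}.Infinite
  lim : ∀ x : ℝ, Tendsto (fun i => (ν i).avg fun s => ex (x * s)) atTop (𝓝 (L x))
  fin : ∀ A : AddSubgroup ℝ, A.FG → ∀ ε : ℝ, 0 < ε → {x | x ∈ A ∧ |x| ≤ 1 ∧ ε ≤ ‖L x‖}.Finite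

/-- Multipliers that are almost invariant under small shifts. -/
def Mult (n : ℤ → ℝ) (U : ℕ → ℤ → ℂ) : Prop :=
  (∀ i s, ‖U i s‖ ≤ 1) ∧ ∀ i s h, ‖U i (s + h) - U i s‖ ≤ n h

/-- Sequences whose twisted averages vanish along every admissible sequence of means. -/
def Null (ψ : ℤ → ℂ) : Prop :=
  ∀ (ν : ℕ → Mean) (n : ℤ → ℝ) (L : ℝ → ℂ) (U : ℕ → ℤ → ℂ), Adm ν n L → Mult n U → ∀ x : ℝ,
    Tendsto (fun i => (ν i).avg fun s => ψ s * ex (x * s) * U i s) atTop (𝓝 0)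

/-- Trigonometric polynomials with frequencies in `A`. -/
def TP (A : AddSubgroup ℝ) : Submodule ℂ (ℤ → ℂ) :=
  Submodule.span ℂ {ψ | ∃ x ∈ A, ψ = fun s : ℤ => ex (x * s)}

/-- Uniform limits of sums of a null sequence and a trigonometric polynomial. -/
def Str (A : AddSubgroup ℝ) (ψ : ℤ → ℂ) : Prop :=
  ∀ ε : ℝ, 0 < ε → ∃ φ P : ℤ → ℂ, Null φ ∧ P ∈ TP A ∧ ∀ s, ‖ψ s - φ s - P s‖ ≤ ε

/-- Cesaro averages of `ψ` along the sequence `a`. -/
noncomputable def ces (a : ℕ → ℤ) (ψ : ℤ → ℂ) (N : ℕ) : ℂ :=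
  (N : ℂ)⁻¹ * ∑ n ∈ Icc 1 N, ψ (a n)

/-- The residue modulo three of the nearest multiple of one third. -/
noncomputable def dd (x : ℝ) : ZMod 3 := ((round (3 * x) : ℤ) : ZMod 3)

/-- The quadratic form `∑_{l < i} y_{2l} y_{2l+1}`. -/
def Qd (i : ℕ) (y : ℕ → ZMod 3) : ZMod 3 := ∑ l ∈ range i, y (2 * l) * y (2 * l + 1)

/-- The standard additive character of `ZMod 3`. -/
noncomputable def om (u : ZMod 3) : ℂ := ZMod.stdAddChar u

lemma om_add (u v : ZMod 3) : om (u + v) = om u * om v := AddChar.map_add_eq_mul _ _ _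

@[simp] lemma om_zero : om 0 = 1 := AddChar.map_zero_eq_one _

@[simp] lemma norm_om (u : ZMod 3) : ‖om u‖ = 1 := by
  simp [om, ZMod.stdAddChar]

lemma conj_om (u : ZMod 3) : (starRingEnd ℂ) (om u) = om (-u) := by
  have h1 : om (-u) * om u = 1 := by rw [← om_add]; simp
  have h2 : (starRingEnd ℂ) (om u) * om u = 1 := by
    rw [mul_comm, Complex.mul_conj, Complex.normSq_eq_norm_sq, norm_om]; simp
  have h3 : om u ≠ 0 := by intro h; have := norm_om u; rw [h] at this; simp at this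
  exact mul_right_cancel₀ h3 (h2.trans h1.symm)

/-- The parameters of the construction: frequencies `θ`, lengths `N`, separations `η`, for a
prescribed weight `W`. -/
structure Data (W : ℕ → ℝ) (θ : ℕ → ℝ) (N : ℕ → ℕ) (η : ℕ → ℝ) : Prop where
  η_pos : ∀ i, 0 < η i
  η_le : ∀ i, η i ≤ 1 / (i + 1)
  η_anti : Antitone η
  N_mono : Monotone N
  sep : ∀ (i : ℕ) (w : ℕ → ℤ), (∀ k < i, |(w k : ℝ)| ≤ W i) →
    dZ (∑ k ∈ range i, w k * (3 * θ k)) ≤ 4 * η i → ∀ k < i, w k = 0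
  big : ∀ i, W i ≤ N i * η i
  next : ∀ i, W i * N i * η (i + 1) ≤ 1
  small : ∀ i, W i * N i * |θ i| ≤ η i
  kron : ∀ (k : ℕ) (ε : ℝ), 0 < ε → ∃ h : ℤ, ∀ l,
    W l * dZ (h * θ l - if l = k then 1 / 3 else 0) ≤ ε

lemma Null.zero : Null (fun _ => 0) := by
  intro ν n L U _ _ x
  simp only [zero_mul, Mean.avg_const]; exact tendsto_const_nhds

lemma Null.add {φ ψ : ℤ → ℂ} (h1 : Null φ) (h2 : Null ψ) : Null (fun s => φ s + ψ s) := by
  intro ν n L U hA hU x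
  have := (h1 ν n L U hA hU x).add (h2 ν n L U hA hU x)
  simp only [← Mean.avg_add, add_zero] at this
  simpa only [add_mul] using this

lemma Null.const_mul {ψ : ℤ → ℂ} (h : Null ψ) (c : ℂ) : Null (fun s => c * ψ s) := by
  intro ν n L U hA hU x
  have := (h ν n L U hA hU x).const_mul c
  simp only [← Mean.avg_const_mul, mul_zero] at this
  simpa only [mul_assoc] using this

lemma Null.mul_ex {ψ : ℤ → ℂ} (h : Null ψ) (y : ℝ) : Null (fun s => ex (y * s) * ψ s) := by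
  intro ν n L U hA hU x
  have := h ν n L U hA hU (x + y)
  refine this.congr fun i => ?_
  congr 1; ext s; rw [add_mul, ex_add]; ring

lemma ex_mem_TP {A : AddSubgroup ℝ} {x : ℝ} (hx : x ∈ A) : (fun s : ℤ => ex (x * s)) ∈ TP A :=
  Submodule.subset_span ⟨x, hx, rfl⟩

lemma TP_mono {A B : AddSubgroup ℝ} (h : A ≤ B) : TP A ≤ TP B :=
  Submodule.span_mono fun _ ⟨x, hx, e⟩ => ⟨x, h hx, e⟩

lemma TP_mul_ex {A : AddSubgroup ℝ} {y : ℝ} (hy : y ∈ A) {P : ℤ → ℂ} (hP : P ∈ TP A) :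
    (fun s : ℤ => ex (y * s) * P s) ∈ TP A := by
  induction hP using Submodule.span_induction with
  | mem ψ h =>
    obtain ⟨x, hx, rfl⟩ := h
    have := ex_mem_TP (A.add_mem hy hx)
    simpa only [add_mul, ex_add] using this
  | zero => simp only [Pi.zero_apply, mul_zero]; exact (TP A).zero_mem
  | add φ ψ _ _ h1 h2 => simp only [Pi.add_apply, mul_add]; exact (TP A).add_mem h1 h2
  | smul c ψ _ h =>
    have := (TP A).smul_mem c h
    convert this using 1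
    ext s; simp only [Pi.smul_apply, smul_eq_mul]; ring

lemma Str.mono {A B : AddSubgroup ℝ} (h : A ≤ B) {ψ : ℤ → ℂ} (hψ : Str A ψ) : Str B ψ := by
  intro ε hε
  obtain ⟨φ, P, h1, h2, h3⟩ := hψ ε hε
  exact ⟨φ, P, h1, TP_mono h h2, h3⟩

lemma Str.of_null {A : AddSubgroup ℝ} {ψ : ℤ → ℂ} (h : Null ψ) : Str A ψ := fun ε hε =>
  ⟨ψ, 0, h, (TP A).zero_mem, fun s => by simpa using hε.le⟩

lemma Str.of_TP {A : AddSubgroup ℝ} {ψ : ℤ → ℂ} (h : ψ ∈ TP A) : Str A ψ := fun ε hε =>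
  ⟨fun _ => 0, ψ, Null.zero, h, fun s => by simpa using hε.le⟩

lemma Str.add {A : AddSubgroup ℝ} {φ ψ : ℤ → ℂ} (h1 : Str A φ) (h2 : Str A ψ) :
    Str A (fun s => φ s + ψ s) := by
  intro ε hε
  obtain ⟨a, P, a1, a2, a3⟩ := h1 (ε / 2) (by positivity)
  obtain ⟨b, Q, b1, b2, b3⟩ := h2 (ε / 2) (by positivity)
  refine ⟨fun s => a s + b s, P + Q, a1.add b1, (TP A).add_mem a2 b2, fun s => ?_⟩
  calc _ = ‖(φ s - a s - P s) + (ψ s - b s - Q s)‖ := by simp only [Pi.add_apply]; ring_nf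
    _ ≤ _ := (norm_add_le _ _).trans (by linarith [a3 s, b3 s])

lemma Str.const_mul {A : AddSubgroup ℝ} {ψ : ℤ → ℂ} (h : Str A ψ) (c : ℂ) :
    Str A (fun s => c * ψ s) := by
  intro ε hε
  obtain ⟨a, P, a1, a2, a3⟩ := h (ε / (‖c‖ + 1)) (by positivity)
  refine ⟨fun s => c * a s, c • P, a1.const_mul c, (TP A).smul_mem c a2, fun s => ?_⟩
  calc _ = ‖c * (ψ s - a s - P s)‖ := by simp only [Pi.smul_apply, smul_eq_mul]; ring_nf
    _ ≤ (‖c‖ + 1) * (ε / (‖c‖ + 1)) := by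
      rw [norm_mul]; gcongr; exacts [by linarith, a3 s]
    _ = ε := by field_simp

lemma Str.mul_ex {A : AddSubgroup ℝ} {ψ : ℤ → ℂ} (h : Str A ψ) {y : ℝ} (hy : y ∈ A) :
    Str A (fun s => ex (y * s) * ψ s) := by
  intro ε hε
  obtain ⟨a, P, a1, a2, a3⟩ := h ε hε
  refine ⟨_, _, a1.mul_ex y, TP_mul_ex hy a2, fun s => ?_⟩
  calc _ = ‖ex (y * s) * (ψ s - a s - P s)‖ := by ring_nf
    _ ≤ ε := by rw [norm_mul, norm_ex, one_mul]; exact a3 s

lemma Str.sum {A : AddSubgroup ℝ} {α : Type*} (T : Finset α) (ψ : α → ℤ → ℂ)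
    (h : ∀ a ∈ T, Str A (ψ a)) : Str A (fun s => ∑ a ∈ T, ψ a s) := by
  classical
  induction T using Finset.induction_on with
  | empty => simpa using Str.of_null Null.zero
  | insert a T ha ih =>
    simp only [sum_insert ha]
    exact (h a (mem_insert_self _ _)).add (ih fun b hb => h b (mem_insert_of_mem hb))

lemma Str.of_approx {A : AddSubgroup ℝ} {ψ : ℤ → ℂ}
    (h : ∀ ε : ℝ, 0 < ε → ∃ φ, Str A φ ∧ ∀ s, ‖ψ s - φ s‖ ≤ ε) : Str A ψ := by
  intro ε hε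
  obtain ⟨φ, h1, h2⟩ := h (ε / 2) (by positivity)
  obtain ⟨a, P, a1, a2, a3⟩ := h1 (ε / 2) (by positivity)
  refine ⟨a, P, a1, a2, fun s => ?_⟩
  calc _ = ‖(ψ s - φ s) + (φ s - a s - P s)‖ := by ring_nf
    _ ≤ _ := (norm_add_le _ _).trans (by linarith [h2 s, a3 s])

end Pool.Agent.P.MP_fc4783_an
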