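import Pool.Agent.P.MP_fc4783_an.Basic

/-! Fourier approximation along a torus action. -/

namespace Pool.Agent.P.MP_fc4783_an

open Filter Topology Finset MeasureTheory UnitAddTorus

lemma fa_coe {κ : Type} [Fintype κ] (k : κ → ℤ) (z : κ → ℝ) :
    mFourier k (fun a => (z a : UnitAddCircle)) = ex (∑ a, k a * z a) := by
  simp only [mFourier, ContinuousMap.coe_mk, fourier_coe_apply, ex]
  rw [← Complex.exp_sum]
  congr 1
  push_cast
  rw [mul_sum, sum_mul]
  exact sum_congr rfl fun a _ => by ring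

lemma fa_sub {κ : Type} [Fintype κ] (k : κ → ℤ) (s t : UnitAddTorus κ) :
    mFourier k (s - t) = mFourier k s * mFourier (-k) t := by
  simp only [mFourier, ContinuousMap.coe_mk, fourier_apply, ← prod_mul_distrib,
    Pi.neg_apply, sub_eq_add_neg, Pi.add_apply, smul_add, AddCircle.toCircle_add, Circle.coe_mul,
    smul_neg, neg_smul]

lemma fa_approx {κ E : Type} [Fintype κ] [NormedAddCommGroup E] [NormedSpace ℂ E] [CompleteSpace E]
    (μ : Measure (UnitAddTorus κ)) [IsProbabilityMeasure μ] [μ.IsAddHaarMeasure]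
    (G : C(UnitAddTorus κ, E)) {ε : ℝ} (hε : 0 < ε) :
    ∃ (S : Finset (κ → ℤ)) (c : (κ → ℤ) → ℂ), ∀ τ,
      ‖G τ - ∑ k ∈ S, (c k * mFourier k τ) • ∫ t, mFourier (-k) t • G t ∂μ‖ ≤ ε := by
  have : μ.IsNegInvariant := Measure.IsAddHaarMeasure.isNegInvariant_of_regular μ
  obtain ⟨δ, hδ, hu⟩ := Metric.uniformContinuous_iff.1
    (CompactSpace.uniformContinuous_of_continuous G.continuous) (ε / 2) (by positivity)
  obtain ⟨r, hr1, hr0, hrc, hr⟩ := exists_continuous_one_zero_of_isCompact
    (isCompact_singleton (x := (0 : UnitAddTorus κ)))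
    (Metric.isOpen_ball (x := 0) (ε := δ)).isClosed_compl (by simpa using hδ)
  have hI : 0 < ∫ t, r t ∂μ := r.continuous.integral_pos_of_hasCompactSupport_nonneg_nonzero hrc
    (fun t => (hr t).1) (x := 0) (by rw [hr1 rfl]; simp)
  set I := ∫ t, r t ∂μ with hIe
  let ρ : C(UnitAddTorus κ, ℂ) := ⟨fun t => ((r t / I : ℝ) : ℂ), by fun_prop⟩
  have hρ : ρ ∈ closure (Submodule.span ℂ (Set.range (mFourier (d := κ))) : Set _) := by
    rw [← Submodule.topologicalClosure_coe, span_mFourier_closure_eq_top]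
    trivial
  obtain ⟨P, hP, hd⟩ := Metric.mem_closure_iff.1 hρ (ε / 2 / (‖G‖ + 1)) (by positivity)
  obtain ⟨c, rfl⟩ := Finsupp.mem_span_range_iff_exists_finsupp.1 hP
  refine ⟨c.support, c, fun τ => ?_⟩
  have hi : ∀ Q : C(UnitAddTorus κ, ℂ), Integrable (fun t => Q t • G (τ - t)) μ := fun Q =>
    Continuous.integrable_of_hasCompactSupport (by fun_prop) (HasCompactSupport.of_compactSpace _)
  have e1 : ∑ k ∈ c.support, (c k * mFourier k τ) • ∫ t, mFourier (-k) t • G t ∂μ =
      ∫ t, (c.sum fun k a => a • mFourier k) t • G (τ - t) ∂μ := by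
    simp only [Finsupp.sum, ContinuousMap.coe_sum, Finset.sum_apply, sum_smul]
    rw [integral_finsetSum _ fun k _ => hi _]
    refine sum_congr rfl fun k _ => ?_
    rw [← integral_sub_left_eq_self (fun t => (c k • mFourier k) t • G (τ - t)) μ τ,
      ← integral_smul]
    simp only [ContinuousMap.smul_apply, smul_eq_mul, fa_sub, sub_sub_cancel, smul_smul, mul_assoc]
  have hri : Integrable (fun t => r t / I) μ :=
    Continuous.integrable_of_hasCompactSupport (by fun_prop) (HasCompactSupport.of_compactSpace _)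
  have hr1' : ∫ t, r t / I ∂μ = 1 := by rw [integral_div, ← hIe, div_self hI.ne']
  have e2 : G τ = ∫ t, ρ t • G τ ∂μ := by
    rw [integral_smul_const]
    simp only [ρ, ContinuousMap.coe_mk]
    rw [integral_complex_ofReal, hr1', Complex.ofReal_one, one_smul]
  have hi2 : Integrable (fun t => ρ t • G τ) μ :=
    Continuous.integrable_of_hasCompactSupport (by fun_prop) (HasCompactSupport.of_compactSpace _)
  have b1 : ‖G τ - ∫ t, ρ t • G (τ - t) ∂μ‖ ≤ ε / 2 := by
    nth_rewrite 1 [e2]
    rw [← integral_sub hi2 (hi ρ)]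
    refine (norm_integral_le_of_norm_le (hri.mul_const (ε / 2))
      (Eventually.of_forall fun t => ?_)).trans (by rw [integral_mul_const, hr1', one_mul])
    have h0 : 0 ≤ r t / I := div_nonneg (hr t).1 hI.le
    rw [← smul_sub, norm_smul]
    simp only [ρ, ContinuousMap.coe_mk, Complex.norm_real, Real.norm_of_nonneg h0]
    by_cases ht : t ∈ Metric.ball (0 : UnitAddTorus κ) δ
    · refine mul_le_mul_of_nonneg_left ?_ h0
      rw [← dist_eq_norm]
      refine (hu ?_).le
      rw [dist_eq_norm, sub_sub_cancel]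
      simpa using ht
    · rw [hr0 ht]
      simp
  have b2 : ‖∫ t, ρ t • G (τ - t) ∂μ -
      ∫ t, (c.sum fun k a => a • mFourier k) t • G (τ - t) ∂μ‖ ≤ ε / 2 := by
    rw [← integral_sub (hi _) (hi _)]
    refine (norm_integral_le_of_norm_le_const (C := ε / 2)
      (Eventually.of_forall fun t => ?_)).trans (by simp)
    rw [← sub_smul, norm_smul, ← dist_eq_norm]
    calc _ ≤ ε / 2 / (‖G‖ + 1) * (‖G‖ + 1) :=
          mul_le_mul ((ContinuousMap.dist_apply_le_dist t).trans hd.le)
            ((G.norm_coe_le_norm _).trans (by linarith)) (norm_nonneg _) (by positivity)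
      _ = ε / 2 := by field_simp
  rw [e1]
  linarith [norm_sub_le_norm_sub_add_norm_sub (G τ) (∫ t, ρ t • G (τ - t) ∂μ)
    (∫ t, (c.sum fun k a => a • mFourier k) t • G (τ - t) ∂μ)]

theorem fourier_approx {κ X : Type} [Fintype κ] [TopologicalSpace X] [CompactSpace X]
    (Φ : (κ → ℝ) → X → ℂ) (hc : Continuous (Function.uncurry Φ))
    (hper : ∀ z x (v : κ → ℤ), Φ (z + fun a => (v a : ℝ)) x = Φ z x) :
    ∃ Ψ : (κ → ℤ) → X → ℂ, (∀ k, Continuous (Ψ k)) ∧
      (∀ (k : κ → ℤ) (w : κ → ℝ) (x x' : X), (∀ z, Φ z x' = Φ (z + w) x) →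
        Ψ k x' = ex (∑ a, k a * w a) * Ψ k x) ∧
      ∀ ε : ℝ, 0 < ε → ∃ (S : Finset (κ → ℤ)) (c : (κ → ℤ) → ℂ), ∀ z x,
        ‖Φ z x - ∑ k ∈ S, c k * ex (∑ a, k a * z a) * Ψ k x‖ ≤ ε := by
  let F : C(κ → ℝ, C(X, ℂ)) := ContinuousMap.curry ⟨Function.uncurry Φ, hc⟩
  have hq : IsOpenQuotientMap fun (z : κ → ℝ) (a : κ) => (z a : UnitAddCircle) :=
    IsOpenQuotientMap.piMap fun _ => QuotientAddGroup.isOpenQuotientMap_mk
  have hF : ∀ z : κ → ℝ, F (fun a => (z a : UnitAddCircle).out) = F z := by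
    intro z
    have : ∀ a, ∃ n : ℤ, (z a : UnitAddCircle).out = z a + n := fun a => by
      obtain ⟨n, hn⟩ := QuotientAddGroup.eq.1 (QuotientAddGroup.out_eq' (z a : UnitAddCircle)).symm
      exact ⟨n, by simp only [zsmul_eq_mul, mul_one] at hn; linarith⟩
    choose v hv using this
    ext x
    rw [show (fun a => (z a : UnitAddCircle).out) = z + fun a => (v a : ℝ) from funext hv]
    exact hper z x v
  let G : C(UnitAddTorus κ, C(X, ℂ)) := ⟨fun τ => F fun a => (τ a).out,
    hq.continuous_comp_iff.1 (F.continuous.congr fun z => (hF z).symm)⟩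
  have hG : ∀ (z : κ → ℝ) x, G (fun a => (z a : UnitAddCircle)) x = Φ z x := fun z x =>
    congrFun (congrArg DFunLike.coe (hF z)) x
  let μ : Measure (UnitAddTorus κ) := Measure.pi fun _ => AddCircle.haarAddCircle
  have hi : ∀ k, Integrable (fun t => mFourier (-k) t • G t) μ := fun k =>
    Continuous.integrable_of_hasCompactSupport (by fun_prop) (HasCompactSupport.of_compactSpace _)
  refine ⟨fun k => ⇑(∫ t, mFourier (-k) t • G t ∂μ), fun k => ContinuousMap.continuous _,
    fun k w x x' h => ?_, fun ε hε => ?_⟩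
  · have h1 : ∀ τ, G (τ - fun a => (w a : UnitAddCircle)) x' = G τ x := by
      intro τ
      obtain ⟨z, rfl⟩ := hq.surjective τ
      have : ((fun a => (z a : UnitAddCircle)) - fun a => (w a : UnitAddCircle)) =
          fun a => ((z - w) a : UnitAddCircle) := rfl
      simp only
      rw [this, hG, hG, h, sub_add_cancel]
    simp only
    rw [ContinuousMap.integral_apply (hi k), ContinuousMap.integral_apply (hi k),
      ← integral_sub_right_eq_self _ fun a => (w a : UnitAddCircle), ← integral_const_mul]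
    simp only [ContinuousMap.smul_apply, smul_eq_mul, h1, fa_sub, neg_neg, fa_coe]
    congr 1
    funext t
    ring
  · obtain ⟨S, c, h⟩ := fa_approx μ G hε
    refine ⟨S, c, fun z x => le_trans ?_ (h fun a => (z a : UnitAddCircle))⟩
    refine le_trans (le_of_eq ?_) (ContinuousMap.norm_coe_le_norm _ x)
    simp only [ContinuousMap.sub_apply, hG, ContinuousMap.coe_sum, Finset.sum_apply,
      ContinuousMap.smul_apply, smul_eq_mul, fa_coe]

end Pool.Agent.P.MP_fc4783_an
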