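import Pool.Agent.P.MP_fc4783_an.Vdc

/-! Fejer kernels, the tent mean and the averaging operators on frequencies. -/

namespace Pool.Agent.P.MP_fc4783_an

open Filter Topology Finset

lemma ex_nat_mul (a : ℕ) (x : ℝ) : ex (a * x) = ex x ^ a := by
  induction a with
  | zero => simp
  | succ a ih => push_cast; rw [add_mul, one_mul, ex_add, ih, pow_succ]

lemma four_dZ_le (x : ℝ) : 4 * dZ x ≤ ‖ex x - 1‖ := by
  have e : ex x = ex (x - round x) := by
    rw [sub_eq_add_neg x, ← Int.cast_neg, ex_add_int]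
  set y := x - round x with hy
  have hy2 : |y| ≤ 1 / 2 := abs_sub_round x
  have e2 : ex y = Complex.exp (Complex.I * ((2 * Real.pi * y : ℝ) : ℂ)) := by
    unfold ex; congr 1; push_cast; ring
  rw [e, e2, Complex.norm_exp_I_mul_ofReal_sub_one, Real.norm_eq_abs, abs_mul, abs_two]
  have h := Real.mul_abs_le_abs_sin (x := 2 * Real.pi * y / 2) (by
    rw [show 2 * Real.pi * y / 2 = Real.pi * y by ring, abs_mul, abs_of_pos Real.pi_pos]
    nlinarith [Real.pi_pos])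
  have e3 : 2 / Real.pi * |2 * Real.pi * y / 2| = 2 * |y| := by
    rw [show 2 * Real.pi * y / 2 = Real.pi * y by ring, abs_mul, abs_of_pos Real.pi_pos]
    field_simp
  rw [e3] at h
  unfold dZ; rw [← hy]; linarith

lemma eight_dZ_sq_le (x : ℝ) : 8 * dZ x ^ 2 ≤ 1 - (ex x).re := by
  have h1 := four_dZ_le x
  have h2 : ‖ex x - 1‖ ^ 2 = 2 - 2 * (ex x).re := by
    have := norm_ex x
    rw [← Complex.normSq_eq_norm_sq, Complex.normSq_sub, Complex.normSq_eq_norm_sq, this]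
    simp; ring
  nlinarith [dZ_nonneg x]

/-- The Fejer kernel. -/
noncomputable def Fj (m : ℕ) (x : ℝ) : ℝ := (m : ℝ)⁻¹ * ‖∑ a ∈ range m, ex (a * x)‖ ^ 2

lemma Fj_nonneg (m : ℕ) (x : ℝ) : 0 ≤ Fj m x := by unfold Fj; positivity

lemma Fj_le (m : ℕ) (x : ℝ) : Fj m x ≤ m := by
  unfold Fj
  have : ‖∑ a ∈ range m, ex (a * x)‖ ≤ m := by
    refine (norm_sum_le _ _).trans ?_; simp
  rcases Nat.eq_zero_or_pos m with rfl | hm
  · simp
  calc _ ≤ (m : ℝ)⁻¹ * m ^ 2 := by gcongr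
    _ = m := by field_simp

lemma Fj_one (x : ℝ) : Fj 1 x = 1 := by simp [Fj]

lemma Fj_eq (m : ℕ) (x : ℝ) : (Fj m x : ℂ) =
    (m : ℂ)⁻¹ * ∑ a ∈ range m, ∑ b ∈ range m, ex (((a : ℝ) - b) * x) := by
  unfold Fj
  rw [Complex.ofReal_mul, ← Complex.normSq_eq_norm_sq, ← Complex.mul_conj, map_sum, sum_mul_sum]
  push_cast
  congr 1
  refine sum_congr rfl fun a _ => sum_congr rfl fun b _ => ?_
  rw [conj_ex, ← ex_add]; congr 1; ring

lemma abs_sub_le_of_mem_range {m a b : ℕ} (ha : a ∈ range m) (hb : b ∈ range m) :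
    |(a : ℝ) - b| ≤ m := by
  have h1 : (a : ℝ) < m := by exact_mod_cast mem_range.1 ha
  have h2 : (b : ℝ) < m := by exact_mod_cast mem_range.1 hb
  have h3 : (0 : ℝ) ≤ a := by positivity
  have h4 : (0 : ℝ) ≤ b := by positivity
  rw [abs_le]; constructor <;> linarith

lemma dZ_sub_mul_le {m a b : ℕ} (ha : a ∈ range m) (hb : b ∈ range m) (u : ℝ) :
    dZ (((a : ℝ) - b) * u) ≤ m * dZ u := by
  have := dZ_int_mul_le ((a : ℤ) - b) u
  push_cast at this
  exact this.trans (mul_le_mul_of_nonneg_right (abs_sub_le_of_mem_range ha hb) (dZ_nonneg _))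

lemma Fj_lip (m : ℕ) (x u : ℝ) : |Fj m (x + u) - Fj m x| ≤ 2 * Real.pi * m ^ 2 * dZ u := by
  rcases Nat.eq_zero_or_pos m with rfl | hm
  · simp [Fj]
  rw [← Real.norm_eq_abs, ← Complex.norm_real, Complex.ofReal_sub, Fj_eq, Fj_eq, ← mul_sub,
    ← sum_sub_distrib, norm_mul, norm_inv, Complex.norm_natCast]
  have hd := dZ_nonneg u
  calc _ ≤ (m : ℝ)⁻¹ * ∑ a ∈ range m, ∑ b ∈ range m, 2 * Real.pi * (m * dZ u) := by
        gcongr
        refine (norm_sum_le _ _).trans (sum_le_sum fun a ha => ?_)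
        rw [← sum_sub_distrib]
        refine (norm_sum_le _ _).trans (sum_le_sum fun b hb => ?_)
        refine (norm_ex_sub_ex_le _ _).trans ?_
        rw [show ((a : ℝ) - b) * (x + u) - (a - b) * x = (a - b) * u by ring]
        gcongr; exact dZ_sub_mul_le ha hb u
    _ = _ := by simp only [sum_const, card_range, nsmul_eq_mul]; field_simp

/-- Fourier transform of the tent mean. -/
noncomputable def TN (N : ℕ) (x : ℝ) : ℝ := (N : ℝ)⁻¹ * Fj N x

lemma TN_nonneg (N : ℕ) (x : ℝ) : 0 ≤ TN N x := mul_nonneg (by positivity) (Fj_nonneg _ _)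

lemma TN_le_one (N : ℕ) (x : ℝ) : TN N x ≤ 1 :=
  inv_mul_le_one_of_le₀ (Fj_le _ _) (by positivity)

lemma TN_le (N : ℕ) (hN : 0 < N) (x η : ℝ) (hη : 0 < η) (hx : η ≤ dZ x) :
    TN N x ≤ 1 / (4 * (N * η) ^ 2) := by
  have h1 : ‖∑ a ∈ range N, ex (a * x)‖ * ‖ex x - 1‖ ≤ 2 := by
    rw [← norm_mul]
    simp_rw [ex_nat_mul]
    rw [geom_sum_mul]
    refine (norm_sub_le _ _).trans ?_
    rw [norm_pow, norm_ex]; norm_num
  have h2 : ‖∑ a ∈ range N, ex (a * x)‖ ≤ 1 / (2 * η) := by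
    rw [le_div_iff₀ (by positivity)]
    have := four_dZ_le x
    nlinarith [norm_nonneg (∑ a ∈ range N, ex (a * x))]
  unfold TN Fj
  calc _ ≤ (N : ℝ)⁻¹ * ((N : ℝ)⁻¹ * (1 / (2 * η)) ^ 2) := by gcongr
    _ = _ := by field_simp; ring

/-- The tent mean: the law of the difference of two uniform variables on `[0,N)`. -/
noncomputable def tent (N : ℕ) (hN : 0 < N) : Mean where
  S := range N ×ˢ range N
  w := fun _ => ((N : ℝ) ^ 2)⁻¹
  p := fun j => (j.1 : ℤ) - j.2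
  nonneg := fun _ => by positivity
  sum_one := by
    simp only [sum_const, card_product, card_range, nsmul_eq_mul]; push_cast; field_simp

lemma tent_avg (N : ℕ) (hN : 0 < N) (g : ℤ → ℂ) : (tent N hN).avg g =
    ((N : ℂ) ^ 2)⁻¹ * ∑ a ∈ range N, ∑ b ∈ range N, g ((a : ℤ) - b) := by
  simp only [Mean.avg, tent, sum_product, mul_sum]; push_cast; rfl

lemma tent_ex (N : ℕ) (hN : 0 < N) (x : ℝ) :
    (tent N hN).avg (fun s => ex (x * s)) = (TN N x : ℝ) := by
  rw [tent_avg, TN, Complex.ofReal_mul, Fj_eq, ← mul_assoc]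
  push_cast
  congr 1
  · ring
  · exact sum_congr rfl fun a _ => sum_congr rfl fun b _ => by rw [mul_comm]

lemma tent_supp (N : ℕ) (hN : 0 < N) (j : ℕ × ℕ) (hj : j ∈ (tent N hN).S) :
    |(((tent N hN).p j : ℤ) : ℝ)| ≤ N := by
  simp only [tent, mem_product] at hj ⊢
  push_cast
  exact abs_sub_le_of_mem_range hj.1 hj.2

lemma le_TN (N : ℕ) (hN : 0 < N) (x : ℝ) : 1 - 2 * Real.pi * N * dZ x ≤ TN N x := by
  have h1 : ‖(tent N hN).avg (fun s => ex (x * s) - 1)‖ ≤ 2 * Real.pi * N * dZ x := by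
    rw [← (tent N hN).avgR_const (2 * Real.pi * N * dZ x)]
    refine Mean.norm_avg_le_avgR_on _ fun j hj => (norm_ex_sub_one_le_dZ _).trans ?_
    rw [mul_comm x, mul_assoc (2 * Real.pi)]
    gcongr
    exact (dZ_int_mul_le _ _).trans
      (mul_le_mul_of_nonneg_right (tent_supp N hN j hj) (dZ_nonneg _))
  rw [Mean.avg_sub, tent_ex, Mean.avg_const, ← Complex.ofReal_one, ← Complex.ofReal_sub,
    Complex.norm_real, Real.norm_eq_abs] at h1
  linarith [(abs_le.1 h1).1]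

lemma TN_zero (N : ℕ) (hN : 0 < N) : TN N 0 = 1 :=
  le_antisymm (TN_le_one _ _) (by simpa using le_TN N hN 0)

lemma sum_range_shift_le (N : ℕ) (g : ℤ → ℂ) (C : ℝ) (hg : ∀ s, ‖g s‖ ≤ C) (h : ℤ) :
    ‖∑ a ∈ range N, g (a + h) - ∑ a ∈ range N, g a‖ ≤ 2 * |(h : ℝ)| * C := by
  have step : ∀ t : ℤ, ‖∑ a ∈ range N, g (a + (t + 1)) - ∑ a ∈ range N, g (a + t)‖ ≤ 2 * C := by
    intro t
    have := sum_range_sub (fun a : ℕ => g (a + t)) N
    rw [← sum_sub_distrib]
    have e : ∑ a ∈ range N, (g (a + (t + 1)) - g (a + t)) = g (N + t) - g ((0 : ℕ) + t) := by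
      rw [← this]; refine sum_congr rfl fun a _ => ?_
      push_cast; congr 2; ring
    rw [e]; linarith [norm_sub_le (g (N + t)) (g ((0 : ℕ) + t)), hg (N + t), hg ((0 : ℕ) + t)]
  induction h using Int.induction_on with
  | zero => simp
  | succ k ih =>
    have := norm_sub_le_norm_sub_add_norm_sub (∑ a ∈ range N, g (a + (k + 1)))
      (∑ a ∈ range N, g (a + k)) (∑ a ∈ range N, g a)
    have e1 : |((k : ℤ) : ℝ)| = k := by push_cast; exact abs_of_nonneg (by positivity)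
    have e2 : |(((k : ℤ) + 1 : ℤ) : ℝ)| = k + 1 := by
      push_cast; exact abs_of_nonneg (by positivity)
    rw [e1] at ih; rw [e2]
    linarith [step k]
  | pred k ih =>
    have := norm_sub_le_norm_sub_add_norm_sub (∑ a ∈ range N, g (a + (-k - 1)))
      (∑ a ∈ range N, g (a + -k)) (∑ a ∈ range N, g a)
    have e1 : |((-(k : ℤ) : ℤ) : ℝ)| = k := by
      push_cast; rw [abs_neg]; exact abs_of_nonneg (by positivity)
    have e2 : |((-(k : ℤ) - 1 : ℤ) : ℝ)| = k + 1 := by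
      push_cast; rw [show (-(k : ℝ) - 1) = -(k + 1) by ring, abs_neg]
      exact abs_of_nonneg (by positivity)
    rw [e1] at ih; rw [e2]
    have s := step (-k - 1)
    rw [sub_add_cancel, norm_sub_rev] at s
    linarith

lemma tent_shift (N : ℕ) (hN : 0 < N) (g : ℤ → ℂ) (C : ℝ) (hg : ∀ s, ‖g s‖ ≤ C) (h : ℤ) :
    ‖(tent N hN).avg (fun s => g (s + h)) - (tent N hN).avg g‖ ≤ 2 * |(h : ℝ)| * C / N := by
  rw [tent_avg, tent_avg, ← mul_sub, sum_comm, sum_comm (f := fun (a b : ℕ) => g ((a : ℤ) - b)),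
    ← sum_sub_distrib, norm_mul, norm_inv, norm_pow, Complex.norm_natCast]
  calc _ ≤ ((N : ℝ) ^ 2)⁻¹ * ∑ b ∈ range N, 2 * |(h : ℝ)| * C := by
        gcongr
        refine (norm_sum_le _ _).trans (sum_le_sum fun b _ => ?_)
        have := sum_range_shift_le N (fun s => g (s - b)) C (fun s => hg _) h
        simpa only [add_sub_right_comm] using this
    _ = _ := by simp only [sum_const, card_range, nsmul_eq_mul]; field_simp

/-- Reweighting a mean by a nonnegative density. -/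
noncomputable def Mean.rew (μ : Mean) (Φ : ℤ → ℝ) (h0 : ∀ s, 0 ≤ Φ s) (hZ : 0 < μ.avgR Φ) :
    Mean where
  S := μ.S
  w := fun j => (μ.avgR Φ)⁻¹ * (μ.w j * Φ (μ.p j))
  p := μ.p
  nonneg := fun j => mul_nonneg (inv_nonneg.2 hZ.le) (mul_nonneg (μ.nonneg j) (h0 _))
  sum_one := by rw [← mul_sum]; exact inv_mul_cancel₀ hZ.ne'

lemma Mean.rew_avg (μ : Mean) (Φ : ℤ → ℝ) (h0 : ∀ s, 0 ≤ Φ s) (hZ : 0 < μ.avgR Φ) (ψ : ℤ → ℂ) :
    (μ.rew Φ h0 hZ).avg ψ = ((μ.avgR Φ : ℝ) : ℂ)⁻¹ * μ.avg (fun s => Φ s * ψ s) := by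
  simp only [Mean.avg, Mean.rew, mul_sum]
  exact sum_congr rfl fun j _ => by push_cast; ring

lemma Mean.rew_avgR (μ : Mean) (Φ : ℤ → ℝ) (h0 : ∀ s, 0 ≤ Φ s) (hZ : 0 < μ.avgR Φ) (g : ℤ → ℝ) :
    (μ.rew Φ h0 hZ).avgR g = (μ.avgR Φ)⁻¹ * μ.avgR (fun s => Φ s * g s) := by
  simp only [Mean.avgR, Mean.rew, mul_sum]
  exact sum_congr rfl fun j _ => by ring

/-- Product of shifted Fejer kernels. -/
noncomputable def Phi (m : ℕ → ℕ) (ϑ u : ℕ → ℝ) (i : ℕ) (s : ℤ) : ℝ :=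
  ∏ k ∈ range i, Fj (m k) (s * ϑ k + u k)

lemma Phi_nonneg (m : ℕ → ℕ) (ϑ u : ℕ → ℝ) (i : ℕ) (s : ℤ) : 0 ≤ Phi m ϑ u i s :=
  prod_nonneg fun _ _ => Fj_nonneg _ _

/-- The product of the first `i` orders. -/
noncomputable def MM (m : ℕ → ℕ) (i : ℕ) : ℝ := ∏ k ∈ range i, (m k : ℝ)

lemma MM_nonneg (m : ℕ → ℕ) (i : ℕ) : 0 ≤ MM m i := prod_nonneg fun _ _ => by positivity

lemma MM_succ (m : ℕ → ℕ) (i : ℕ) : MM m (i + 1) = MM m i * m i := prod_range_succ _ _

lemma Phi_le (m : ℕ → ℕ) (ϑ u : ℕ → ℝ) (i : ℕ) (s : ℤ) : Phi m ϑ u i s ≤ MM m i :=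
  prod_le_prod (fun _ _ => Fj_nonneg _ _) fun _ _ => Fj_le _ _

/-- The averaging operator on frequencies dual to multiplication by `Phi`. -/
noncomputable def Bop (m : ℕ → ℕ) (ϑ : ℕ → ℝ) (G : ℝ → ℝ) : ℕ → ℝ → ℝ
  | 0, x => G x
  | i + 1, x => (m i : ℝ)⁻¹ *
      ∑ a ∈ range (m i), ∑ b ∈ range (m i), Bop m ϑ G i (x + ((a : ℝ) - b) * ϑ i)

section
variable (m : ℕ → ℕ) (ϑ : ℕ → ℝ)

lemma avg_Phi_succ (μ : Mean) (u : ℕ → ℝ) (i : ℕ) (x : ℝ) :
    μ.avg (fun s => Phi m ϑ u (i + 1) s * ex (x * s)) = (m i : ℂ)⁻¹ *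
      ∑ a ∈ range (m i), ∑ b ∈ range (m i), ex (((a : ℝ) - b) * u i) *
        μ.avg (fun s => Phi m ϑ u i s * ex ((x + ((a : ℝ) - b) * ϑ i) * s)) := by
  simp_rw [← μ.avg_const_mul, ← μ.avg_sum]
  rw [← μ.avg_const_mul]
  congr 1; ext s
  rw [Phi, prod_range_succ, Complex.ofReal_mul, Fj_eq]
  simp only [mul_sum, sum_mul]
  refine sum_congr rfl fun a _ => sum_congr rfl fun b _ => ?_
  rw [show ((a : ℝ) - b) * (s * ϑ i + u i) = (a - b) * u i + (a - b) * ϑ i * s by ring,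
    show (x + ((a : ℝ) - b) * ϑ i) * s = x * s + (a - b) * ϑ i * s by ring, ex_add, ex_add, Phi]
  ring

lemma tent_Phi (N : ℕ) (hN : 0 < N) (i : ℕ) (x : ℝ) :
    (tent N hN).avg (fun s => Phi m ϑ 0 i s * ex (x * s)) = (Bop m ϑ (TN N) i x : ℝ) := by
  induction i generalizing x with
  | zero => simp [Phi, Bop, tent_ex]
  | succ i ih => rw [avg_Phi_succ]; simp [ih, Bop]

lemma norm_tent_Phi (N : ℕ) (hN : 0 < N) (u : ℕ → ℝ) (i : ℕ) (x : ℝ) :
    ‖(tent N hN).avg (fun s => Phi m ϑ u i s * ex (x * s))‖ ≤ Bop m ϑ (TN N) i x := by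
  induction i generalizing x with
  | zero => simp [Phi, Bop, tent_ex, abs_of_nonneg (TN_nonneg _ _)]
  | succ i ih =>
    rw [avg_Phi_succ, Bop, norm_mul, norm_inv, Complex.norm_natCast]
    gcongr
    refine (norm_sum_le _ _).trans (sum_le_sum fun a _ => (norm_sum_le _ _).trans
      (sum_le_sum fun b _ => ?_))
    rw [norm_mul, norm_ex, one_mul]; exact ih _

lemma tent_avgR_Phi (N : ℕ) (hN : 0 < N) (i : ℕ) :
    (tent N hN).avgR (Phi m ϑ 0 i) = Bop m ϑ (TN N) i 0 := by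
  have := tent_Phi m ϑ N hN i 0
  simp only [zero_mul, ex_zero, mul_one, Mean.avg_ofReal] at this
  exact_mod_cast this

lemma tent_avgR_Phi_le (N : ℕ) (hN : 0 < N) (u : ℕ → ℝ) (i : ℕ) :
    (tent N hN).avgR (Phi m ϑ u i) ≤ Bop m ϑ (TN N) i 0 := by
  have := norm_tent_Phi m ϑ N hN u i 0
  simp only [zero_mul, ex_zero, mul_one, Mean.avg_ofReal, Complex.norm_real] at this
  exact (le_abs_self _).trans this

lemma sum_update_succ (w : ℕ → ℤ) (i : ℕ) (D : ℤ) :
    ∑ k ∈ range (i + 1), (Function.update w i D k : ℝ) * ϑ k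
      = D * ϑ i + ∑ k ∈ range i, w k * ϑ k := by
  rw [sum_range_succ, Function.update_self, add_comm]
  congr 1
  exact sum_congr rfl fun k hk => by rw [Function.update_of_ne (mem_range.1 hk).ne]

lemma box_update {w : ℕ → ℤ} {i : ℕ} {D : ℤ} (hw : ∀ k < i, |w k| < m k) (hD : |D| < m i) :
    ∀ k < i + 1, |Function.update w i D k| < m k := by
  intro k hk
  rcases Nat.lt_succ_iff_lt_or_eq.1 hk with h | rfl
  · rw [Function.update_of_ne h.ne]; exact hw k h
  · rwa [Function.update_self]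

lemma abs_int_sub_lt {M a b : ℕ} (ha : a ∈ range M) (hb : b ∈ range M) :
    |(a : ℤ) - b| < M := by
  have := mem_range.1 ha; have := mem_range.1 hb
  rw [abs_lt]; constructor <;> omega

lemma Bop_mono (hm : ∀ k, 0 < m k) (G G' : ℝ → ℝ) (c : ℝ) (i : ℕ) (x x' : ℝ)
    (h : ∀ w : ℕ → ℤ, (∀ k < i, |w k| < m k) →
      G (x + ∑ k ∈ range i, w k * ϑ k) ≤ G' (x' + ∑ k ∈ range i, w k * ϑ k) + c) :
    Bop m ϑ G i x ≤ Bop m ϑ G' i x' + MM m i * c := by
  induction i generalizing x x' with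
  | zero => simpa [Bop, MM] using h 0 (by simp)
  | succ i ih =>
    have hmi : (0 : ℝ) < m i := by exact_mod_cast hm i
    rw [Bop, Bop]
    calc _ ≤ (m i : ℝ)⁻¹ * ∑ a ∈ range (m i), ∑ b ∈ range (m i),
          (Bop m ϑ G' i (x' + ((a : ℝ) - b) * ϑ i) + MM m i * c) := by
          gcongr with a ha b hb
          refine ih _ _ fun w hw => ?_
          have := h _ (box_update m hw (abs_int_sub_lt ha hb))
          rw [sum_update_succ] at this
          push_cast at this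
          simpa only [add_assoc] using this
      _ = _ := by
          simp only [sum_add_distrib, sum_const, card_range, nsmul_eq_mul, mul_add, MM_succ]
          congr 1; field_simp

lemma Bop_zero (i : ℕ) (x : ℝ) : Bop m ϑ (fun _ => 0) i x = 0 := by
  induction i generalizing x with
  | zero => rfl
  | succ i ih => simp [Bop, ih]

lemma Bop_le (hm : ∀ k, 0 < m k) (G : ℝ → ℝ) (c : ℝ) (i : ℕ) (x : ℝ)
    (h : ∀ w : ℕ → ℤ, (∀ k < i, |w k| < m k) → G (x + ∑ k ∈ range i, w k * ϑ k) ≤ c) :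
    Bop m ϑ G i x ≤ MM m i * c := by
  have := Bop_mono m ϑ hm G (fun _ => 0) c i x x (by simpa using h)
  rwa [Bop_zero, zero_add] at this

lemma Bop_nonneg (G : ℝ → ℝ) (hG : ∀ x, 0 ≤ G x) (i : ℕ) (x : ℝ) : 0 ≤ Bop m ϑ G i x := by
  induction i generalizing x with
  | zero => exact hG x
  | succ i ih =>
    rw [Bop]
    exact mul_nonneg (by positivity) (sum_nonneg fun _ _ => sum_nonneg fun _ _ => ih _)

lemma Bop_le_succ (hm : ∀ k, 0 < m k) (G : ℝ → ℝ) (hG : ∀ x, 0 ≤ G x) (i : ℕ) (x : ℝ) :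
    Bop m ϑ G i x ≤ Bop m ϑ G (i + 1) x := by
  have hmi : (0 : ℝ) < m i := by exact_mod_cast hm i
  rw [Bop]
  calc _ = (m i : ℝ)⁻¹ * ∑ a ∈ range (m i), Bop m ϑ G i x := by
        simp only [sum_const, card_range, nsmul_eq_mul]; field_simp
    _ ≤ _ := by
        gcongr with a ha
        have := single_le_sum (f := fun b : ℕ => Bop m ϑ G i (x + ((a : ℝ) - b) * ϑ i))
          (fun b _ => Bop_nonneg m ϑ G hG i _) ha
        simpa using this

lemma Bop_mono_index (hm : ∀ k, 0 < m k) (G : ℝ → ℝ) (hG : ∀ x, 0 ≤ G x) (x : ℝ) :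
    Monotone fun i => Bop m ϑ G i x :=
  monotone_nat_of_le_succ fun i => Bop_le_succ m ϑ hm G hG i x

lemma le_Bop (hm : ∀ k, 0 < m k) (G : ℝ → ℝ) (hG : ∀ x, 0 ≤ G x) (i : ℕ) (x : ℝ) :
    G x ≤ Bop m ϑ G i x := Bop_mono_index m ϑ hm G hG x (Nat.zero_le i)

lemma le_Bop_freq (hm : ∀ k, 0 < m k) (G : ℝ → ℝ) (hG : ∀ x, 0 ≤ G x) {i k : ℕ} (hk : k < i) :
    (1 - 1 / m k) * G 0 ≤ Bop m ϑ G i (ϑ k) := by
  refine le_trans ?_ (Bop_mono_index m ϑ hm G hG (ϑ k) (Nat.succ_le_of_lt hk))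
  have hmk : (0 : ℝ) < m k := by exact_mod_cast hm k
  obtain ⟨M, hM⟩ : ∃ M, m k = M + 1 := ⟨m k - 1, by have := hm k; omega⟩
  change _ ≤ Bop m ϑ G (k + 1) (ϑ k)
  rw [Bop]
  calc _ = (m k : ℝ)⁻¹ * ∑ a ∈ range M, G 0 := by
        simp only [sum_const, card_range, nsmul_eq_mul]
        rw [show (M : ℝ) = m k - 1 by rw [hM]; push_cast; ring]; field_simp
    _ ≤ (m k : ℝ)⁻¹ * ∑ a ∈ range M, ∑ b ∈ range (m k),
          Bop m ϑ G k (ϑ k + ((a : ℝ) - b) * ϑ k) := by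
        gcongr with a ha
        have := single_le_sum (f := fun b : ℕ => Bop m ϑ G k (ϑ k + ((a : ℝ) - b) * ϑ k))
          (fun b _ => Bop_nonneg m ϑ G hG k _)
          (show a + 1 ∈ range (m k) by rw [hM]; simpa using ha)
        refine le_trans ?_ this
        rw [show ϑ k + ((a : ℝ) - (a + 1 : ℕ)) * ϑ k = 0 by push_cast; ring]
        exact le_Bop m ϑ hm G hG k 0
    _ ≤ _ := by
        gcongr
        · exact fun a _ _ => sum_nonneg fun _ _ => Bop_nonneg m ϑ G hG k _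
        · omega

lemma step_unique (M : ℕ) (hM : 0 < M) (V : ℤ → ℝ) (c c' : ℝ) (hc : 0 ≤ c) (hc' : 0 ≤ c') (D₀ : ℤ)
    (h1 : ∀ D : ℤ, |D| < M → D ≠ D₀ → V D ≤ c) (h2 : |D₀| < M → V D₀ ≤ c') :
    (M : ℝ)⁻¹ * ∑ a ∈ range M, ∑ b ∈ range M, V ((a : ℤ) - b) ≤ c' + M * c := by
  have hM' : (0 : ℝ) < M := by exact_mod_cast hM
  calc _ ≤ (M : ℝ)⁻¹ * ∑ a ∈ range M, (c' + M * c) := by
        gcongr with a ha
        calc _ ≤ ∑ b ∈ range M, ((if (a : ℤ) - b = D₀ then c' else 0) + c) := by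
              refine sum_le_sum fun b hb => ?_
              split_ifs with h
              · have := h2 (h ▸ abs_int_sub_lt ha hb); rw [h]; linarith
              · simpa using h1 _ (abs_int_sub_lt ha hb) h
          _ ≤ _ := by
              rw [sum_add_distrib, sum_const, card_range, nsmul_eq_mul, ← sum_filter, sum_const,
                nsmul_eq_mul]
              gcongr
              have : (filter (fun b : ℕ => (a : ℤ) - b = D₀) (range M)).card ≤ 1 :=
                card_le_one.2 fun b hb b' hb' => by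
                  have := (mem_filter.1 hb).2; have := (mem_filter.1 hb').2; omega
              have : ((filter (fun b : ℕ => (a : ℤ) - b = D₀) (range M)).card : ℝ) ≤ 1 := by
                exact_mod_cast this
              nlinarith
    _ = _ := by simp only [sum_const, card_range, nsmul_eq_mul]; field_simp

lemma MM_le_succ (hm : ∀ k, 0 < m k) (i : ℕ) : MM m i ≤ MM m (i + 1) := by
  rw [MM_succ]
  have : (1 : ℝ) ≤ m i := by exact_mod_cast hm i
  nlinarith [MM_nonneg m i]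

lemma Bop_at_zero (hm : ∀ k, 0 < m k) (G : ℝ → ℝ) (hG : G 0 ≤ 1) (c : ℝ) (hc : 0 ≤ c) (i : ℕ)
    (h : ∀ w : ℕ → ℤ, (∀ k < i, |w k| < m k) → (∃ k < i, w k ≠ 0) →
      G (∑ k ∈ range i, w k * ϑ k) ≤ c) :
    Bop m ϑ G i 0 ≤ 1 + i * MM m i * c := by
  induction i with
  | zero => simpa [Bop] using hG
  | succ i ih =>
    have ih' := ih fun w hw ⟨k, hk, hk'⟩ => by
      have := h _ (box_update m hw (D := 0) (by simpa using hm i))
        ⟨k, by omega, by rwa [Function.update_of_ne hk.ne]⟩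
      simpa [sum_update_succ] using this
    have hM := MM_nonneg m i
    have := step_unique (m i) (hm i) (fun D => Bop m ϑ G i (0 + D * ϑ i)) (MM m i * c)
      (1 + i * MM m i * c) (by positivity) (by positivity) 0 (fun D hD hD0 => by
        refine Bop_le m ϑ hm G c i _ fun w hw => ?_
        have := h _ (box_update m hw hD) ⟨i, by omega, by rwa [Function.update_self]⟩
        simpa [sum_update_succ] using this) (fun _ => by simpa using ih')
    rw [Bop]
    push_cast at this ⊢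
    refine this.trans ?_
    have h2 := MM_le_succ m hm i
    have h3 : (i : ℝ) * MM m i * c ≤ i * MM m (i + 1) * c := by gcongr
    rw [MM_succ] at h3 ⊢
    nlinarith

end

lemma abs_prod_sub_prod_le (a b : ℕ → ℝ) (ha : ∀ k, 0 ≤ a k) (hb : ∀ k, 0 ≤ b k) (i : ℕ) :
    |∏ l ∈ range i, a l - ∏ l ∈ range i, b l| ≤ ∑ k ∈ range i, |a k - b k| *
      ∏ l ∈ range i, (if l < k then a l else if l = k then 1 else b l) := by
  induction i with
  | zero => simp
  | succ i ih =>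
    rw [prod_range_succ, prod_range_succ, sum_range_succ]
    have e1 : ∏ l ∈ range (i + 1), (if l < i then a l else if l = i then 1 else b l)
        = ∏ l ∈ range i, a l := by
      rw [prod_range_succ]; simp only [lt_irrefl, if_false, if_true, mul_one]
      exact prod_congr rfl fun l hl => by rw [if_pos (mem_range.1 hl)]
    have e2 : ∑ k ∈ range i, |a k - b k| *
        ∏ l ∈ range (i + 1), (if l < k then a l else if l = k then 1 else b l) =
        (∑ k ∈ range i, |a k - b k| *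
        ∏ l ∈ range i, (if l < k then a l else if l = k then 1 else b l)) * b i := by
      rw [sum_mul]
      refine sum_congr rfl fun k hk => ?_
      have := mem_range.1 hk
      rw [prod_range_succ, if_neg (by omega), if_neg (by omega), mul_assoc]
    rw [e1, e2]
    have hp : 0 ≤ ∏ l ∈ range i, a l := prod_nonneg fun l _ => ha l
    calc _ = |(∏ l ∈ range i, a l - ∏ l ∈ range i, b l) * b i
          + (a i - b i) * ∏ l ∈ range i, a l| := by ring_nf
      _ ≤ _ := by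
        refine (abs_add_le _ _).trans ?_
        rw [abs_mul, abs_mul, abs_of_nonneg (hb i), abs_of_nonneg hp]
        gcongr; exact hb i

lemma Phi_shift_le (m : ℕ → ℕ) (ϑ : ℕ → ℝ) (i : ℕ) (s h : ℤ) :
    |Phi m ϑ 0 i (s + h) - Phi m ϑ 0 i s| ≤ ∑ k ∈ range i, 2 * Real.pi * m k ^ 2 * dZ (h * ϑ k) *
      Phi (Function.update m k 1) ϑ (fun l => if l < k then h * ϑ l else 0) i s := by
  refine (abs_prod_sub_prod_le _ _ (fun _ => Fj_nonneg _ _) (fun _ => Fj_nonneg _ _) i).trans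
    (sum_le_sum fun k _ => ?_)
  have e : ∏ l ∈ range i, (if l < k then Fj (m l) (((s + h : ℤ) : ℝ) * ϑ l + (0 : ℕ → ℝ) l)
      else if l = k then 1 else Fj (m l) ((s : ℝ) * ϑ l + (0 : ℕ → ℝ) l)) =
      Phi (Function.update m k 1) ϑ (fun l => if l < k then h * ϑ l else 0) i s := by
    refine prod_congr rfl fun l _ => ?_
    split_ifs with h1 h2
    · rw [Function.update_of_ne h1.ne]; congr 1; push_cast; simp [add_mul, h1]
    · subst h2; rw [Function.update_self, Fj_one]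
    · rw [Function.update_of_ne h2]; simp [h1]
  rw [e]
  gcongr
  · exact Phi_nonneg _ _ _ _ _
  · have := Fj_lip (m k) (s * ϑ k) (h * ϑ k)
    simpa [add_mul] using this

end Pool.Agent.P.MP_fc4783_an
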