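import Pool.Agent.P.MP_fc4783_an.Fejer1

/-! Quantitative estimates for the Bohr-Fejer means. -/

namespace Pool.Agent.P.MP_fc4783_an

open Filter Topology Finset

/-- Orders of the Fejer kernels. -/
def mm (k : ℕ) : ℕ := 4 ^ (k + 10)

/-- The weight prescribed for the parameters. -/
noncomputable def WW (i : ℕ) : ℝ := 2 ^ i * (i + 2) * 48 * (mm i : ℝ) ^ 2 * MM mm (i + 1)

/-- The frequencies multiplied by three. -/
def th3 (θ : ℕ → ℝ) (k : ℕ) : ℝ := 3 * θ k

lemma mm_pos (k : ℕ) : 0 < mm k := by unfold mm; positivity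

lemma one_le_mm (k : ℕ) : (1 : ℝ) ≤ mm k := by exact_mod_cast mm_pos k

lemma mm_mono {k i : ℕ} (h : k ≤ i) : (mm k : ℝ) ≤ mm i := by
  exact_mod_cast Nat.pow_le_pow_right (by norm_num) (by omega)

lemma one_le_MM (i : ℕ) : 1 ≤ MM mm i := by
  induction i with
  | zero => simp [MM]
  | succ i ih => exact ih.trans (MM_le_succ mm mm_pos i)

lemma MM_le_MM {m : ℕ → ℕ} (hle : ∀ k, m k ≤ mm k) (i : ℕ) : MM m i ≤ MM mm i :=
  prod_le_prod (fun _ _ => by positivity) fun k _ => by exact_mod_cast hle k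

lemma WW_ge (i : ℕ) (a b c d e : ℝ) (hb0 : 0 ≤ b) (hc0 : 0 ≤ c) (hd0 : 0 ≤ d) (he0 : 0 ≤ e)
    (ha : a ≤ 2 ^ i) (hb : b ≤ i + 2) (hc : c ≤ 48) (hd : d ≤ (mm i : ℝ) ^ 2)
    (he : e ≤ MM mm (i + 1)) : a * b * c * d * e ≤ WW i := by
  unfold WW; gcongr

lemma one_le_mm_sq (i : ℕ) : (1 : ℝ) ≤ (mm i : ℝ) ^ 2 := one_le_pow₀ (one_le_mm i)

lemma mm_le_sq (i : ℕ) : (mm i : ℝ) ≤ (mm i : ℝ) ^ 2 := by nlinarith [one_le_mm i]

lemma one_le_add_two (i : ℕ) : (1 : ℝ) ≤ i + 2 := by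
  have : (0 : ℝ) ≤ i := by positivity
  linarith

lemma one_le_WW (i : ℕ) : 1 ≤ WW i := by
  simpa using WW_ge i 1 1 1 1 1 zero_le_one zero_le_one zero_le_one zero_le_one
    (one_le_pow₀ one_le_two) (one_le_add_two i) (by norm_num) (one_le_mm_sq i) (one_le_MM _)

lemma WW_pos (i : ℕ) : 0 < WW i := lt_of_lt_of_le one_pos (one_le_WW i)

lemma MM_div_WW (i : ℕ) : MM mm (i + 1) / WW i ≤ (1 / 2) ^ i := by
  rw [div_le_iff₀ (WW_pos i), one_div, inv_pow, ← div_eq_inv_mul, le_div_iff₀ (by positivity)]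
  have := WW_ge i (2 ^ i) 1 1 1 (MM mm (i + 1)) zero_le_one zero_le_one zero_le_one
    (MM_nonneg _ _) le_rfl (one_le_add_two i) (by norm_num) (one_le_mm_sq i) le_rfl
  linarith

lemma sq_div_WW (i : ℕ) : 48 * (mm i : ℝ) ^ 2 / WW i ≤ (1 / 2) ^ i := by
  rw [div_le_iff₀ (WW_pos i), one_div, inv_pow, ← div_eq_inv_mul, le_div_iff₀ (by positivity)]
  have := WW_ge i (2 ^ i) 1 48 ((mm i : ℝ) ^ 2) 1 zero_le_one (by norm_num) (by positivity)
    zero_le_one le_rfl (one_le_add_two i) le_rfl le_rfl (one_le_MM _)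
  linarith

lemma mul_mm_le_WW {i k : ℕ} (hk : k ≤ i) (C : ℝ) (hC0 : 0 ≤ C) (hC : C ≤ i + 2) :
    C * mm k ≤ WW i := by
  simpa using WW_ge i 1 C 1 (mm k) 1 hC0 zero_le_one (by positivity) zero_le_one
    (one_le_pow₀ one_le_two) hC (by norm_num) ((mm_mono hk).trans (mm_le_sq i)) (one_le_MM _)

section
variable {θ : ℕ → ℝ} {N : ℕ → ℕ} {η : ℕ → ℝ} (hD : Data WW θ N η)
include hD

lemma Data.η_le_one (i : ℕ) : η i ≤ 1 :=
  (hD.η_le i).trans (by rw [div_le_one (by positivity)]; simp)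

lemma Data.WW_le_N (i : ℕ) : WW i ≤ N i :=
  (hD.big i).trans (mul_le_of_le_one_right (by positivity) (hD.η_le_one i))

lemma Data.N_pos (i : ℕ) : 0 < N i := by
  have := (WW_pos i).trans_le (hD.WW_le_N i)
  exact_mod_cast this

lemma Data.one_le_N (i : ℕ) : (1 : ℝ) ≤ N i := by exact_mod_cast hD.N_pos i

lemma Data.N_mul_θ (i : ℕ) : N i * |θ i| ≤ η i / WW i := by
  rw [le_div_iff₀ (WW_pos i)]; linarith [hD.small i]

lemma Data.θ_le (i : ℕ) : |θ i| ≤ η i / WW i :=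
  (le_mul_of_one_le_left (abs_nonneg _) (hD.one_le_N i)).trans (hD.N_mul_θ i)

lemma Data.TN_small (i : ℕ) (x : ℝ) (hx : η i ≤ dZ x) : TN (N i) x ≤ 1 / WW i := by
  refine (TN_le _ (hD.N_pos i) x _ (hD.η_pos i) hx).trans ?_
  refine one_div_le_one_div_of_le (WW_pos i) ?_
  nlinarith [hD.big i, one_le_WW i]

variable {m : ℕ → ℕ} (hm : ∀ k, 0 < m k) (hle : ∀ k, m k ≤ mm k)
include hle

lemma Data.res_unique (i : ℕ) (x : ℝ) (w w' : ℕ → ℤ) (hw : ∀ k < i, |w k| < m k)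
    (hw' : ∀ k < i, |w' k| < m k) (h1 : dZ (x + ∑ k ∈ range i, w k * th3 θ k) ≤ η i)
    (h2 : dZ (x + ∑ k ∈ range i, w' k * th3 θ k) ≤ η i) : ∀ k < i, w k = w' k := by
  intro k hk
  refine sub_eq_zero.1 (hD.sep i (fun k => w k - w' k) (fun k hk => ?_) ?_ k hk)
  · have a1 : |(w k : ℝ)| ≤ mm k := by exact_mod_cast (hw k hk).le.trans (by exact_mod_cast hle k)
    have a2 : |(w' k : ℝ)| ≤ mm k := by
      exact_mod_cast (hw' k hk).le.trans (by exact_mod_cast hle k)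
    have a3 := mul_mm_le_WW hk.le 2 zero_le_two (by simp)
    push_cast
    linarith [abs_sub (w k : ℝ) (w' k)]
  · have e : ∑ k ∈ range i, ((w k - w' k : ℤ) : ℝ) * (3 * θ k) =
        (x + ∑ k ∈ range i, w k * th3 θ k) - (x + ∑ k ∈ range i, w' k * th3 θ k) := by
      simp only [th3]; push_cast; simp only [sub_mul, sum_sub_distrib]; ring
    rw [e]
    linarith [dZ_sub_le (x + ∑ k ∈ range i, w k * th3 θ k) (x + ∑ k ∈ range i, w' k * th3 θ k),
      hD.η_pos i]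

include hm

omit hle in
lemma Data.one_le_Z (i : ℕ) : 1 ≤ Bop m (th3 θ) (TN (N i)) i 0 := by
  simpa [TN_zero _ (hD.N_pos i)] using le_Bop m (th3 θ) hm (TN (N i)) (TN_nonneg _) i 0

lemma Data.Z_le (i : ℕ) : Bop m (th3 θ) (TN (N i)) i 0 ≤ 1 + (1 / 2) ^ i / mm i := by
  refine (Bop_at_zero m (th3 θ) hm _ (TN_le_one _ _) (1 / WW i) (by have := WW_pos i; positivity)
    i fun w hw ⟨k, hk, hk'⟩ => hD.TN_small i _ ?_).trans ?_
  · by_contra hc
    refine hk' (hD.res_unique hle i 0 w 0 hw (fun k _ => by simpa using hm k) ?_ ?_ k hk)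
    · rw [zero_add]; exact (not_le.1 hc).le
    · simpa using (hD.η_pos i).le
  · have h1 := one_le_mm i
    have h2 := WW_ge i (2 ^ i) i 1 (mm i) (MM m i) (by positivity) zero_le_one (by positivity)
      (MM_nonneg _ _) le_rfl (by simp) (by norm_num) (mm_le_sq i)
      ((MM_le_MM hle i).trans (MM_le_succ mm mm_pos i))
    rw [add_le_add_iff_left, mul_one_div, div_le_div_iff₀ (WW_pos i) (by positivity), one_div,
      inv_pow, ← div_eq_inv_mul, le_div_iff₀ (by positivity)]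
    linarith

lemma Data.Z_le_two (i : ℕ) : Bop m (th3 θ) (TN (N i)) i 0 ≤ 2 := by
  refine (hD.Z_le hm hle i).trans ?_
  have : (1 / 2 : ℝ) ^ i / mm i ≤ 1 :=
    (div_le_one (by have := one_le_mm i; positivity)).2
      ((pow_le_one₀ (by norm_num) (by norm_num)).trans (one_le_mm i))
  linarith

lemma Data.Z_tendsto : Tendsto (fun i => Bop m (th3 θ) (TN (N i)) i 0) atTop (𝓝 1) := by
  have h : Tendsto (fun i : ℕ => 1 + (1 / 2 : ℝ) ^ i) atTop (𝓝 (1 + 0)) :=
    tendsto_const_nhds.add (tendsto_pow_atTop_nhds_zero_of_lt_one (by norm_num) (by norm_num))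
  rw [add_zero] at h
  refine tendsto_of_tendsto_of_tendsto_of_le_of_le tendsto_const_nhds h (hD.one_le_Z hm)
    fun i => (hD.Z_le hm hle i).trans ?_
  exact add_le_add_right (div_le_self (by positivity) (one_le_mm i)) 1

lemma Data.U_succ_le (i : ℕ) (x : ℝ) : Bop m (th3 θ) (TN (N (i + 1))) (i + 1) x ≤
    Bop m (th3 θ) (TN (N i)) i x + 28 * (1 / 2) ^ i := by
  have hW := WW_pos i
  have hW' := WW_pos (i + 1)
  have hM := MM_nonneg m i
  have hη := hD.η_pos (i + 1)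
  set e : ℝ := 1 / WW (i + 1) + 2 * Real.pi * N i * (η (i + 1) + m i * |th3 θ i|) with he
  have he0 : 0 ≤ e := by positivity
  obtain ⟨D₀, hD₀⟩ : ∃ D₀ : ℤ, ∀ D : ℤ, |D| < m i → D ≠ D₀ → ∀ w : ℕ → ℤ,
      (∀ k < i, |w k| < m k) →
      η (i + 1) ≤ dZ (x + D * th3 θ i + ∑ k ∈ range i, w k * th3 θ k) := by
    by_cases hex : ∃ (D : ℤ) (w : ℕ → ℤ), |D| < m i ∧ (∀ k < i, |w k| < m k) ∧
        dZ (x + D * th3 θ i + ∑ k ∈ range i, w k * th3 θ k) < η (i + 1)
    · obtain ⟨D₀, w₀, a1, a2, a3⟩ := hex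
      refine ⟨D₀, fun D hD' hne w hw => ?_⟩
      by_contra hc
      have := hD.res_unique hle (i + 1) x _ _ (box_update m hw hD') (box_update m a2 a1)
        (by rw [sum_update_succ, ← add_assoc]; exact (not_le.1 hc).le)
        (by rw [sum_update_succ, ← add_assoc]; exact a3.le) i (by omega)
      simp only [Function.update_self] at this
      exact hne this
    · push Not at hex
      exact ⟨0, fun D hD' _ w hw => hex D w hD' hw⟩
  have key := step_unique (m i) (hm i)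
    (fun D => Bop m (th3 θ) (TN (N (i + 1))) i (x + D * th3 θ i)) (MM m i * (1 / WW (i + 1)))
    (Bop m (th3 θ) (TN (N i)) i x + MM m i * e) (by positivity)
    (add_nonneg (Bop_nonneg _ _ _ (TN_nonneg _) _ _) (by positivity)) D₀
    (fun D h1 h2 => Bop_le m _ hm _ _ i _ fun w hw => hD.TN_small _ _ (hD₀ D h1 h2 w hw))
    (fun h1 => Bop_mono m _ hm _ _ e i _ _ fun w _ => by
      set y := x + ∑ k ∈ range i, w k * th3 θ k with hy
      rw [show x + D₀ * th3 θ i + ∑ k ∈ range i, w k * th3 θ k = y + D₀ * th3 θ i by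
        rw [hy]; ring]
      have p1 : 0 ≤ 2 * Real.pi * N i * (η (i + 1) + m i * |th3 θ i|) := by positivity
      have p2 : 0 ≤ 1 / WW (i + 1) := by positivity
      by_cases hc : η (i + 1) ≤ dZ (y + D₀ * th3 θ i)
      · linarith [hD.TN_small _ _ hc, TN_nonneg (N i) y]
      · have a1 := dZ_sub_le (y + D₀ * th3 θ i) (D₀ * th3 θ i)
        rw [add_sub_cancel_right] at a1
        have a2 : dZ (D₀ * th3 θ i) ≤ m i * |th3 θ i| := by
          refine (dZ_le_abs _).trans ?_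
          rw [abs_mul]; gcongr; exact_mod_cast h1.le
        have a3 : 2 * Real.pi * N i * dZ y
            ≤ 2 * Real.pi * N i * (η (i + 1) + m i * |th3 θ i|) := by
          gcongr; linarith [not_le.1 hc]
        linarith [le_TN (N i) (hD.N_pos i) y, TN_le_one (N (i + 1)) (y + D₀ * th3 θ i)])
  rw [Bop]
  push_cast at key
  refine key.trans ?_
  have b0 : MM m i ≤ MM mm (i + 1) := (MM_le_MM hle i).trans (MM_le_succ mm mm_pos i)
  have b0' : MM m i * m i ≤ MM mm (i + 1) := by rw [← MM_succ]; exact MM_le_MM hle _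
  have b00 : MM mm (i + 1) / WW (i + 1) ≤ (1 / 2) ^ i := by
    refine le_trans ?_ ((MM_div_WW (i + 1)).trans ?_)
    · gcongr; exact MM_le_succ mm mm_pos _
    · exact pow_le_pow_of_le_one (by norm_num) (by norm_num) (by omega)
  have b1 : MM m i * (1 / WW (i + 1)) ≤ (1 / 2) ^ i := by
    rw [mul_one_div]; refine le_trans ?_ b00; gcongr
  have b2 : m i * (MM m i * (1 / WW (i + 1))) ≤ (1 / 2) ^ i := by
    rw [← mul_assoc, mul_comm _ (MM m i), mul_one_div]; refine le_trans ?_ b00; gcongr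
  have b3 : MM m i * (N i * η (i + 1)) ≤ (1 / 2) ^ i := by
    refine le_trans ?_ (MM_div_WW i)
    rw [div_eq_mul_one_div]; gcongr
    · exact MM_nonneg _ _
    · rw [le_div_iff₀ hW]; linarith [hD.next i]
  have b4 : MM m i * m i * (N i * |θ i|) ≤ (1 / 2) ^ i := by
    refine le_trans ?_ (MM_div_WW i)
    rw [div_eq_mul_one_div]; gcongr
    · exact MM_nonneg _ _
    · refine (hD.N_mul_θ i).trans ?_; gcongr; exact hD.η_le_one i
  have b5 : |th3 θ i| = 3 * |θ i| := by rw [th3, abs_mul]; norm_num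
  have b6 : MM m i * e = MM m i * (1 / WW (i + 1)) + 2 * Real.pi * (MM m i * (N i * η (i + 1))
      + 3 * (MM m i * m i * (N i * |θ i|))) := by rw [he, b5]; ring
  have b7 : 2 * Real.pi * (MM m i * (N i * η (i + 1)) + 3 * (MM m i * m i * (N i * |θ i|)))
      ≤ 2 * 3.15 * ((1 / 2) ^ i + 3 * (1 / 2) ^ i) := by
    gcongr; exact Real.pi_lt_d2.le
  have : (0 : ℝ) ≤ (1 / 2) ^ i := by positivity
  linarith

lemma Data.U_tendsto (x : ℝ) :
    ∃ l : ℝ, Tendsto (fun i => Bop m (th3 θ) (TN (N i)) i x) atTop (𝓝 l) := by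
  have hanti : Antitone fun i => Bop m (th3 θ) (TN (N i)) i x + 56 * (1 / 2 : ℝ) ^ i :=
    antitone_nat_of_succ_le fun i => by
      have := hD.U_succ_le hm hle i x
      rw [pow_succ]; linarith
  have hb : BddBelow (Set.range fun i => Bop m (th3 θ) (TN (N i)) i x + 56 * (1 / 2 : ℝ) ^ i) :=
    ⟨0, by
      rintro _ ⟨i, rfl⟩
      exact add_nonneg (Bop_nonneg _ _ _ (TN_nonneg _) _ _) (by positivity)⟩
  have h1 := tendsto_atTop_ciInf hanti hb
  have h2 : Tendsto (fun i : ℕ => 56 * (1 / 2 : ℝ) ^ i) atTop (𝓝 (56 * 0)) :=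
    (tendsto_pow_atTop_nhds_zero_of_lt_one (by norm_num) (by norm_num)).const_mul 56
  exact ⟨_, by simpa using h1.sub h2⟩

lemma Data.res_of_pos (x l : ℝ) (hl : l ≠ 0)
    (h : Tendsto (fun i => Bop m (th3 θ) (TN (N i)) i x) atTop (𝓝 l)) :
    ∀ᶠ i in atTop, ∃ w : ℕ → ℤ, (∀ k < i, |w k| < m k) ∧
      dZ (x + ∑ k ∈ range i, w k * th3 θ k) ≤ η i := by
  have hl0 : 0 < l := lt_of_le_of_ne
    (ge_of_tendsto' h fun i => Bop_nonneg _ _ _ (TN_nonneg _) _ _) hl.symm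
  have h2 : Tendsto (fun i : ℕ => (1 / 2 : ℝ) ^ i) atTop (𝓝 0) :=
    tendsto_pow_atTop_nhds_zero_of_lt_one (by norm_num) (by norm_num)
  filter_upwards [h2.eventually_lt h hl0] with i hi
  by_contra hc
  push Not at hc
  have := Bop_le m (th3 θ) hm (TN (N i)) (1 / WW i) i x fun w hw => hD.TN_small _ _ (hc w hw).le
  have b : MM m i * (1 / WW i) ≤ (1 / 2) ^ i := by
    rw [mul_one_div]; refine le_trans ?_ (MM_div_WW i)
    have := WW_pos i
    gcongr; exact (MM_le_MM hle i).trans (MM_le_succ mm mm_pos i)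
  linarith

lemma Data.shift (i : ℕ) (h : ℤ) (ψ : ℤ → ℂ) (hψ : ∀ s, ‖ψ s‖ ≤ 1) :
    ‖(tent (N i) (hD.N_pos i)).avg (fun s => Phi m (th3 θ) 0 i s * ψ (s + h)) -
      (tent (N i) (hD.N_pos i)).avg (fun s => Phi m (th3 θ) 0 i s * ψ s)‖ ≤
      ∑ k ∈ range i, 16 * (mm k : ℝ) ^ 2 * dZ (h * th3 θ k) + 2 * |(h : ℝ)| * (1 / 2) ^ i := by
  set μ := tent (N i) (hD.N_pos i) with hμ
  have h1 : ‖μ.avg (fun s => Phi m (th3 θ) 0 i s * ψ (s + h)) -
      μ.avg (fun s => Phi m (th3 θ) 0 i (s + h) * ψ (s + h))‖ ≤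
      ∑ k ∈ range i, 16 * (mm k : ℝ) ^ 2 * dZ (h * th3 θ k) := by
    rw [← Mean.avg_sub]
    refine (μ.norm_avg_le_avgR (g := fun s => ∑ k ∈ range i,
      2 * Real.pi * m k ^ 2 * dZ (h * th3 θ k) * Phi (Function.update m k 1) (th3 θ)
        (fun l => if l < k then h * th3 θ l else 0) i s) fun s => ?_).trans ?_
    · rw [← sub_mul, norm_mul, ← Complex.ofReal_sub, Complex.norm_real, Real.norm_eq_abs,
        abs_sub_comm]
      exact (mul_le_of_le_one_right (abs_nonneg _) (hψ _)).trans (Phi_shift_le _ _ _ _ _)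
    · rw [Mean.avgR_sum]
      refine sum_le_sum fun k _ => ?_
      rw [Mean.avgR_const_mul]
      have a1 : μ.avgR (Phi (Function.update m k 1) (th3 θ)
          (fun l => if l < k then h * th3 θ l else 0) i) ≤ 2 := by
        refine (tent_avgR_Phi_le _ _ _ _ _ _).trans (hD.Z_le_two (fun l => ?_) (fun l => ?_) i)
        · by_cases hl : l = k
          · subst hl; simp
          · rw [Function.update_of_ne hl]; exact hm l
        · by_cases hl : l = k
          · subst hl; rw [Function.update_self]; exact mm_pos l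
          · rw [Function.update_of_ne hl]; exact hle l
      have a2 := dZ_nonneg (h * th3 θ k)
      have a3 : (m k : ℝ) ≤ mm k := by exact_mod_cast hle k
      calc _ ≤ 2 * 4 * (mm k : ℝ) ^ 2 * dZ (h * th3 θ k) * 2 := by
            gcongr
            · exact Mean.avgR_nonneg _ (Phi_nonneg _ _ _ _)
            · exact Real.pi_le_four
        _ = _ := by ring
  have h2 := tent_shift (N i) (hD.N_pos i) (fun s => Phi m (th3 θ) 0 i s * ψ s) (MM m i)
    (fun s => by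
      rw [norm_mul, Complex.norm_real, Real.norm_of_nonneg (Phi_nonneg _ _ _ _ _)]
      exact (mul_le_of_le_one_right (Phi_nonneg _ _ _ _ _) (hψ _)).trans (Phi_le _ _ _ _ _)) h
  have h3 : 2 * |(h : ℝ)| * MM m i / N i ≤ 2 * |(h : ℝ)| * (1 / 2) ^ i := by
    rw [mul_div_assoc]; gcongr
    refine le_trans ?_ (MM_div_WW i)
    have := WW_pos i
    gcongr
    · exact MM_nonneg _ _
    · exact (MM_le_MM hle i).trans (MM_le_succ mm mm_pos i)
    · exact hD.WW_le_N i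
  exact (norm_sub_le_norm_sub_add_norm_sub _ _ _).trans (add_le_add h1 (h2.trans h3))

end

end Pool.Agent.P.MP_fc4783_an
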