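import Pool.Agent.P.MP_fc4783_an.Fejer2

/-! Structure of the frequencies seen by the Bohr-Fejer means. -/

namespace Pool.Agent.P.MP_fc4783_an

open Filter Topology Finset

lemma continuous_dZ : Continuous dZ := by
  refine (LipschitzWith.of_dist_le' (K := 1) fun x y => ?_).continuous
  rw [Real.dist_eq, Real.dist_eq, one_mul, abs_le]
  have h1 := dZ_add_le y (x - y)
  have h2 := dZ_add_le x (y - x)
  rw [add_sub_cancel] at h1 h2
  have h3 := dZ_le_abs (x - y)
  have h4 := dZ_le_abs (y - x)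
  rw [abs_sub_comm] at h4
  constructor <;> linarith

lemma dZ_three_mul (x : ℝ) : dZ (3 * x) ≤ 3 * dZ x := by
  simpa using dZ_int_mul_le 3 x

lemma mm_div_WW (i : ℕ) : (mm i : ℝ) / WW i ≤ (1 / 2) ^ i := by
  refine le_trans ?_ (sq_div_WW i)
  have := WW_pos i
  gcongr
  nlinarith [mm_le_sq i, one_le_mm i]

lemma summable_half : Summable fun k : ℕ => (1 / 2 : ℝ) ^ k := summable_geometric_two

/-- Size of a shift measured by the frequencies `θ`. -/
noncomputable def nn (θ : ℕ → ℝ) (h : ℤ) : ℝ := ∑' k, 48 * (mm k : ℝ) ^ 2 * dZ (h * θ k)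

/-- Size of a shift measured by the frequencies `3 θ`. -/
noncomputable def nn' (θ : ℕ → ℝ) (h : ℤ) : ℝ := ∑' k, 16 * (mm k : ℝ) ^ 2 * dZ (h * th3 θ k)

lemma term_le (θ : ℕ → ℝ) (h : ℤ) (k : ℕ) : 16 * (mm k : ℝ) ^ 2 * dZ (h * th3 θ k) ≤
    48 * (mm k : ℝ) ^ 2 * dZ (h * θ k) := by
  have := dZ_three_mul (h * θ k)
  rw [th3, show (h : ℝ) * (3 * θ k) = 3 * (h * θ k) by ring]
  nlinarith [sq_nonneg (mm k : ℝ)]

section
variable {θ : ℕ → ℝ} {N : ℕ → ℕ} {η : ℕ → ℝ} (hD : Data WW θ N η)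
include hD

lemma Data.summable_nn (h : ℤ) : Summable fun k => 48 * (mm k : ℝ) ^ 2 * dZ (h * θ k) := by
  refine Summable.of_nonneg_of_le (fun k => mul_nonneg (by positivity) (dZ_nonneg _))
    (fun k => ?_) (summable_half.mul_left |(h : ℝ)|)
  have h1 : dZ (h * θ k) ≤ |(h : ℝ)| * (1 / WW k) := by
    refine (dZ_le_abs _).trans ?_
    rw [abs_mul]; gcongr
    refine (hD.θ_le k).trans ?_
    have := WW_pos k
    gcongr; exact hD.η_le_one k
  calc _ ≤ 48 * (mm k : ℝ) ^ 2 * (|(h : ℝ)| * (1 / WW k)) := by gcongr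
    _ = |(h : ℝ)| * (48 * (mm k : ℝ) ^ 2 / WW k) := by ring
    _ ≤ _ := by gcongr; exact sq_div_WW k

lemma Data.summable_nn' (h : ℤ) : Summable fun k => 16 * (mm k : ℝ) ^ 2 * dZ (h * th3 θ k) :=
  Summable.of_nonneg_of_le (fun _ => mul_nonneg (by positivity) (dZ_nonneg _))
    (term_le θ h) (hD.summable_nn h)

lemma Data.nn'_le (h : ℤ) : nn' θ h ≤ nn θ h :=
  (hD.summable_nn' h).tsum_le_tsum (term_le θ h) (hD.summable_nn h)

lemma Data.sum_le_nn (h : ℤ) (I : ℕ) :
    ∑ k ∈ range I, 48 * (mm k : ℝ) ^ 2 * dZ (h * θ k) ≤ nn θ h :=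
  (hD.summable_nn h).sum_le_tsum _ fun _ _ => mul_nonneg (by positivity) (dZ_nonneg _)

lemma Data.sum_le_nn' (h : ℤ) (I : ℕ) :
    ∑ k ∈ range I, 16 * (mm k : ℝ) ^ 2 * dZ (h * th3 θ k) ≤ nn' θ h :=
  (hD.summable_nn' h).sum_le_tsum _ fun _ _ => mul_nonneg (by positivity) (dZ_nonneg _)

lemma Data.nn_sub (h h' : ℤ) : nn θ (h - h') ≤ nn θ h + nn θ h' := by
  unfold nn
  rw [← (hD.summable_nn h).tsum_add (hD.summable_nn h')]
  refine (hD.summable_nn _).tsum_le_tsum (fun k => ?_) ((hD.summable_nn h).add (hD.summable_nn h'))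
  rw [← mul_add]; gcongr
  push_cast; rw [sub_mul]; exact dZ_sub_le _ _

/-- Typed shifts. -/
lemma Data.typed (k : ℕ) (ε : ℝ) (hε : 0 < ε) : ∃ h : ℤ, nn' θ h ≤ ε ∧ nn θ (3 * h) ≤ ε ∧
    ∀ l, dd (h * θ l) = if l = k then 1 else 0 := by
  obtain ⟨h, hh⟩ := hD.kron k (min (ε / 6) (1 / 10)) (by positivity)
  have h3 : ∀ l, dZ (3 * (h * θ l)) ≤ 3 * (ε / 6 / WW l) := by
    intro l
    have a1 := dZ_three_mul (h * θ l - if l = k then 1 / 3 else 0)
    have a2 : dZ (3 * (h * θ l - if l = k then 1 / 3 else 0)) = dZ (3 * (h * θ l)) := by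
      split_ifs
      · rw [← dZ_add_int _ 1]; congr 1; push_cast; ring
      · simp
    have a3 : dZ (h * θ l - if l = k then 1 / 3 else 0) ≤ ε / 6 / WW l := by
      rw [le_div_iff₀ (WW_pos l), mul_comm]; exact (hh l).trans (min_le_left _ _)
    linarith
  have h4 : ∀ l, 48 * (mm l : ℝ) ^ 2 * dZ (3 * (h * θ l)) ≤ ε / 2 * (1 / 2) ^ l := by
    intro l
    calc _ ≤ 48 * (mm l : ℝ) ^ 2 * (3 * (ε / 6 / WW l)) := by gcongr; exact h3 l
      _ = ε / 2 * (48 * (mm l : ℝ) ^ 2 / WW l) := by ring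
      _ ≤ _ := by gcongr; exact sq_div_WW l
  have h5 : ∑' l : ℕ, ε / 2 * (1 / 2 : ℝ) ^ l = ε := by
    rw [tsum_mul_left, tsum_geometric_two]; ring
  refine ⟨h, ?_, ?_, fun l => ?_⟩
  · rw [← h5]
    refine (hD.summable_nn' h).tsum_le_tsum (fun l => le_trans ?_ (h4 l))
      (summable_half.mul_left _)
    rw [th3, show (h : ℝ) * (3 * θ l) = 3 * (h * θ l) by ring]
    have := dZ_nonneg (3 * (h * θ l))
    gcongr; norm_num
  · rw [← h5]
    refine (hD.summable_nn _).tsum_le_tsum (fun l => le_trans (le_of_eq ?_) (h4 l))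
      (summable_half.mul_left _)
    push_cast; rw [mul_assoc 3]
  · have a3 : dZ (h * θ l - if l = k then 1 / 3 else 0) ≤ 1 / 10 := by
      have := (hh l).trans (min_le_right _ _)
      nlinarith [one_le_WW l, dZ_nonneg (h * θ l - if l = k then 1 / 3 else 0)]
    unfold dZ at a3
    set z := round (h * θ l - if l = k then 1 / 3 else 0) with hz
    have a4 := abs_le.1 a3
    have a5 : round (3 * (h * θ l)) = 3 * z + if l = k then 1 else 0 := by
      rw [round_eq, Int.floor_eq_iff]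
      split_ifs at a4 ⊢ <;> push_cast <;> constructor <;> linarith [a4.1, a4.2]
    unfold dd
    rw [a5]
    have : (3 : ZMod 3) = 0 := rfl
    split_ifs <;> push_cast <;> simp [this]

lemma Data.inf_nn (ε : ℝ) (hε : 0 < ε) : {h | nn θ h ≤ ε}.Infinite := by
  choose h _ h2 h3 using fun k => hD.typed k ε hε
  refine Set.infinite_of_injective_forall_mem (f := fun k => 3 * h k) (fun a b hab => ?_) h2
  have e : h a = h b := by simpa using hab
  by_contra hne
  have a1 := h3 a a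
  have a2 := h3 b a
  rw [e, a2] at a1
  simp [hne] at a1

lemma Data.term_bound (C : ℝ) (w : ℕ → ℤ) (hw : ∀ k, |(w k : ℝ)| ≤ C * mm k) (k : ℕ) :
    |w k * th3 θ k| ≤ 3 * C * η k * (1 / 2) ^ k := by
  have hC : 0 ≤ C := by
    have := (abs_nonneg _).trans (hw 0)
    nlinarith [one_le_mm 0]
  have := hD.η_pos k
  rw [abs_mul, th3, abs_mul, show |(3 : ℝ)| = 3 by norm_num]
  calc _ ≤ C * mm k * (3 * (η k / WW k)) := by gcongr; exacts [hw k, hD.θ_le k]
    _ = 3 * C * η k * (mm k / WW k) := by ring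
    _ ≤ _ := by gcongr; exact mm_div_WW k

lemma Data.term_bound' (C : ℝ) (w : ℕ → ℤ) (hw : ∀ k, |(w k : ℝ)| ≤ C * mm k) (k : ℕ) :
    ‖w k * th3 θ k‖ ≤ 3 * C * (1 / 2) ^ k := by
  have hC : 0 ≤ C := by
    have := (abs_nonneg _).trans (hw 0)
    nlinarith [one_le_mm 0]
  refine (hD.term_bound C w hw k).trans ?_
  rw [mul_right_comm]
  exact mul_le_of_le_one_right (by positivity) (hD.η_le_one k)

lemma Data.summable_box (C : ℝ) (w : ℕ → ℤ) (hw : ∀ k, |(w k : ℝ)| ≤ C * mm k) :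
    Summable fun k => w k * th3 θ k :=
  Summable.of_norm_bounded (summable_half.mul_left _) (hD.term_bound' C w hw)

lemma Data.unique (C : ℝ) (w : ℕ → ℤ) (hw : ∀ k, |(w k : ℝ)| ≤ C * mm k)
    (h0 : ∑' k, w k * th3 θ k = 0) : w = 0 := by
  have hC : 0 ≤ C := by
    have := (abs_nonneg _).trans (hw 0)
    nlinarith [one_le_mm 0]
  ext k
  have h2 : Tendsto (fun i : ℕ => 6 * C * (1 / 2 : ℝ) ^ i) atTop (𝓝 (6 * C * 0)) :=
    (tendsto_pow_atTop_nhds_zero_of_lt_one (by norm_num) (by norm_num)).const_mul _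
  obtain ⟨i, a1, a2, a3⟩ := ((h2.eventually (gt_mem_nhds (show 6 * C * 0 < 4 by simp))).and
    ((eventually_gt_atTop k).and
      ((tendsto_natCast_atTop_atTop (R := ℝ)).eventually_ge_atTop C))).exists
  refine hD.sep i w (fun l hl => (hw l).trans (mul_mm_le_WW hl.le C hC (by linarith))) ?_ k a2
  have e := (hD.summable_box C w hw).sum_add_tsum_nat_add i
  rw [h0] at e
  have e2 : ∑ k ∈ range i, (w k : ℝ) * (3 * θ k) = -∑' l, w (l + i) * th3 θ (l + i) := by
    simp only [th3] at e ⊢; linarith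
  rw [e2, dZ_neg]
  refine (dZ_le_abs _).trans ?_
  have hb : ∀ l, ‖w (l + i) * th3 θ (l + i)‖ ≤ 3 * C * η i * (1 / 2) ^ i * (1 / 2) ^ l := by
    intro l
    refine (hD.term_bound C w hw _).trans ?_
    rw [pow_add, mul_comm ((1 / 2 : ℝ) ^ l), ← mul_assoc]
    gcongr; exact hD.η_anti (by omega)
  have := tsum_of_norm_bounded (summable_half.hasSum.mul_left _) hb
  rw [tsum_geometric_two] at this
  refine this.trans ?_
  nlinarith [hD.η_pos i]

/-- In a finitely generated group of frequencies, expansions are determined by finitely many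
digits. -/
lemma Data.exists_K (A : AddSubgroup ℝ) (hA : A.FG) : ∃ K : ℕ, ∀ (C : ℝ) (w : ℕ → ℤ),
    (∀ k, |(w k : ℝ)| ≤ C * mm k) → ∑' k, w k * th3 θ k ∈ A → (∀ k < K, w k = 0) → w = 0 := by
  let 𝒲 : Submodule ℤ (ℕ → ℤ) :=
    { carrier := {w | (∃ C : ℝ, ∀ k, |(w k : ℝ)| ≤ C * mm k) ∧ ∑' k, w k * th3 θ k ∈ A}
      add_mem' := by
        rintro a b ⟨⟨C, h1⟩, h2⟩ ⟨⟨C', h3⟩, h4⟩
        refine ⟨⟨C + C', fun k => ?_⟩, ?_⟩
        · simp only [Pi.add_apply]; push_cast
          linarith [abs_add_le (a k : ℝ) (b k), h1 k, h3 k]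
        · simp only [Pi.add_apply]; push_cast
          simp only [add_mul]
          rw [(hD.summable_box C a h1).tsum_add (hD.summable_box C' b h3)]
          exact A.add_mem h2 h4
      zero_mem' := ⟨⟨0, by simp⟩, by simp⟩
      smul_mem' := by
        rintro c a ⟨⟨C, h1⟩, h2⟩
        refine ⟨⟨|(c : ℝ)| * C, fun k => ?_⟩, ?_⟩
        · simp only [Pi.smul_apply, smul_eq_mul]; push_cast
          rw [abs_mul, mul_assoc]; gcongr; exact h1 k
        · simp only [Pi.smul_apply, smul_eq_mul]; push_cast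
          simp only [mul_assoc]
          rw [tsum_mul_left, ← zsmul_eq_mul]
          exact A.zsmul_mem h2 c }
  let φ : 𝒲 →ₗ[ℤ] A.toIntSubmodule :=
    { toFun := fun w => ⟨∑' k, w.1 k * th3 θ k, w.2.2⟩
      map_add' := by
        rintro ⟨a, ⟨C, h1⟩, h2⟩ ⟨b, ⟨C', h3⟩, h4⟩
        ext
        simp only [Submodule.coe_add, Pi.add_apply]; push_cast
        simp only [add_mul]
        exact (hD.summable_box C a h1).tsum_add (hD.summable_box C' b h3)
      map_smul' := by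
        rintro c ⟨a, ⟨C, h1⟩, h2⟩
        ext
        simp only [Submodule.coe_smul, Pi.smul_apply, smul_eq_mul, RingHom.id_apply]; push_cast
        simp only [mul_assoc]
        rw [tsum_mul_left, zsmul_eq_mul] }
  have hinj : Function.Injective φ := by
    rw [injective_iff_map_eq_zero]
    rintro ⟨a, ⟨C, h1⟩, h2⟩ h
    exact Subtype.ext (hD.unique C a h1 (congrArg Subtype.val h))
  have : Module.Finite ℤ A.toIntSubmodule :=
    Module.Finite.iff_fg.2 ((Submodule.fg_iff_addSubgroup_fg _).2 hA)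
  have : Module.Finite ℤ 𝒲 := Module.Finite.of_injective φ hinj
  let c : ℕ → Module.Dual ℤ 𝒲 := fun k => (LinearMap.proj k).comp 𝒲.subtype
  let P : ℕ →o Submodule ℤ (Module.Dual ℤ 𝒲) :=
    ⟨fun K => Submodule.span ℤ (c '' {k | k < K}), fun a b hab =>
      Submodule.span_mono (Set.image_mono fun k hk => lt_of_lt_of_le hk hab)⟩
  obtain ⟨K, hK⟩ := monotone_stabilizes_iff_noetherian.2 inferInstance P
  refine ⟨K, fun C w h1 h2 h3 => ?_⟩
  ext k
  have hk : c k ∈ P K := by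
    rw [hK (max K (k + 1)) (le_max_left _ _)]
    exact Submodule.subset_span ⟨k, lt_of_lt_of_le (Nat.lt_succ_self k) (le_max_right _ _), rfl⟩
  have : ∀ g ∈ P K, g ⟨w, ⟨C, h1⟩, h2⟩ = 0 := by
    intro g hg
    induction hg using Submodule.span_induction with
    | mem g h => obtain ⟨l, hl, rfl⟩ := h; exact h3 l hl
    | zero => rfl
    | add a b _ _ ha hb => rw [LinearMap.add_apply, ha, hb, add_zero]
    | smul r a _ ha => rw [LinearMap.smul_apply, ha, smul_zero]
  exact this _ hk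

variable {m : ℕ → ℕ} (hm : ∀ k, 0 < m k) (hle : ∀ k, m k ≤ mm k)
include hm hle

omit hD hm in
lemma box_real {w : ℕ → ℤ} (hw : ∀ k, |w k| ≤ m k) (k : ℕ) : |(w k : ℝ)| ≤ 1 * mm k := by
  rw [one_mul]; exact_mod_cast (hw k).trans (by exact_mod_cast hle k)

lemma Data.rep (x l : ℝ) (hl : l ≠ 0)
    (h : Tendsto (fun i => Bop m (th3 θ) (TN (N i)) i x) atTop (𝓝 l)) :
    ∃ (w : ℕ → ℤ) (z : ℤ), (∀ k, |w k| < m k) ∧ x + ∑' k, w k * th3 θ k = z := by
  set B : Set (ℕ → ℤ) := Set.pi Set.univ fun k => Set.Icc (-(m k : ℤ) + 1) (m k - 1) with hB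
  have hBc : IsCompact B := isCompact_univ_pi fun _ => (Set.finite_Icc _ _).isCompact
  have hmem : ∀ w, w ∈ B ↔ ∀ k, |w k| < m k := by
    intro w
    simp only [hB, Set.mem_pi, Set.mem_univ, true_imp_iff, Set.mem_Icc, abs_lt]
    exact forall_congr' fun k => by omega
  have hc : ContinuousOn (fun w : ℕ → ℤ => dZ (x + ∑' k, w k * th3 θ k)) B := by
    refine continuous_dZ.comp_continuousOn (continuousOn_const.add ?_)
    refine continuousOn_tsum (fun k => Continuous.continuousOn (by fun_prop))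
      (summable_half.mul_left (3 * 1)) fun k w hw => ?_
    exact hD.term_bound' 1 w (box_real hle fun k => ((hmem w).1 hw k).le) k
  obtain ⟨w, hw, hmin⟩ := hBc.exists_isMinOn
    ⟨0, (hmem 0).2 fun k => by simpa using hm k⟩ hc
  have h0 : dZ (x + ∑' k, w k * th3 θ k) ≤ 0 := by
    refine ge_of_tendsto tendsto_one_div_add_atTop_nhds_zero_nat ?_
    filter_upwards [hD.res_of_pos hm hle x l hl h] with i ⟨v, hv1, hv2⟩
    have hv' : (fun k => if k < i then v k else 0) ∈ B := (hmem _).2 fun k => by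
      split_ifs with hk
      · exact hv1 k hk
      · simpa using hm k
    refine (hmin hv').trans (le_trans (le_of_eq ?_) (hv2.trans (hD.η_le i)))
    simp only
    rw [tsum_eq_sum (s := range i) fun k hk => by simp [mem_range.not.1 hk]]
    congr 2
    exact sum_congr rfl fun k hk => by rw [if_pos (mem_range.1 hk)]
  obtain ⟨z, hz⟩ := (dZ_eq_zero_iff _).1 (le_antisymm h0 (dZ_nonneg _))
  exact ⟨w, z, (hmem w).1 hw, hz⟩

omit hm in
lemma Data.finite_rep (A : AddSubgroup ℝ) (hA : A.FG) : {x : ℝ | x ∈ A ∧ |x| ≤ 1 ∧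
    ∃ (w : ℕ → ℤ) (z : ℤ), (∀ k, |w k| < m k) ∧ x + ∑' k, w k * th3 θ k = z}.Finite := by
  have hA' : (A ⊔ AddSubgroup.closure {1}).FG :=
    hA.sup ((AddSubgroup.fg_iff _).2 ⟨_, rfl, Set.finite_singleton _⟩)
  obtain ⟨K, hK⟩ := hD.exists_K _ hA'
  set F : Set (ℕ → ℤ) := {w | (∀ k, |w k| < m k) ∧
    ∑' k, w k * th3 θ k ∈ A ⊔ AddSubgroup.closure {1}} with hF
  have hFfin : F.Finite := by
    refine Set.Finite.of_finite_image (f := fun w (k : Fin K) => w k) ?_ ?_
    · refine (Set.Finite.pi' (t := fun k : Fin K => Set.Ioo (-(m k : ℤ)) (m k))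
        fun _ => Set.finite_Ioo _ _).subset ?_
      rintro _ ⟨w, hw, rfl⟩ k
      exact abs_lt.1 (hw.1 k)
    · intro a ha b hb hab
      have a1 := box_real hle fun k => (ha.1 k).le
      have b1 := box_real hle fun k => (hb.1 k).le
      refine sub_eq_zero.1 (hK 2 (a - b) (fun k => ?_) ?_ fun k hk => ?_)
      · simp only [Pi.sub_apply]; push_cast
        linarith [abs_sub (a k : ℝ) (b k), a1 k, b1 k]
      · simp only [Pi.sub_apply]; push_cast
        simp only [sub_mul]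
        rw [(hD.summable_box 1 a a1).tsum_sub (hD.summable_box 1 b b1)]
        exact sub_mem ha.2 hb.2
      · exact sub_eq_zero.2 (congrFun hab ⟨k, hk⟩)
  refine (hFfin.image2 (fun (w : ℕ → ℤ) (z : ℤ) => (z : ℝ) - ∑' k, w k * th3 θ k)
    (Set.finite_Icc (-7 : ℤ) 7)).subset ?_
  rintro x ⟨h1, h2, w, z, h3, h4⟩
  have h4' : (z : ℝ) - ∑' k, w k * th3 θ k = x := by rw [← h4]; ring
  refine Set.mem_image2.2 ⟨w, ⟨h3, ?_⟩, z, ?_, h4'⟩
  · rw [show ∑' k, w k * th3 θ k = z • (1 : ℝ) - x by rw [zsmul_eq_mul]; linarith]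
    have h1' : (1 : ℝ) ∈ AddSubgroup.closure ({1} : Set ℝ) :=
      AddSubgroup.subset_closure (Set.mem_singleton _)
    exact AddSubgroup.sub_mem _ (AddSubgroup.mem_sup_right (AddSubgroup.zsmul_mem _ h1' z))
      (AddSubgroup.mem_sup_left h1)
  · have := tsum_of_norm_bounded (summable_half.hasSum.mul_left _)
      (hD.term_bound' 1 w (box_real hle fun k => (h3 k).le))
    rw [tsum_geometric_two, Real.norm_eq_abs] at this
    have h5 : |(z : ℝ)| ≤ 7 := by
      rw [← h4]; linarith [abs_add_le x (∑' k, w k * th3 θ k)]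
    have h6 : |z| ≤ 7 := by exact_mod_cast h5
    exact abs_le.1 h6

end

end Pool.Agent.P.MP_fc4783_an
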