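import Pool.Agent.P.MP_fc4783_an.Basic

/-!
Riemann integrability and unique ergodicity lemmas for MP_fc4783_an.
-/

namespace Pool.Agent.P.MP_fc4783_an

open Filter Topology Finset MeasureTheory

theorem sandwich {Y : Type} [TopologicalSpace Y] [CompactSpace Y] [T2Space Y]
    [SecondCountableTopology Y] [MeasurableSpace Y] [BorelSpace Y] (m : Measure Y)
    [IsProbabilityMeasure m] (O : Set Y) (F : Y → ℂ) (C : ℝ)
    (hF : ∀ z, ‖F z‖ ≤ C) (hc : ∀ᵐ z ∂m, ContinuousWithinAt F O z) (ε : ℝ) (hε : 0 < ε) :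
    ∃ (g : Y → ℂ) (h : Y → ℝ), Continuous g ∧ Continuous h ∧ (∀ z, 0 ≤ h z) ∧
      (∀ z ∈ O, ‖F z - g z‖ ≤ h z) ∧ ∫ z, h z ∂m ≤ ε := by
  classical
  set D : ℝ := |C| + ε with hD
  have hDpos : 0 < D := by positivity
  -- the open set of points near which `F` is almost constant on `O`
  set V : Set Y := {x | ∃ c : ℂ, ∀ᶠ y in 𝓝 x, y ∈ O → ‖F y - c‖ ≤ ε / 2} with hV
  have hVo : IsOpen V := by
    rw [isOpen_iff_mem_nhds]
    rintro x ⟨c, hx⟩
    exact (hx.eventually_nhds).mono fun y hy => ⟨c, hy⟩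
  have hVc : m Vᶜ = 0 := by
    refine measure_mono_null ?_ (ae_iff.1 hc)
    intro z hz hcz
    apply hz
    refine ⟨F z, ?_⟩
    have h1 : ∀ᶠ y in 𝓝[O] z, dist (F y) (F z) < ε / 2 :=
      Metric.tendsto_nhds.1 hcz (ε / 2) (by positivity)
    rw [eventually_nhdsWithin_iff] at h1
    exact h1.mono fun y hy hO => by
      have := hy hO
      rw [dist_eq_norm] at this
      exact this.le
  obtain ⟨K, hKV, hKc, hKm⟩ := hVo.measurableSet.exists_isClosed_sdiff_lt (μ := m)
    (measure_ne_top _ _) (ε := ENNReal.ofReal (ε / 2 / D))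
    (by simp only [ne_eq, ENNReal.ofReal_eq_zero, not_le]; positivity)
  have hKm' : m.real Kᶜ ≤ ε / 2 / D := by
    have h1 : m Kᶜ ≤ m (V \ K) + m Vᶜ := by
      refine (measure_mono ?_).trans (measure_union_le _ _)
      intro x hx
      by_cases hxV : x ∈ V
      · exact Or.inl ⟨hxV, hx⟩
      · exact Or.inr hxV
    rw [hVc, add_zero] at h1
    have h2 := (h1.trans hKm.le)
    exact ENNReal.toReal_le_of_le_ofReal (by positivity) h2
  let t : Y → Set (ℂ × ℝ) := fun x =>
    {p | 0 ≤ p.2 ∧ p.2 ≤ D ∧ (x ∈ K → p.2 ≤ ε / 2) ∧ (x ∈ O → ‖F x - p.1‖ ≤ p.2)}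
  have ht : ∀ x, Convex ℝ (t x) := by
    intro x p hp q hq a b ha hb hab
    obtain ⟨p1, p2, p3, p4⟩ := hp
    obtain ⟨q1, q2, q3, q4⟩ := hq
    simp only [t, Set.mem_ofPred_eq, Prod.snd_add, Prod.smul_snd, smul_eq_mul, Prod.fst_add,
      Prod.smul_fst]
    refine ⟨by positivity, by nlinarith, fun hx => by nlinarith [p3 hx, q3 hx], fun hx => ?_⟩
    have e : F x - (a • p.1 + b • q.1) = a • (F x - p.1) + b • (F x - q.1) := by
      have : F x = a • F x + b • F x := by rw [← add_smul, hab, one_smul]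
      rw [smul_sub, smul_sub]
      nth_rewrite 1 [this]
      abel
    rw [e]
    refine (norm_add_le _ _).trans ?_
    rw [norm_smul, norm_smul, Real.norm_of_nonneg ha, Real.norm_of_nonneg hb]
    gcongr
    exacts [p4 hx, q4 hx]
  obtain ⟨G, hG⟩ := exists_continuous_forall_mem_convex_of_local_const ht (by
    intro x
    by_cases hx : x ∈ V
    · obtain ⟨c, hcx⟩ := hx
      refine ⟨(c, ε / 2), hcx.mono fun y hy => ⟨by positivity, ?_, fun _ => le_rfl, hy⟩⟩
      have := abs_nonneg C
      simp only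
      linarith
    · have hxK : Kᶜ ∈ 𝓝 x := hKc.isOpen_compl.mem_nhds fun h => hx (hKV h)
      refine ⟨(0, D), Filter.mem_of_superset hxK fun y hy =>
        ⟨hDpos.le, le_rfl, fun h => absurd h hy, fun _ => ?_⟩⟩
      have := le_abs_self C
      have := hF y
      simp only [sub_zero]
      linarith)
  refine ⟨fun x => (G x).1, fun x => (G x).2, by fun_prop, by fun_prop, fun z => (hG z).1,
    fun z hz => (hG z).2.2.2 hz, ?_⟩
  have hle : ∀ z, (G z).2 ≤ ε / 2 + Set.indicator Kᶜ (fun _ => D) z := by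
    intro z
    by_cases hz : z ∈ K
    · have : z ∉ Kᶜ := fun h => h hz
      rw [Set.indicator_of_notMem this, add_zero]
      exact (hG z).2.2.1 hz
    · have : z ∈ Kᶜ := hz
      rw [Set.indicator_of_mem this]
      have := (hG z).2.1
      linarith
  have hint : Integrable (fun z => (G z).2) m :=
    (by fun_prop : Continuous fun z => (G z).2).integrable_of_hasCompactSupport
      (HasCompactSupport.of_compactSpace _)
  have hi2 : Integrable (Set.indicator Kᶜ (fun _ : Y => D)) m :=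
    (integrable_const D).indicator hKc.measurableSet.compl
  calc ∫ z, (G z).2 ∂m ≤ ∫ z, (ε / 2 + Set.indicator Kᶜ (fun _ => D) z) ∂m :=
        integral_mono hint ((integrable_const _).add hi2) hle
    _ = ε / 2 + m.real Kᶜ * D := by
        rw [integral_add (integrable_const _) hi2, integral_indicator_const _
          hKc.measurableSet.compl]
        simp
    _ ≤ ε / 2 + ε / 2 / D * D := by gcongr
    _ = ε := by field_simp; ring

theorem integral_eq_of_uniform {Y : Type} [TopologicalSpace Y] [CompactSpace Y]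
    [MeasurableSpace Y] [BorelSpace Y] (m : Measure Y) [IsProbabilityMeasure m]
    (S : Y → Y) (hS : Continuous S) (hinv : m.map S = m) (o : ℤ → Y)
    (ho : ∀ s, o (s + 1) = S (o s)) (hm : m (closure (Set.range o))ᶜ = 0)
    (h : Y → ℂ) (hh : Continuous h) (l : ℂ)
    (hl : ∀ u : ℕ → ℤ, Tendsto (fun i : ℕ => ((i + 1 : ℕ) : ℂ)⁻¹ *
      ∑ j ∈ range (i + 1), h (o (u i + j))) atTop (𝓝 l)) :
    ∫ z, h z ∂m = l := by
  have hit : ∀ (j : ℕ) (s : ℤ), o (s + j) = S^[j] (o s) := by
    intro j s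
    induction j with
    | zero => simp
    | succ j ih =>
      rw [Function.iterate_succ_apply', ← ih, ← ho]
      congr 1; push_cast; ring
  have hmp : MeasurePreserving S m m := ⟨hS.measurable, hinv⟩
  have hint : ∀ f : Y → ℂ, Continuous f → Integrable f m := fun f hf =>
    (BoundedContinuousFunction.mkOfCompact (⟨f, hf⟩ : C(Y, ℂ))).integrable m
  have hj : ∀ j : ℕ, ∫ z, h (S^[j] z) ∂m = ∫ z, h z ∂m := by
    intro j
    have h1 := (hmp.iterate j).map_eq
    have h2 := integral_map (μ := m) (φ := S^[j]) (hS.iterate j).measurable.aemeasurable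
      (f := h) (by rw [h1]; exact (hint h hh).aestronglyMeasurable)
    rw [← h2, h1]
  set A : ℕ → Y → ℂ := fun i y => ((i + 1 : ℕ) : ℂ)⁻¹ * ∑ j ∈ range (i + 1), h (S^[j] y) with hA
  have hAc : ∀ i, Continuous (A i) := fun i =>
    continuous_const.mul (continuous_finsetSum _ fun j _ => hh.comp (hS.iterate j))
  have hAi : ∀ i, ∫ z, A i z ∂m = ∫ z, h z ∂m := by
    intro i
    simp only [hA]
    rw [integral_const_mul, integral_finsetSum (f := fun j y => h (S^[j] y)) _
      fun j _ => hint _ (hh.comp (hS.iterate j))]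
    simp only [hj, sum_const, card_range, nsmul_eq_mul]
    have : ((i + 1 : ℕ) : ℂ) ≠ 0 := by exact_mod_cast Nat.succ_ne_zero i
    field_simp
  apply eq_of_norm_sub_le_zero
  refine le_of_forall_pos_le_add fun ε hε => ?_
  rw [zero_add]
  obtain ⟨i, hi⟩ : ∃ i, ∀ s, ‖A i (o s) - l‖ ≤ ε := by
    by_contra hcon
    push Not at hcon
    choose u hu using hcon
    have h1 := Metric.tendsto_nhds.1 (hl u) ε hε
    obtain ⟨i, hi⟩ := h1.exists
    have h2 := hu i
    rw [dist_eq_norm] at hi
    simp only [hA, ← hit] at h2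
    exact absurd hi (not_lt.2 h2.le)
  have hcl : ∀ y ∈ closure (Set.range o), ‖A i y - l‖ ≤ ε := by
    have hc : IsClosed {y | ‖A i y - l‖ ≤ ε} :=
      isClosed_le ((hAc i).sub continuous_const).norm continuous_const
    refine closure_minimal ?_ hc
    rintro _ ⟨s, rfl⟩
    exact hi s
  have hae : ∀ᵐ y ∂m, ‖A i y - l‖ ≤ ε := by
    refine measure_mono_null ?_ hm
    intro y hy hy'
    exact hy (hcl y hy')
  have h3 := norm_integral_le_of_norm_le_const hae
  rw [integral_sub (hint _ (hAc i)) (integrable_const _), hAi] at h3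
  simpa using h3

end Pool.Agent.P.MP_fc4783_an
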