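import Pool.Agent.P.MP_fc4783_an.Xi
import Pool.Agent.P.MP_fc4783_an.Riem

/-! The biased means and the convergence of their averages on structured sequences. -/

namespace Pool.Agent.P.MP_fc4783_an

open Filter Topology Finset MeasureTheory

lemma conv_of_approx {u : ℕ → ℂ} (h : ∀ ε : ℝ, 0 < ε → ∃ (v : ℕ → ℂ) (l : ℂ),
    Tendsto v atTop (𝓝 l) ∧ ∀ᶠ i in atTop, ‖u i - v i‖ ≤ ε) : ∃ l, Tendsto u atTop (𝓝 l) := by
  refine cauchySeq_tendsto_of_complete (Metric.cauchySeq_iff.2 fun ε hε => ?_)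
  obtain ⟨v, l, h1, h2⟩ := h (ε / 5) (by positivity)
  have h3 := (Metric.tendsto_nhds.1 h1) (ε / 5) (by positivity)
  obtain ⟨N, hN⟩ := eventually_atTop.1 (h2.and h3)
  refine ⟨N, fun a ha b hb => ?_⟩
  have e : ∀ a, N ≤ a → dist (u a) l ≤ 2 * (ε / 5) := fun a ha => by
    have := dist_triangle (u a) (v a) l
    rw [dist_eq_norm (u a) (v a)] at this
    linarith [(hN a ha).1, (hN a ha).2]
  linarith [dist_triangle_right (u a) (u b) l, e a ha, e b hb]

lemma Str.approx_avg {A : AddSubgroup ℝ} {ψ : ℤ → ℂ} (h : Str A ψ) (ε : ℝ) (hε : 0 < ε) :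
    ∃ φ P : ℤ → ℂ, Null φ ∧ P ∈ TP A ∧ ∀ μ : Mean, ‖μ.avg ψ - (μ.avg φ + μ.avg P)‖ ≤ ε := by
  obtain ⟨φ, P, h1, h2, h3⟩ := h ε hε
  refine ⟨φ, P, h1, h2, fun μ => ?_⟩
  rw [← Mean.avg_add]
  exact μ.norm_avg_sub_le fun s => by simpa only [sub_sub] using h3 s

lemma str_conv {A : AddSubgroup ℝ} (μ : ℕ → Mean)
    (h0 : ∀ φ, Null φ → Tendsto (fun i => (μ i).avg φ) atTop (𝓝 0))
    (h1 : ∀ x ∈ A, ∃ l, Tendsto (fun i => (μ i).avg fun s => ex (x * s)) atTop (𝓝 l))
    {ψ : ℤ → ℂ} (h : Str A ψ) : ∃ l, Tendsto (fun i => (μ i).avg ψ) atTop (𝓝 l) := by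
  have hP : ∀ P ∈ TP A, ∃ l, Tendsto (fun i => (μ i).avg P) atTop (𝓝 l) := by
    intro P hP
    induction hP using Submodule.span_induction with
    | mem ψ h => obtain ⟨x, hx, rfl⟩ := h; exact h1 x hx
    | zero => exact ⟨0, h0 _ Null.zero⟩
    | add φ ψ _ _ a b =>
      obtain ⟨l, a⟩ := a
      obtain ⟨l', b⟩ := b
      exact ⟨l + l', (a.add b).congr fun i => ((μ i).avg_add _ _).symm⟩
    | smul c ψ _ a =>
      obtain ⟨l, a⟩ := a
      exact ⟨c * l, (a.const_mul c).congr fun i => ((μ i).avg_const_mul _ _).symm⟩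
  refine conv_of_approx fun ε hε => ?_
  obtain ⟨φ, P, a1, a2, a3⟩ := h.approx_avg ε hε
  obtain ⟨l, hl⟩ := hP P a2
  exact ⟨_, _, (h0 φ a1).add hl, Eventually.of_forall fun i => a3 _⟩

lemma str_same {A : AddSubgroup ℝ} (μ μ' : ℕ → Mean)
    (h0 : ∀ φ, Null φ → Tendsto (fun i => (μ i).avg φ) atTop (𝓝 0))
    (h0' : ∀ φ, Null φ → Tendsto (fun i => (μ' i).avg φ) atTop (𝓝 0))
    (h1 : ∀ x ∈ A, Tendsto (fun i => (μ i).avg (fun s => ex (x * s)) -
      (μ' i).avg fun s => ex (x * s)) atTop (𝓝 0))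
    {ψ : ℤ → ℂ} (h : Str A ψ) : Tendsto (fun i => (μ i).avg ψ - (μ' i).avg ψ) atTop (𝓝 0) := by
  have hP : ∀ P ∈ TP A, Tendsto (fun i => (μ i).avg P - (μ' i).avg P) atTop (𝓝 0) := by
    intro P hP
    induction hP using Submodule.span_induction with
    | mem ψ h => obtain ⟨x, hx, rfl⟩ := h; exact h1 x hx
    | zero =>
      have := (h0 _ Null.zero).sub (h0' _ Null.zero)
      rwa [sub_zero] at this
    | add φ ψ _ _ a b =>
      have := a.add b
      rw [add_zero] at this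
      refine this.congr fun i => ?_
      have e1 := (μ i).avg_add φ ψ
      have e2 := (μ' i).avg_add φ ψ
      change _ = (μ i).avg (fun s => φ s + ψ s) - (μ' i).avg (fun s => φ s + ψ s)
      rw [e1, e2]; ring
    | smul c ψ _ a =>
      have := a.const_mul c
      rw [mul_zero] at this
      refine this.congr fun i => ?_
      change _ = (μ i).avg (fun s => c * ψ s) - (μ' i).avg (fun s => c * ψ s)
      rw [Mean.avg_const_mul, Mean.avg_const_mul]; ring
  refine tendsto_zero_of_forall 3 fun ε hε => ?_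
  obtain ⟨φ, P, a1, a2, a3⟩ := h.approx_avg ε hε
  have := ((h0 φ a1).sub (h0' φ a1)).add (hP P a2)
  rw [sub_zero, add_zero, NormedAddGroup.tendsto_nhds_zero] at this
  filter_upwards [this ε hε] with i hi
  have e : (μ i).avg ψ - (μ' i).avg ψ = ((μ i).avg ψ - ((μ i).avg φ + (μ i).avg P)) -
      ((μ' i).avg ψ - ((μ' i).avg φ + (μ' i).avg P)) +
      ((μ i).avg φ - (μ' i).avg φ + ((μ i).avg P - (μ' i).avg P)) := by ring
  rw [e]
  refine (norm_add_le _ _).trans ((add_le_add (norm_sub_le _ _) hi.le).trans ?_)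
  linarith [a3 (μ i), a3 (μ' i)]

lemma Adm.null {ν n L} (h : Adm ν n L) (φ : ℤ → ℂ) (hφ : Null φ) :
    Tendsto (fun i => (ν i).avg φ) atTop (𝓝 0) := by
  simpa using hφ ν n L (fun _ _ => 1) h
    ⟨fun _ _ => by simp, fun _ _ a => by simpa using h.nonneg a⟩ 0

/-- The uniform mean on an interval. -/
noncomputable def unif (u : ℤ) (i : ℕ) : Mean where
  S := range (i + 1) ×ˢ {0}
  w := fun _ => ((i + 1 : ℕ) : ℝ)⁻¹
  p := fun j => u + j.1
  nonneg := fun _ => by positivity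
  sum_one := by
    rw [sum_const, card_product, card_range, card_singleton, mul_one, nsmul_eq_mul]
    exact mul_inv_cancel₀ (by positivity)

lemma unif_avg (u : ℤ) (i : ℕ) (ψ : ℤ → ℂ) :
    (unif u i).avg ψ = ((i + 1 : ℕ) : ℂ)⁻¹ * ∑ j ∈ range (i + 1), ψ (u + j) := by
  simp only [Mean.avg, unif, sum_product, sum_singleton, mul_sum]
  exact sum_congr rfl fun j _ => by push_cast; rfl

lemma unif_inv (u : ℕ → ℤ) (h : ℤ) (ε : ℝ) (hε : 0 < ε) : ∀ᶠ i in atTop, ∀ ψ : ℤ → ℂ,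
    (∀ s, ‖ψ s‖ ≤ 1) → ‖(unif (u i) i).avg (fun s => ψ (s + h)) - (unif (u i) i).avg ψ‖ ≤ ε := by
  obtain ⟨R, hR⟩ := exists_nat_gt (2 * |(h : ℝ)| / ε)
  filter_upwards [eventually_ge_atTop R] with i hi ψ hψ
  rw [unif_avg, unif_avg, ← mul_sub, norm_mul, norm_inv, Complex.norm_natCast,
    inv_mul_le_iff₀ (by positivity)]
  have := sum_range_shift_le (i + 1) (fun s => ψ (u i + s)) 1 (fun s => hψ _) h
  simp only [← add_assoc] at this
  refine this.trans ?_
  rw [div_lt_iff₀ hε] at hR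
  have : (R : ℝ) ≤ ((i + 1 : ℕ) : ℝ) := by exact_mod_cast (by omega : R ≤ i + 1)
  nlinarith

open Classical in
lemma unif_adm (u : ℕ → ℤ) : Adm (fun i => unif (u i) i) (fun _ => 0)
    (fun x => if ∃ z : ℤ, x = z then 1 else 0) where
  nonneg := fun _ => le_rfl
  zero := rfl
  sub := fun _ _ => by simp
  inv := fun h ε hε => by simpa only [zero_add] using unif_inv u h ε hε
  inf := fun ε hε => by simpa [hε.le] using Set.infinite_univ
  lim := fun x => by
    split_ifs with hx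
    · obtain ⟨z, rfl⟩ := hx
      simp only [← Int.cast_mul, ex_int, Mean.avg_const]
      exact tendsto_const_nhds
    · have h1 : 0 < ‖ex x - 1‖ := norm_pos_iff.2 (sub_ne_zero.2 fun h => hx ((ex_eq_one_iff x).1 h))
      refine tendsto_zero_of_forall ‖ex x - 1‖⁻¹ fun ε hε => ?_
      filter_upwards [unif_inv u 1 ε hε] with i hi
      have := hi (fun s => ex (x * s)) fun s => by simp
      have e : (fun s : ℤ => ex (x * ((s + 1 : ℤ) : ℝ))) = fun s : ℤ => ex x * ex (x * s) := by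
        ext s; rw [← ex_add]; congr 1; push_cast; ring
      rw [e, Mean.avg_const_mul, ← sub_one_mul, norm_mul] at this
      rwa [le_inv_mul_iff₀ h1]
  fin := fun A _ ε hε => by
    refine ((Set.finite_Icc (-1 : ℤ) 1).image (fun z : ℤ => (z : ℝ))).subset ?_
    rintro x ⟨-, h1, h2⟩
    split_ifs at h2 with hx
    · obtain ⟨z, rfl⟩ := hx
      have := abs_le.1 h1
      exact ⟨z, ⟨by exact_mod_cast this.1, by exact_mod_cast this.2⟩, rfl⟩
    · simp at h2; linarith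

/-- The oscillating density. -/
noncomputable def dens (θ : ℕ → ℝ) (i : ℕ) (s : ℤ) : ℝ := 1 + (-1) ^ i * (Xi θ i s).re / 2

lemma abs_sign_re (θ : ℕ → ℝ) (i : ℕ) (s : ℤ) : |(-1) ^ i * (Xi θ i s).re| ≤ 1 := by
  rw [abs_mul, abs_pow, abs_neg, abs_one, one_pow, one_mul]
  exact (Complex.abs_re_le_norm _).trans ((norm_Xi _ _ _).le.trans (chi_le_one _ _ _))

lemma half_le_dens (θ : ℕ → ℝ) (i : ℕ) (s : ℤ) : 1 / 2 ≤ dens θ i s := by
  unfold dens; linarith [(abs_le.1 (abs_sign_re θ i s)).1]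

lemma dens_le (θ : ℕ → ℝ) (i : ℕ) (s : ℤ) : dens θ i s ≤ 3 / 2 := by
  unfold dens; linarith [(abs_le.1 (abs_sign_re θ i s)).2]

lemma dens_nonneg (θ : ℕ → ℝ) (i : ℕ) (s : ℤ) : 0 ≤ dens θ i s := by
  linarith [half_le_dens θ i s]

lemma half_le_avg_dens (θ : ℕ → ℝ) (μ : Mean) (i : ℕ) : 1 / 2 ≤ μ.avgR (dens θ i) := by
  have := μ.avgR_mono (f := fun _ => 1 / 2) (half_le_dens θ i)
  rwa [Mean.avgR_const] at this

lemma avg_dens_le (θ : ℕ → ℝ) (μ : Mean) (i : ℕ) : μ.avgR (dens θ i) ≤ 3 / 2 := by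
  have := μ.avgR_mono (g := fun _ => 3 / 2) (dens_le θ i)
  rwa [Mean.avgR_const] at this

/-- The biased means. -/
noncomputable def bias (θ : ℕ → ℝ) (ν : ℕ → Mean) (i : ℕ) : Mean :=
  (ν i).rew (dens θ i) (dens_nonneg θ i) (by linarith [half_le_avg_dens θ (ν i) i])

lemma avg_dens_mul (θ : ℕ → ℝ) (μ : Mean) (i : ℕ) (ψ : ℤ → ℂ) :
    μ.avg (fun s => dens θ i s * ψ s) = μ.avg ψ + (-1) ^ i / 4 * (μ.avg (fun s => ψ s * Xi θ i s) +
      μ.avg (fun s => ψ s * (starRingEnd ℂ) (Xi θ i s))) := by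
  rw [← Mean.avg_add, ← Mean.avg_const_mul, ← Mean.avg_add]
  congr 1; ext s
  rw [dens]; push_cast
  rw [Complex.re_eq_add_conj]; ring

lemma bias_avgR_le (θ : ℕ → ℝ) (ν : ℕ → Mean) (i : ℕ) (g : ℤ → ℝ) (hg : ∀ s, 0 ≤ g s) :
    (bias θ ν i).avgR g ≤ 3 * (ν i).avgR g := by
  rw [bias, Mean.rew_avgR, inv_mul_le_iff₀ (by linarith [half_le_avg_dens θ (ν i) i])]
  have h1 : (ν i).avgR (fun s => dens θ i s * g s) ≤ (ν i).avgR (fun s => 3 / 2 * g s) :=
    (ν i).avgR_mono fun s => mul_le_mul_of_nonneg_right (dens_le θ i s) (hg s)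
  rw [Mean.avgR_const_mul] at h1
  nlinarith [half_le_avg_dens θ (ν i) i, (ν i).avgR_nonneg hg]

lemma tendsto_sign_mul {u : ℕ → ℂ} (h : Tendsto u atTop (𝓝 0)) :
    Tendsto (fun i : ℕ => (-1) ^ i / 4 * u i) atTop (𝓝 0) := by
  refine squeeze_zero_norm (a := fun i => ‖u i‖) (fun i => ?_) (by simpa using h.norm)
  rw [norm_mul]
  refine mul_le_of_le_one_left (norm_nonneg _) ?_
  simp only [norm_div, norm_pow, norm_neg, norm_one, one_pow, Complex.norm_ofNat]
  norm_num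

section
variable {θ : ℕ → ℝ} {ν : ℕ → ℕ → Mean} {n n' : ℤ → ℝ} {L : ℕ → ℝ → ℂ} (hS : Spec θ ν n n' L)
include hS

lemma Spec.ex_conj_Xi (x : ℝ) : Tendsto
    (fun i => (ν 0 i).avg fun s => ex (x * s) * (starRingEnd ℂ) (Xi θ i s)) atTop (𝓝 0) := by
  have := (Complex.continuous_conj.tendsto 0).comp (hS.ex_Xi (-x))
  rw [map_zero] at this
  refine this.congr fun i => ?_
  simp only [Function.comp, ← Mean.avg_conj, map_mul, conj_ex, neg_mul, neg_neg]

lemma Spec.dens_ex (x : ℝ) : Tendsto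
    (fun i => (ν 0 i).avg fun s => dens θ i s * ex (x * s)) atTop (𝓝 (L 0 x)) := by
  simp only [avg_dens_mul]
  have := ((hS.adm 0).lim x).add (tendsto_sign_mul
    (by simpa using (hS.ex_Xi x).add (hS.ex_conj_Xi x)))
  rwa [add_zero] at this

lemma Spec.Z_tendsto : Tendsto (fun i => (((ν 0 i).avgR (dens θ i) : ℝ) : ℂ)⁻¹) atTop (𝓝 1) := by
  have h1 := (hS.adm 0).lim 0
  simp only [zero_mul, ex_zero, Mean.avg_const] at h1
  have h2 := hS.dens_ex 0
  rw [← tendsto_nhds_unique tendsto_const_nhds h1] at h2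
  simp only [zero_mul, ex_zero, mul_one, Mean.avg_ofReal] at h2
  simpa using h2.inv₀ one_ne_zero

lemma Spec.bias_str {A : AddSubgroup ℝ} {ψ : ℤ → ℂ} (h : Str A ψ) :
    ∃ l, Tendsto (fun i => (bias θ (ν 0) i).avg ψ) atTop (𝓝 l) := by
  refine str_conv _ (fun φ hφ => ?_) (fun x _ => ⟨1 * L 0 x, ?_⟩) h
  · simp only [bias, Mean.rew_avg, avg_dens_mul]
    have a1 := hφ _ _ _ _ (hS.adm 0) hS.mult_Xi 0
    have a2 := hφ _ _ _ _ (hS.adm 0) hS.mult_conj_Xi 0
    simp only [zero_mul, ex_zero, mul_one] at a1 a2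
    have := hS.Z_tendsto.mul (((hS.adm 0).null φ hφ).add
      (tendsto_sign_mul (by simpa using a1.add a2)))
    simpa using this
  · simp only [bias, Mean.rew_avg]
    exact hS.Z_tendsto.mul (hS.dens_ex x)

lemma Spec.bias_riem {Y : Type} [TopologicalSpace Y] [CompactSpace Y] [T2Space Y]
    [SecondCountableTopology Y] [MeasurableSpace Y] [BorelSpace Y] (m : Measure Y)
    [IsProbabilityMeasure m] (S : Y → Y) (hSc : Continuous S) (hinv : m.map S = m) (o : ℤ → Y)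
    (ho : ∀ s, o (s + 1) = S (o s)) (hm : m (closure (Set.range o))ᶜ = 0)
    (A : AddSubgroup ℝ) (hA : A.FG) (hstr : ∀ F : Y → ℂ, Continuous F → Str A fun s => F (o s))
    (F : Y → ℂ) (C : ℝ) (hF : ∀ z, ‖F z‖ ≤ C)
    (hc : ∀ᵐ z ∂m, ContinuousWithinAt F (closure (Set.range o)) z) :
    ∃ l, Tendsto (fun i => (bias θ (ν 0) i).avg fun s => F (o s)) atTop (𝓝 l) := by
  obtain ⟨K, hK⟩ := hS.triv A hA
  obtain ⟨D, hD0, hD⟩ := hS.dom K
  have key : ∀ h : Y → ℂ, Continuous h →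
      Tendsto (fun i => (ν K i).avg fun s => h (o s)) atTop (𝓝 (∫ z, h z ∂m)) := by
    intro h hh
    obtain ⟨l, hl⟩ := str_conv (ν K) (hS.adm K).null (fun x _ => ⟨_, (hS.adm K).lim x⟩)
      (hstr h hh)
    rw [integral_eq_of_uniform m S hSc hinv o ho hm h hh l fun u => ?_]
    · exact hl
    have := str_same (fun i => unif (u i) i) (ν K) (unif_adm u).null (hS.adm K).null
      (fun x hx => by
        have := ((unif_adm u).lim x).sub ((hS.adm K).lim x)
        rwa [hK x hx, sub_self] at this) (hstr h hh)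
    have := this.add hl
    simpa only [sub_add_cancel, zero_add, unif_avg] using this
  refine conv_of_approx fun ε hε => ?_
  obtain ⟨g, h, hg, hh, hh0, hgh, hint⟩ := sandwich m (closure (Set.range o)) F C hF hc
    (ε / (6 * (D + 1))) (by positivity)
  obtain ⟨l, hl⟩ := hS.bias_str (hstr g hg)
  refine ⟨_, l, hl, ?_⟩
  have k1 := key (fun z => (h z : ℂ)) (Complex.continuous_ofReal.comp hh)
  rw [integral_complex_ofReal] at k1
  simp only [Mean.avg_ofReal] at k1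
  have k2 := (Complex.continuous_re.tendsto _).comp k1
  have k3 : (∫ z, h z ∂m) < 2 * (ε / (6 * (D + 1))) := by
    have : 0 < ε / (6 * (D + 1)) := by positivity
    linarith
  filter_upwards [k2.eventually (gt_mem_nhds k3)] with i hi
  simp only [Function.comp, Complex.ofReal_re] at hi
  rw [← Mean.avg_sub]
  refine ((bias θ (ν 0) i).norm_avg_le_avgR (g := fun s => h (o s)) fun s =>
    hgh _ (subset_closure ⟨s, rfl⟩)).trans ((bias_avgR_le _ _ _ _ fun s => hh0 _).trans ?_)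
  have k4 := hD i (fun s => h (o s)) fun s => hh0 _
  have k5 := (ν K i).avgR_nonneg (g := fun s => h (o s)) fun s => hh0 _
  calc 3 * (ν 0 i).avgR (fun s => h (o s)) ≤ 3 * ((D + 1) * (2 * (ε / (6 * (D + 1))))) := by
        gcongr
        refine k4.trans ?_
        gcongr; linarith
    _ = ε := by field_simp; ring

end

end Pool.Agent.P.MP_fc4783_an
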