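import Pool.Agent.P.MP_fc4783_an.Basic

/-!
Existence of the parameters `Data W θ N η`. The frequencies are chosen one after the other by the
Baire category theorem so that the multiples of `(θ 0, …, θ (n-1))` stay dense modulo one.
-/

namespace Pool.Agent.P.MP_fc4783_an

open Filter Topology Finset

/-- The large multiples of `(θ 0, …, θ (n-1))` are dense modulo one. -/
def kron_Good (n : ℕ) (θ : ℕ → ℝ) : Prop :=
  ∀ (x : ℕ → ℝ) (ε : ℝ), 0 < ε → ∀ M : ℕ, ∃ h : ℕ, M ≤ h ∧ ∀ k < n, dZ (h * θ k - x k) < ε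

lemma kron_lip (x y : ℝ) : dZ x ≤ dZ y + |x - y| := by
  have := dZ_add_le y (x - y)
  rw [add_sub_cancel] at this
  exact this.trans (by linarith [dZ_le_abs (x - y)])

lemma kron_cont : Continuous dZ := by
  refine (LipschitzWith.of_dist_le_mul (K := 1) fun x y => ?_).continuous
  rw [Real.dist_eq, Real.dist_eq, NNReal.coe_one, one_mul, abs_le]
  constructor
  · have := kron_lip y x; rw [abs_sub_comm] at this; linarith
  · have := kron_lip x y; linarith

lemma kron_sum (n : ℕ) (f : ℕ → ℝ) : dZ (∑ k ∈ range n, f k) ≤ ∑ k ∈ range n, dZ (f k) := by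
  induction n with
  | zero => simp
  | succ n ih => rw [sum_range_succ, sum_range_succ]; exact (dZ_add_le _ _).trans (by linarith)

lemma kron_half (m : ℤ) : dZ (m - 1 / 2) = 1 / 2 := by
  have h1 : (m : ℝ) - 1 / 2 = -(1 / 2) + m := by ring
  rw [h1, dZ_add_int, dZ_neg]
  have h2 : round (1 / 2 : ℝ) = 1 := by rw [round_eq]; norm_num
  unfold dZ; rw [h2]; norm_num [abs_of_neg]

lemma kron_extend {n : ℕ} {θ : ℕ → ℝ} (hG : kron_Good n θ) {δ : ℝ} (hδ : 0 < δ) :
    ∃ t : ℝ, |t| ≤ δ ∧ kron_Good (n + 1) (Function.update θ n t) := by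
  classical
  let U : List ℚ × ℕ × ℕ → Set ℝ := fun p => ⋃ h : ℕ, {t | p.2.2 ≤ h ∧
    (∀ k < n, dZ (h * θ k - (p.1.getD k 0 : ℚ)) < 1 / (p.2.1 + 1)) ∧
      dZ (h * t - (p.1.getD n 0 : ℚ)) < 1 / (p.2.1 + 1)}
  have hO : ∀ p, IsOpen (U p) := fun p => isOpen_iUnion fun h => by
    simp only [Set.ofPred_and]
    refine isOpen_const.inter (isOpen_const.inter ?_)
    exact isOpen_lt (kron_cont.comp (by fun_prop)) continuous_const
  have hD : ∀ p, Dense (U p) := fun p => by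
    rw [Metric.dense_iff]
    intro t r hr
    obtain ⟨M, hM⟩ := exists_nat_gt (1 / r)
    obtain ⟨h, h1, h2⟩ := hG (fun k => (p.1.getD k 0 : ℚ)) (1 / (p.2.1 + 1)) (by positivity)
      (max p.2.2 M)
    have hM' : 1 / r < h := hM.trans_le (by exact_mod_cast (le_max_right _ _).trans h1)
    have hpos : (0 : ℝ) < h := lt_trans (by positivity) hM'
    set y : ℝ := ((p.1.getD n 0 : ℚ) : ℝ) with hy
    refine ⟨(round (h * t - y) + y) / h, ?_, Set.mem_iUnion.2 ⟨h, (le_max_left _ _).trans h1, h2, ?_⟩⟩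
    · rw [Metric.mem_ball, Real.dist_eq]
      have e : (round (h * t - y) + y) / h - t = -((h * t - y) - round (h * t - y)) / h := by
        field_simp; ring
      rw [e, abs_div, abs_neg, abs_of_pos hpos, div_lt_iff₀ hpos]
      have := abs_sub_round (h * t - y)
      rw [div_lt_iff₀ hr] at hM'
      linarith
    · have e : h * ((round (h * t - y) + y) / h) - y = (round (h * t - y) : ℤ) := by
        field_simp; ring
      rw [e, dZ_int]; positivity
  obtain ⟨t, ht, hU⟩ := Metric.dense_iff.1 (dense_iInter_of_isOpen hO hD) 0 δ hδ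
  refine ⟨t, by simpa using (Metric.mem_ball.1 ht).le, fun x ε hε M => ?_⟩
  have hq : ∀ k, ∃ q : ℚ, |(q : ℝ) - x k| < ε / 2 := fun k => by
    obtain ⟨q, hq⟩ := exists_rat_near (x k) (half_pos hε)
    exact ⟨q, by rwa [abs_sub_comm]⟩
  choose q hq using hq
  obtain ⟨m, hm⟩ := exists_nat_one_div_lt (half_pos hε)
  obtain ⟨h, h1, h2, h3⟩ :=
    Set.mem_iUnion.1 (Set.mem_iInter.1 hU ((List.range (n + 1)).map q, m, M))
  have hg : ∀ k < n + 1, ((List.range (n + 1)).map q).getD k 0 = q k := fun k hk => by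
    simp [List.getD_eq_getElem?_getD, List.getElem?_range hk]
  refine ⟨h, h1, fun k hk => ?_⟩
  have key : dZ (h * Function.update θ n t k - q k) < ε / 2 := by
    rcases Nat.lt_succ_iff_lt_or_eq.1 hk with hk' | rfl
    · rw [Function.update_of_ne hk'.ne]
      have := h2 k hk'
      rw [hg k hk] at this; exact this.trans hm
    · rw [Function.update_self]
      rw [hg k hk] at h3; exact h3.trans hm
  have := kron_lip (h * Function.update θ n t k - x k) (h * Function.update θ n t k - q k)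
  have e : h * Function.update θ n t k - x k - (h * Function.update θ n t k - q k) = q k - x k := by
    ring
  rw [e] at this
  linarith [hq k]

lemma kron_pos {n : ℕ} {θ : ℕ → ℝ} (hG : kron_Good n θ) (w : ℕ → ℤ) {j : ℕ} (hj : j < n)
    (hw : w j ≠ 0) : 0 < dZ (∑ k ∈ range n, w k * (3 * θ k)) := by
  classical
  refine lt_of_le_of_ne (dZ_nonneg _) fun h0 => ?_
  obtain ⟨m, hm⟩ := (dZ_eq_zero_iff _).1 h0.symm
  set C : ℝ := ∑ k ∈ range n, |((3 * w k : ℤ) : ℝ)| with hC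
  have hC0 : 0 ≤ C := sum_nonneg fun _ _ => abs_nonneg _
  obtain ⟨h, -, h2⟩ := hG (fun k => if k = j then 1 / (6 * w j) else 0) (1 / (4 * (C + 1)))
    (by positivity) 0
  have hw' : (w j : ℝ) ≠ 0 := by exact_mod_cast hw
  have e : ∑ k ∈ range n, ((3 * w k : ℤ) : ℝ) *
      (h * θ k - if k = j then 1 / (6 * (w j : ℝ)) else 0) = ((h * m : ℤ) : ℝ) - 1 / 2 := by
    simp only [mul_sub, sum_sub_distrib, mul_ite, mul_zero, sum_ite_eq', mem_range, hj, if_true]
    push_cast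
    rw [← hm, mul_sum]
    congr 1
    · exact sum_congr rfl fun _ _ => by ring
    · field_simp; ring
  have h3 := kron_sum n fun k => ((3 * w k : ℤ) : ℝ) *
      (h * θ k - if k = j then 1 / (6 * (w j : ℝ)) else 0)
  rw [e, kron_half] at h3
  have h4 : ∑ k ∈ range n, dZ (((3 * w k : ℤ) : ℝ) *
      (h * θ k - if k = j then 1 / (6 * (w j : ℝ)) else 0)) ≤ C * (1 / (4 * (C + 1))) := by
    rw [hC, sum_mul]
    exact sum_le_sum fun k hk => (dZ_int_mul_le _ _).trans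
      (mul_le_mul_of_nonneg_left (h2 k (mem_range.1 hk)).le (abs_nonneg _))
  have h5 : C * (1 / (4 * (C + 1))) < 1 / 2 := by
    rw [mul_one_div, div_lt_iff₀ (by positivity)]; linarith
  linarith

lemma kron_small (c a : ℝ) (ha : 0 < a) : ∀ᶠ η in 𝓝[>] (0 : ℝ), c * η < a := by
  have : Tendsto (fun η : ℝ => c * η) (𝓝 0) (𝓝 (c * 0)) := tendsto_id.const_mul c
  rw [mul_zero] at this
  exact (this.eventually (gt_mem_nhds ha)).filter_mono nhdsWithin_le_nhds

lemma kron_sep {n : ℕ} {θ : ℕ → ℝ} (hG : kron_Good n θ) (B : ℝ) :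
    ∀ᶠ η in 𝓝[>] (0 : ℝ), ∀ w : ℕ → ℤ, (∀ k < n, |(w k : ℝ)| ≤ B) →
      dZ (∑ k ∈ range n, w k * (3 * θ k)) ≤ 4 * η → ∀ k < n, w k = 0 := by
  classical
  let ext : (Fin n → ℤ) → ℕ → ℤ := fun v k => if h : k < n then v ⟨k, h⟩ else 0
  have h1 : ∀ᶠ η in 𝓝[>] (0 : ℝ), ∀ v ∈ Fintype.piFinset fun _ : Fin n => Icc (-⌈B⌉) ⌈B⌉,
      (∃ j < n, ext v j ≠ 0) → 4 * η < dZ (∑ k ∈ range n, ext v k * (3 * θ k)) := by
    rw [eventually_all_finset]
    intro v _
    by_cases hv : ∃ j < n, ext v j ≠ 0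
    · obtain ⟨j, hj, hv⟩ := hv
      exact (kron_small 4 _ (kron_pos hG (ext v) hj hv)).mono fun _ h _ => h
    · exact Eventually.of_forall fun _ h => absurd h hv
  refine h1.mono fun η hη w hw hd k hk => ?_
  by_contra hne
  have he : ∀ j < n, ext (fun a => w a) j = w j := fun j hj => by simp [ext, hj]
  have := hη (fun a => w a) (Fintype.mem_piFinset.2 fun a => by
    have h2 := abs_le.1 ((hw a a.2).trans (Int.le_ceil B))
    rw [mem_Icc]
    exact ⟨by exact_mod_cast h2.1, by exact_mod_cast h2.2⟩) ⟨k, hk, by rwa [he k hk]⟩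
  rw [sum_congr rfl fun j hj => by rw [he j (mem_range.1 hj)]] at this
  linarith

/-- One step of the recursive choice. -/
def kron_Step (W : ℕ → ℝ) (i : ℕ) (p q : (ℕ → ℝ) × ℝ × ℕ) : Prop :=
  q.2.1 ≤ 1 / (i + 1) ∧ q.2.1 ≤ p.2.1 ∧ W (i - 1) * p.2.2 * q.2.1 ≤ 1 ∧
  (∀ w : ℕ → ℤ, (∀ k < i, |(w k : ℝ)| ≤ W i) →
    dZ (∑ k ∈ range i, w k * (3 * p.1 k)) ≤ 4 * q.2.1 → ∀ k < i, w k = 0) ∧
  p.2.2 ≤ q.2.2 ∧ W i ≤ q.2.2 * q.2.1 ∧
  (∀ k < i, ∃ h : ℕ, h ≤ q.2.2 ∧ ∀ l < i,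
    W l * dZ (h * p.1 l - if l = k then 1 / 3 else 0) ≤ 1 / (i + 1)) ∧
  W i * q.2.2 * |q.1 i| ≤ q.2.1 ∧ ∀ k < i, q.1 k = p.1 k

lemma kron_step (W : ℕ → ℝ) (hW : ∀ i, 0 < W i) (i : ℕ)
    (p : {p : (ℕ → ℝ) × ℝ × ℕ // kron_Good i p.1 ∧ 0 < p.2.1}) :
    ∃ q : {q : (ℕ → ℝ) × ℝ × ℕ // kron_Good (i + 1) q.1 ∧ 0 < q.2.1}, kron_Step W i p.1 q.1 := by
  classical
  obtain ⟨⟨θ, η', N'⟩, hG, hη'⟩ := p
  obtain ⟨η, ⟨⟨⟨h1, h2⟩, h3⟩, h4⟩, h0⟩ := (((((kron_small 1 (1 / (i + 1)) (by positivity)).and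
    (kron_small 1 η' hη')).and (kron_small (W (i - 1) * N') 1 one_pos)).and
    (kron_sep hG (W i))).and self_mem_nhdsWithin).exists
  have h0 : 0 < η := h0
  set C : ℝ := ∑ l ∈ range i, W l with hC
  have hC0 : 0 ≤ C := sum_nonneg fun l _ => (hW l).le
  have hk : ∀ k : ℕ, ∃ h : ℕ, ∀ l < i,
      W l * dZ (h * θ l - if l = k then 1 / 3 else 0) ≤ 1 / (i + 1) := fun k => by
    obtain ⟨h, -, hh⟩ := hG (fun l => if l = k then 1 / 3 else 0) (1 / (i + 1) / (C + 1))
      (by positivity) 0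
    refine ⟨h, fun l hl => ?_⟩
    have hl' : W l ≤ C + 1 :=
      (single_le_sum (f := W) (fun l _ => (hW l).le) (mem_range.2 hl)).trans (by linarith)
    calc _ ≤ (C + 1) * (1 / (i + 1) / (C + 1)) :=
          mul_le_mul hl' (hh l hl).le (dZ_nonneg _) (by positivity)
      _ = _ := by field_simp
  choose H hH using hk
  obtain ⟨M, hM⟩ := exists_nat_ge (W i / η)
  set N : ℕ := N' + M + ∑ k ∈ range i, H k with hN
  obtain ⟨t, ht, hG'⟩ := kron_extend hG (δ := η / (W i * N + 1)) (by have := hW i; positivity)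
  refine ⟨⟨⟨Function.update θ i t, η, N⟩, hG', h0⟩, by linarith, by linarith, h3.le, h4,
    by simp only; omega, ?_, fun k hk => ⟨H k, ?_, hH k⟩, ?_, fun k hk => ?_⟩
  · rw [div_le_iff₀ h0] at hM
    refine hM.trans (mul_le_mul_of_nonneg_right ?_ h0.le)
    simp only; exact_mod_cast (by omega : M ≤ N)
  · have := single_le_sum (f := H) (fun _ _ => Nat.zero_le _) (mem_range.2 hk)
    simp only; omega
  · simp only [Function.update_self]
    have hp : 0 ≤ W i * N := by have := hW i; positivity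
    rw [le_div_iff₀ (by positivity)] at ht
    nlinarith [abs_nonneg t]
  · exact Function.update_of_ne hk.ne _ _

theorem exists_data (W : ℕ → ℝ) (hW : ∀ i, 0 < W i) : ∃ θ N η, Data W θ N η := by
  choose F hF using kron_step W hW
  let u : ∀ i : ℕ, {p : (ℕ → ℝ) × ℝ × ℕ // kron_Good i p.1 ∧ 0 < p.2.1} := fun i =>
    Nat.rec ⟨⟨fun _ => 0, 1, 0⟩, fun _ _ _ M => ⟨M, le_rfl, fun _ h => absurd h (Nat.not_lt_zero _)⟩,
      one_pos⟩ F i
  have hu : ∀ i, kron_Step W i (u i).1 (u (i + 1)).1 := fun i => hF i (u i)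
  have hθ : ∀ i, ∀ k < i, (u i).1.1 k = (u (k + 1)).1.1 k := by
    intro i
    induction i with
    | zero => intro k hk; omega
    | succ i ih =>
      intro k hk
      rcases Nat.lt_succ_iff_lt_or_eq.1 hk with hk' | rfl
      · rw [(hu i).2.2.2.2.2.2.2.2 k hk', ih k hk']
      · rfl
  have hmono : Monotone fun i => (u (i + 1)).1.2.2 :=
    monotone_nat_of_le_succ fun i => (hu (i + 1)).2.2.2.2.1
  refine ⟨fun k => (u (k + 1)).1.1 k, fun i => (u (i + 1)).1.2.2, fun i => (u (i + 1)).1.2.1,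
    fun i => (u (i + 1)).2.2, fun i => (hu i).1,
    antitone_nat_of_succ_le fun i => (hu (i + 1)).2.1, hmono, fun i w hw hd => ?_,
    fun i => (hu i).2.2.2.2.2.1, fun i => (hu (i + 1)).2.2.1,
    fun i => (hu i).2.2.2.2.2.2.2.1, fun k ε hε => ?_⟩
  · refine (hu i).2.2.2.1 w hw ?_
    rwa [sum_congr rfl fun j hj => by rw [hθ i j (mem_range.1 hj)]]
  · obtain ⟨m, hm⟩ := exists_nat_one_div_lt hε
    have hle : ∀ l : ℕ, m ≤ l → 1 / ((l : ℝ) + 1) ≤ ε := fun l hl =>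
      le_trans (one_div_le_one_div_of_le (by positivity) (by
        have : (m : ℝ) ≤ l := by exact_mod_cast hl
        linarith)) hm.le
    obtain ⟨h, h1, h2⟩ := (hu (m + k + 1)).2.2.2.2.2.2.1 k (by omega)
    refine ⟨h, fun l => ?_⟩
    rw [Int.cast_natCast]
    by_cases hl : l < m + k + 1
    · rw [← hθ _ l hl]
      exact (h2 l hl).trans (hle _ (by omega))
    · rw [if_neg (by omega), sub_zero]
      have h3 : (h : ℝ) ≤ (u (l + 1)).1.2.2 := by
        exact_mod_cast h1.trans (hmono (by omega : m + k + 1 ≤ l))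
      calc _ ≤ W l * ((u (l + 1)).1.2.2 * |(u (l + 1)).1.1 l|) := by
            refine mul_le_mul_of_nonneg_left ((dZ_le_abs _).trans ?_) (hW l).le
            rw [abs_mul, Nat.abs_cast]
            exact mul_le_mul_of_nonneg_right h3 (abs_nonneg _)
        _ ≤ (u (l + 1)).1.2.1 := by rw [← mul_assoc]; exact (hu l).2.2.2.2.2.2.2.1
        _ ≤ ε := (hu l).1.trans (hle l (by omega))

end Pool.Agent.P.MP_fc4783_an
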