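import Pool.Agent.P.MP_fc4783_an.Basic

/-!
One-parameter subgroups of a finite dimensional Lie group generate a neighbourhood of the identity.
-/

namespace Pool.Agent.P.MP_fc4783_an

open Filter Topology Set Bundle
open scoped Manifold

section

variable {E : Type} [NormedAddCommGroup E] [NormedSpace ℝ E]
  {G : Type} [Group G] [TopologicalSpace G] [ChartedSpace E G]
  [LieGroup 𝓘(ℝ, E) (minSmoothness ℝ 3) G]

lemma lie_M : minSmoothness ℝ 3 ≠ 0 := lt_of_lt_of_le (by simp) le_minSmoothness |>.ne'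

lemma lie_one_le : (1 : WithTop ℕ∞) ≤ minSmoothness ℝ 3 :=
  le_trans (by norm_num) le_minSmoothness

lemma lie_one_le_two : (1 : WithTop ℕ∞) ≤ minSmoothness ℝ 2 :=
  le_trans (by norm_num) le_minSmoothness

set_option backward.isDefEq.respectTransparency false in
lemma lie_field_mul (v : GroupLieAlgebra 𝓘(ℝ, E) G) (g h : G) :
    mfderiv 𝓘(ℝ, E) 𝓘(ℝ, E) (fun x => g * x) h (mulInvariantVectorField v h) =
      mulInvariantVectorField v (g * h) := by
  have D : (fun x => g * h * x) = (fun b => g * b) ∘ (fun x => h * x) := by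
    ext x; simp only [Function.comp_apply, mul_assoc]
  simp only [mulInvariantVectorField]
  rw [D, mfderiv_comp (I' := 𝓘(ℝ, E)) (1 : G)
    (contMDiff_mul_left.contMDiffAt.mdifferentiableAt lie_M)
    (contMDiff_mul_left.contMDiffAt.mdifferentiableAt lie_M)]
  have key : ∀ h' : G, h' = h → (mfderiv 𝓘(ℝ, E) 𝓘(ℝ, E) (fun x => g * x) h : E →L[ℝ] E) =
      (mfderiv 𝓘(ℝ, E) 𝓘(ℝ, E) (fun x => g * x) h' : E →L[ℝ] E) := by
    rintro _ rfl; rfl
  exact DFunLike.congr_fun (key (h * 1) (mul_one h)) _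

set_option backward.isDefEq.respectTransparency false in
lemma lie_translate (v : GroupLieAlgebra 𝓘(ℝ, E) G) (g : G) (γ : ℝ → G) (t : ℝ)
    (h : HasMFDerivAt 𝓘(ℝ, ℝ) 𝓘(ℝ, E) γ t
      ((1 : ℝ →L[ℝ] ℝ).smulRight (mulInvariantVectorField v (γ t)))) :
    HasMFDerivAt 𝓘(ℝ, ℝ) 𝓘(ℝ, E) (fun s => g * γ s) t
      ((1 : ℝ →L[ℝ] ℝ).smulRight (mulInvariantVectorField v (g * γ t))) := by
  have h1 : HasMFDerivAt 𝓘(ℝ, E) 𝓘(ℝ, E) (fun x : G => g * x) (γ t)
      (mfderiv 𝓘(ℝ, E) 𝓘(ℝ, E) (fun x : G => g * x) (γ t)) :=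
    (contMDiff_mul_left.contMDiffAt.mdifferentiableAt lie_M).hasMFDerivAt
  have h2 := HasMFDerivAt.comp t h1 h
  refine h2.congr_mfderiv ?_
  rw [ContinuousLinearMap.ext_iff]
  intro a
  rw [ContinuousLinearMap.comp_apply, ContinuousLinearMap.smulRight_apply, map_smul,
    lie_field_mul]
  rfl

omit [LieGroup 𝓘(ℝ, E) (minSmoothness ℝ 3) G] in
lemma lie_field_one (v : GroupLieAlgebra 𝓘(ℝ, E) G) : mulInvariantVectorField v (1 : G) = v := by
  have D : (fun x : G => (1 : G) * x) = id := by ext x; simp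
  simp only [mulInvariantVectorField]
  rw [D, mfderiv_id]
  rfl

lemma lie_field_smooth (v : GroupLieAlgebra 𝓘(ℝ, E) G) :
    letI : IsManifold 𝓘(ℝ, E) 1 G := IsManifold.of_le lie_one_le
    ContMDiff 𝓘(ℝ, E) 𝓘(ℝ, E).tangent 1
      (fun x : G => (⟨x, mulInvariantVectorField v x⟩ : TangentBundle 𝓘(ℝ, E) G)) :=
  (contMDiff_mulInvariantVectorField v).of_le lie_one_le_two

lemma lie_exists_curve [CompleteSpace E] [T2Space G] (v : GroupLieAlgebra 𝓘(ℝ, E) G) :
    ∃ φ : ℝ → G, φ 0 = 1 ∧ IsMIntegralCurve φ (mulInvariantVectorField v) ∧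
      ∀ s t, φ (s + t) = φ s * φ t := by
  have : IsManifold 𝓘(ℝ, E) 1 G := IsManifold.of_le lie_one_le
  have hv := lie_field_smooth v
  obtain ⟨γ, hγ0, hγ⟩ := exists_isMIntegralCurveAt_of_contMDiffAt_boundaryless (0 : ℝ)
    (hv.contMDiffAt (x := 1))
  obtain ⟨ε, hε, hγε⟩ := isMIntegralCurveAt_iff'.1 hγ
  rw [Real.ball_eq_Ioo, zero_sub, zero_add] at hγε
  have hall : ∀ x : G, ∃ γ' : ℝ → G, γ' 0 = x ∧
      IsMIntegralCurveOn γ' (mulInvariantVectorField v) (Ioo (-ε) ε) := by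
    intro x
    refine ⟨fun s => x * γ s, by simp [hγ0], fun t ht => ?_⟩
    exact (lie_translate v x γ t
      ((hγε t ht).hasMFDerivAt (Ioo_mem_nhds ht.1 ht.2))).hasMFDerivWithinAt
  obtain ⟨φ, hφ0, hφ⟩ := exists_isMIntegralCurve_of_isMIntegralCurveOn hv hε hall 1
  refine ⟨φ, hφ0, hφ, fun s t => ?_⟩
  have h1 : IsMIntegralCurve (φ ∘ (· + s)) (mulInvariantVectorField v) := hφ.comp_add s
  have h2 : IsMIntegralCurve (fun r => φ s * φ r) (mulInvariantVectorField v) := fun r =>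
    lie_translate v (φ s) φ r (hφ r)
  have h3 := isMIntegralCurve_Ioo_eq_of_contMDiff_boundaryless (t₀ := 0) hv h1 h2
    (by simp [hφ0])
  have := congrFun h3 t
  simpa [add_comm] using this

set_option backward.isDefEq.respectTransparency false in
lemma lie_curve_deriv (v : GroupLieAlgebra 𝓘(ℝ, E) G) (φ : ℝ → G) (h0 : φ 0 = 1)
    (hφ : IsMIntegralCurve φ (mulInvariantVectorField v)) :
    HasDerivAt (extChartAt 𝓘(ℝ, E) (1 : G) ∘ φ) (show E from v) 0 := by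
  have : IsManifold 𝓘(ℝ, E) 1 G := IsManifold.of_le lie_one_le
  have h := (hφ.isMIntegralCurveAt 0).eventually_hasDerivAt.self_of_nhds
  rw [tangentCoordChange_self (mem_extChartAt_source _), h0, lie_field_one] at h
  exact h

set_option backward.isDefEq.respectTransparency false in
lemma lie_curve_smooth (v : GroupLieAlgebra 𝓘(ℝ, E) G) (φ : ℝ → G)
    (hφ : IsMIntegralCurve φ (mulInvariantVectorField v)) :
    ContMDiffAt 𝓘(ℝ, ℝ) 𝓘(ℝ, E) 1 φ 0 := by
  have : IsManifold 𝓘(ℝ, E) 1 G := IsManifold.of_le lie_one_le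
  have hc := hφ.continuous
  rw [contMDiffAt_iff]
  refine ⟨hc.continuousAt, ?_⟩
  have hd := (hφ.isMIntegralCurveAt 0).eventually_hasDerivAt
  have hs : Continuous fun t =>
      (⟨φ t, mulInvariantVectorField v (φ t)⟩ : TangentBundle 𝓘(ℝ, E) G) :=
    (lie_field_smooth v).continuous.comp hc
  have hsrc : φ ⁻¹' (chartAt E (φ 0)).source ∈ 𝓝 (0 : ℝ) :=
    hc.continuousAt.preimage_mem_nhds (chart_source_mem_nhds E _)
  have hcont : ContinuousOn (fun t => tangentCoordChange 𝓘(ℝ, E) (φ t) (φ 0) (φ t)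
      (mulInvariantVectorField v (φ t))) (φ ⁻¹' (chartAt E (φ 0)).source) := by
    have h1 := (trivializationAt E (TangentSpace 𝓘(ℝ, E)) (φ 0)).continuousOn.comp
      hs.continuousOn (s := φ ⁻¹' (chartAt E (φ 0)).source) (fun t ht => ht)
    exact continuous_snd.comp_continuousOn h1
  have : ContDiffAt ℝ 1 (extChartAt 𝓘(ℝ, E) (φ 0) ∘ φ) 0 := by
    rw [contDiffAt_one_iff]
    refine ⟨fun t => (1 : ℝ →L[ℝ] ℝ).smulRight (tangentCoordChange 𝓘(ℝ, E) (φ t) (φ 0) (φ t)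
      (mulInvariantVectorField v (φ t))), _, inter_mem hsrc hd, ?_, fun t ht => ?_⟩
    · exact ((ContinuousLinearMap.smulRightL ℝ ℝ E 1).continuous.comp_continuousOn
        (hcont.mono inter_subset_left))
    · exact ht.2.hasFDerivAt
  simpa [mfld_simps] using this.contDiffWithinAt (s := univ)

lemma lie_prod_smooth {ι : Type} [Fintype ι] (φ : ι → ℝ → G)
    (hφ : ∀ a, ContMDiffAt 𝓘(ℝ, ℝ) 𝓘(ℝ, E) 1 (φ a) 0) (l : List ι) :
    ContMDiffAt 𝓘(ℝ, ι → ℝ) 𝓘(ℝ, E) 1 (fun x : ι → ℝ => (l.map fun a => φ a (x a)).prod) 0 := by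
  have : LieGroup 𝓘(ℝ, E) 1 G := LieGroup.of_le lie_one_le
  induction l with
  | nil => simpa using contMDiffAt_const
  | cons a l ih =>
    simp only [List.map_cons, List.prod_cons]
    refine ContMDiffAt.mul ?_ ih
    have h1 : ContMDiffAt 𝓘(ℝ, ι → ℝ) 𝓘(ℝ, ℝ) 1 (fun x : ι → ℝ => x a) 0 :=
      (contDiff_apply ℝ ℝ a).contMDiff.contMDiffAt
    exact ContMDiffAt.comp (0 : ι → ℝ) (g := φ a) (hφ a) h1

end

/-- TASK LIE -/
theorem exists_oneParam {d : ℕ} (G : Type) [Group G] [TopologicalSpace G] [T2Space G]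
    [ChartedSpace (EuclideanSpace ℝ (Fin d)) G]
    [LieGroup (modelWithCornersSelf ℝ (EuclideanSpace ℝ (Fin d))) ((⊤ : ℕ∞) : WithTop ℕ∞) G] :
    ∃ φ : Fin d → ℝ → G, (∀ a, Continuous (φ a)) ∧ (∀ a s t, φ a (s + t) = φ a s * φ a t) ∧
      (fun x : Fin d → ℝ => (List.ofFn fun a => φ a (x a)).prod) '' Metric.closedBall 0 1
        ∈ 𝓝 (1 : G) := by
  classical
  set E := EuclideanSpace ℝ (Fin d)
  have : LieGroup 𝓘(ℝ, E) (minSmoothness ℝ 3) G := by
    refine LieGroup.of_le (n := ((⊤ : ℕ∞) : WithTop ℕ∞)) ?_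
    rw [minSmoothness_of_isRCLikeNormedField]
    exact WithTop.coe_le_coe.2 (le_top (a := (3 : ℕ∞)))
  let e : (Fin d → ℝ) ≃L[ℝ] E := (EuclideanSpace.equiv (Fin d) ℝ).symm
  let v : Fin d → GroupLieAlgebra 𝓘(ℝ, E) G := fun a => (e (Pi.single a 1) : E)
  choose φ h0 hφ hadd using fun a => lie_exists_curve (v a)
  refine ⟨φ, fun a => (hφ a).continuous, hadd, ?_⟩
  set σ : (Fin d → ℝ) → G := fun x => (List.ofFn fun a => φ a (x a)).prod with hσ
  have hσ' : σ = fun x => ((List.finRange d).map fun a => φ a (x a)).prod := by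
    ext x; simp only [hσ, List.ofFn_eq_map]
  have hsm : ContMDiffAt 𝓘(ℝ, Fin d → ℝ) 𝓘(ℝ, E) 1 σ 0 := by
    rw [hσ']
    exact lie_prod_smooth φ (fun a => lie_curve_smooth (v a) (φ a) (hφ a)) _
  have hline : ∀ a t, σ (t • Pi.single a 1) = φ a t := by
    intro a t
    rw [hσ']
    have := List.prod_map_eq_pow_single (l := List.finRange d) a
      (fun b => φ b ((t • (Pi.single a 1 : Fin d → ℝ)) b)) (fun b hb _ => by
        simp [Pi.single_eq_of_ne hb, h0])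
    simp only [this]
    simp
  have hσ0 : σ 0 = 1 := by
    rw [hσ']
    simp [h0]
  set c := extChartAt 𝓘(ℝ, E) (1 : G) with hc
  have hF : ContDiffAt ℝ 1 (c ∘ σ) 0 := by
    have := (contMDiffAt_iff.1 hsm).2
    rw [hσ0] at this
    simpa [mfld_simps, contDiffWithinAt_univ, hc] using this
  have hstrict := hF.hasStrictFDerivAt one_ne_zero
  have hder : fderiv ℝ (c ∘ σ) 0 = (e : (Fin d → ℝ) →L[ℝ] E) := by
    refine ContinuousLinearMap.coe_injective (LinearMap.pi_ext fun a t => ?_)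
    simp only [ContinuousLinearMap.coe_coe]
    have h1 : HasDerivAt (fun s : ℝ => s • (Pi.single a 1 : Fin d → ℝ)) (Pi.single a 1) 0 := by
      simpa using (hasDerivAt_id (0 : ℝ)).smul_const (Pi.single a 1 : Fin d → ℝ)
    have h2 := HasFDerivAt.comp_hasDerivAt_of_eq (0 : ℝ) hstrict.hasFDerivAt h1 (by simp)
    have h3 : ((c ∘ σ) ∘ fun s : ℝ => s • (Pi.single a 1 : Fin d → ℝ)) = c ∘ φ a := by
      ext1 s; simp only [Function.comp_apply, hline]
    rw [h3] at h2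
    have h4 := h2.unique (lie_curve_deriv (v a) (φ a) (h0 a) (hφ a))
    have h5 : (Pi.single a t : Fin d → ℝ) = t • (Pi.single a 1 : Fin d → ℝ) := by
      rw [← Pi.single_smul]; simp
    rw [h5, map_smul, map_smul, h4]
    rfl
  rw [hder] at hstrict
  have hmap := hstrict.map_nhds_eq_of_equiv
  have hU : Metric.closedBall (0 : Fin d → ℝ) 1 ∩ σ ⁻¹' c.source ∈ 𝓝 (0 : Fin d → ℝ) := by
    refine inter_mem (Metric.closedBall_mem_nhds _ one_pos) ?_
    refine hsm.continuousAt.preimage_mem_nhds ?_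
    rw [hσ0]; exact extChartAt_source_mem_nhds _
  have himg : (c ∘ σ) '' (Metric.closedBall (0 : Fin d → ℝ) 1 ∩ σ ⁻¹' c.source) ∈ 𝓝 (c 1) := by
    have := image_mem_map (m := c ∘ σ) hU
    rwa [hmap, Function.comp_apply, hσ0] at this
  have hpre := (continuousAt_extChartAt (I := 𝓘(ℝ, E)) (1 : G)).preimage_mem_nhds himg
  filter_upwards [hpre, extChartAt_source_mem_nhds (I := 𝓘(ℝ, E)) (1 : G)] with g hg hg'
  obtain ⟨x, ⟨hx1, hx2⟩, hx3⟩ := hg
  exact ⟨x, hx1, c.injOn hx2 hg' hx3⟩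

end Pool.Agent.P.MP_fc4783_an
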