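import Pool.Agent.P.MP_fc4783_an.Fejer3
import Pool.Agent.P.MP_fc4783_an.Kron

/-! The Bohr-Fejer means and their properties. -/

namespace Pool.Agent.P.MP_fc4783_an

open Filter Topology Finset

open Classical in
/-- The properties of the family of means used in the construction. -/
structure Spec (θ : ℕ → ℝ) (ν : ℕ → ℕ → Mean) (n n' : ℤ → ℝ) (L : ℕ → ℝ → ℂ) : Prop where
  adm : ∀ K, Adm (ν K) n (L K)
  dom : ∀ K, ∃ C : ℝ, 0 ≤ C ∧ ∀ (i : ℕ) (g : ℤ → ℝ), (∀ s, 0 ≤ g s) →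
    (ν 0 i).avgR g ≤ C * (ν K i).avgR g
  triv : ∀ A : AddSubgroup ℝ, A.FG → ∃ K, ∀ x ∈ A, L K x = if ∃ z : ℤ, x = z then 1 else 0
  supp : ∀ i, ∀ j ∈ (ν 0 i).S, ∀ k, i ≤ k → dd ((ν 0 i).p j * θ k) = 0
  summ : ∀ s : ℤ, Summable fun k => dZ (s * (3 * θ k))
  moment : ∀ i, (ν 0 i).avgR (fun s => ∑' k, dZ (s * (3 * θ k))) ≤ 1 / 500
  fine : ∀ (h : ℤ) (I : ℕ), ∑ k ∈ range I, 48 * dZ (h * θ k) ≤ n h
  fine' : ∀ (h : ℤ) (I : ℕ), ∑ k ∈ range I, 16 * dZ (h * (3 * θ k)) ≤ n' h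
  inv' : ∀ (h : ℤ) (ε : ℝ), 0 < ε → ∀ᶠ i in atTop, ∀ ψ : ℤ → ℂ, (∀ s, ‖ψ s‖ ≤ 1) →
    ‖(ν 0 i).avg (fun s => ψ (s + h)) - (ν 0 i).avg ψ‖ ≤ n' h + ε
  typed : ∀ (k : ℕ) (ε : ℝ), 0 < ε → ∃ h : ℤ, n' h ≤ ε ∧
    ∀ l, dd (h * θ l) = if l = k then 1 else 0

/-- Orders of the kernels with the first `K` removed. -/
def mK (K k : ℕ) : ℕ := if k < K then 1 else mm k

lemma mK_pos (K k : ℕ) : 0 < mK K k := by
  unfold mK; split_ifs; exacts [one_pos, mm_pos k]

lemma mK_le (K k : ℕ) : mK K k ≤ mm k := by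
  unfold mK; split_ifs; exacts [mm_pos k, le_rfl]

lemma mK_zero : mK 0 = mm := by ext k; simp [mK]

section
variable {θ : ℕ → ℝ} {N : ℕ → ℕ} {η : ℕ → ℝ} (hD : Data WW θ N η)
include hD

lemma Data.Z_pos (K i : ℕ) :
    0 < (tent (N i) (hD.N_pos i)).avgR (Phi (mK K) (th3 θ) 0 i) := by
  rw [tent_avgR_Phi]; exact lt_of_lt_of_le one_pos (hD.one_le_Z (mK_pos K) i)

/-- The Bohr-Fejer means. -/
noncomputable def Data.nu (K i : ℕ) : Mean :=
  (tent (N i) (hD.N_pos i)).rew (Phi (mK K) (th3 θ) 0 i) (Phi_nonneg _ _ _ _) (hD.Z_pos K i)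

lemma Data.nu_ex (K i : ℕ) (x : ℝ) : (hD.nu K i).avg (fun s => ex (x * s)) =
    (((Bop (mK K) (th3 θ) (TN (N i)) i 0)⁻¹ * Bop (mK K) (th3 θ) (TN (N i)) i x : ℝ) : ℂ) := by
  rw [Data.nu, Mean.rew_avg, tent_Phi, tent_avgR_Phi]; push_cast; rfl

lemma Data.nu_inv (K : ℕ) (h : ℤ) (ε : ℝ) (hε : 0 < ε) : ∀ᶠ i in atTop, ∀ ψ : ℤ → ℂ,
    (∀ s, ‖ψ s‖ ≤ 1) → ‖(hD.nu K i).avg (fun s => ψ (s + h)) - (hD.nu K i).avg ψ‖
      ≤ nn' θ h + ε := by
  have h2 : Tendsto (fun i : ℕ => 2 * |(h : ℝ)| * (1 / 2 : ℝ) ^ i) atTop (𝓝 (2 * |(h : ℝ)| * 0)) :=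
    (tendsto_pow_atTop_nhds_zero_of_lt_one (by norm_num) (by norm_num)).const_mul _
  filter_upwards [h2.eventually (gt_mem_nhds (show 2 * |(h : ℝ)| * 0 < ε by simpa))] with i hi ψ hψ
  rw [Data.nu, Mean.rew_avg, Mean.rew_avg, ← mul_sub, norm_mul, norm_inv, Complex.norm_real,
    tent_avgR_Phi]
  have h1 := hD.one_le_Z (mK_pos K) i
  rw [Real.norm_of_nonneg (by linarith)]
  refine (mul_le_of_le_one_left (norm_nonneg _) (inv_le_one_of_one_le₀ h1)).trans ?_
  refine (hD.shift (mK_pos K) (mK_le K) i h ψ hψ).trans ?_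
  linarith [hD.sum_le_nn' h i]

lemma Data.nu_moment (i k : ℕ) :
    (hD.nu 0 i).avgR (fun s => dZ (s * th3 θ k)) ≤ (1 / 2) ^ (k + 10) := by
  have ha : (0 : ℝ) < 2 ^ (k + 10) := by positivity
  have hmm : (mm k : ℝ) = (2 ^ (k + 10)) ^ 2 := by
    unfold mm; push_cast; rw [← pow_mul, mul_comm, pow_mul]; norm_num
  rw [one_div, inv_pow]
  set a : ℝ := 2 ^ (k + 10) with ha'
  rcases lt_or_ge k i with hk | hk
  · have e1 := hD.nu_ex 0 i (th3 θ k)
    rw [mK_zero] at e1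
    have z1 := hD.one_le_Z mm_pos i
    have z2 := hD.Z_le mm_pos (fun _ => le_rfl) i
    have z3 : (1 / 2 : ℝ) ^ i / mm i ≤ 1 / mm k := by
      have := one_le_mm k
      gcongr
      · exact pow_le_one₀ (by norm_num) (by norm_num)
      · exact_mod_cast mm_mono hk.le
    have z4 := le_Bop_freq mm (th3 θ) mm_pos (TN (N i)) (TN_nonneg _) hk
    rw [TN_zero _ (hD.N_pos i), mul_one] at z4
    set Z := Bop mm (th3 θ) (TN (N i)) i 0
    set U := Bop mm (th3 θ) (TN (N i)) i (th3 θ k)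
    have e2 : (hD.nu 0 i).avgR (fun s => (ex (th3 θ k * s)).re) = Z⁻¹ * U := by
      have := congrArg Complex.re e1
      rw [Complex.ofReal_re] at this
      rw [← this]; simp [Mean.avg, Mean.avgR]
    have hq : 0 < 1 / (mm k : ℝ) := by have := one_le_mm k; positivity
    have e3 : 1 - 2 * (1 / mm k) ≤ Z⁻¹ * U := by
      rw [← div_eq_inv_mul, le_div_iff₀ (by linarith)]
      by_cases hc : 0 ≤ 1 - 2 * (1 / (mm k : ℝ))
      · nlinarith
      · have : 0 ≤ U := Bop_nonneg _ _ _ (TN_nonneg _) _ _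
        nlinarith
    calc _ ≤ (hD.nu 0 i).avgR (fun s => a / 8 * (1 - (ex (th3 θ k * s)).re) + 1 / (4 * a)) := by
          refine Mean.avgR_mono _ fun s => ?_
          have b1 := eight_dZ_sq_le (s * th3 θ k)
          rw [mul_comm (th3 θ k)]
          have b2 : dZ (s * th3 θ k) ≤ a * dZ (s * th3 θ k) ^ 2 + 1 / (4 * a) := by
            have : a * dZ (s * th3 θ k) ^ 2 + 1 / (4 * a) - dZ (s * th3 θ k)
                = (2 * a * dZ (s * th3 θ k) - 1) ^ 2 / (4 * a) := by field_simp; ring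
            have : 0 ≤ (2 * a * dZ (s * th3 θ k) - 1) ^ 2 / (4 * a) := by positivity
            linarith
          nlinarith
      _ = a / 8 * (1 - Z⁻¹ * U) + 1 / (4 * a) := by
          rw [Mean.avgR_add, Mean.avgR_const_mul, Mean.avgR_sub, Mean.avgR_const,
            Mean.avgR_const, e2]
      _ ≤ a / 8 * (2 * (1 / mm k)) + 1 / (4 * a) := by gcongr; linarith
      _ = a⁻¹ / 2 := by rw [hmm]; field_simp; norm_num
      _ ≤ a⁻¹ := half_le_self (by positivity)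
  · rw [← (hD.nu 0 i).avgR_const a⁻¹]
    refine Mean.avgR_mono_on _ fun j hj => (dZ_le_abs _).trans ?_
    have b1 : |(((hD.nu 0 i).p j : ℤ) : ℝ)| ≤ N k :=
      (tent_supp (N i) (hD.N_pos i) j hj).trans (by exact_mod_cast hD.N_mono hk)
    have b2 := hD.N_mul_θ k
    have b3 : 3 * a ≤ WW k := by
      have := WW_ge k 1 1 3 a 1 zero_le_one (by norm_num) ha.le zero_le_one
        (one_le_pow₀ one_le_two) (one_le_add_two k) (by norm_num) (by
          have : (1 : ℝ) ≤ a := one_le_pow₀ one_le_two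
          rw [hmm]; nlinarith [sq_nonneg (a ^ 2 - 1)]) (one_le_MM _)
      linarith
    rw [abs_mul, th3, abs_mul, show |(3 : ℝ)| = 3 by norm_num]
    calc _ ≤ N k * (3 * |θ k|) := by gcongr
      _ = 3 * (N k * |θ k|) := by ring
      _ ≤ 3 * (1 / (3 * a)) := by
          gcongr; refine b2.trans ?_; gcongr; exact hD.η_le_one k
      _ = a⁻¹ := by field_simp

end

theorem exists_spec : ∃ θ ν n n' L, Spec θ ν n n' L := by
  classical
  obtain ⟨θ, N, η, hD⟩ := exists_data WW WW_pos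
  choose l hl using fun K x => hD.U_tendsto (mK_pos K) (mK_le K) x
  have hlim : ∀ K x, Tendsto (fun i => (hD.nu K i).avg fun s => ex (x * s)) atTop
      (𝓝 (l K x : ℂ)) := by
    intro K x
    simp only [hD.nu_ex]
    have := ((hD.Z_tendsto (mK_pos K) (mK_le K)).inv₀ one_ne_zero).mul (hl K x)
    rw [inv_one, one_mul] at this
    exact (Complex.continuous_ofReal.tendsto _).comp this
  have hsum : ∀ s : ℤ, Summable fun k => dZ (s * th3 θ k) := fun s =>
    Summable.of_nonneg_of_le (fun _ => dZ_nonneg _) (fun k => le_mul_of_one_le_left (dZ_nonneg _)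
      (by nlinarith [one_le_mm_sq k])) (hD.summable_nn' s)
  refine ⟨θ, hD.nu, nn θ, nn' θ, fun K x => (l K x : ℂ), fun K => ⟨?_, ?_, hD.nn_sub, ?_,
    hD.inf_nn, hlim K, ?_⟩, ?_, ?_, ?_, hsum, ?_, ?_, ?_, hD.nu_inv 0, ?_⟩
  · exact fun h => tsum_nonneg fun _ => mul_nonneg (by positivity) (dZ_nonneg _)
  · simp [nn]
  · intro h ε hε
    filter_upwards [hD.nu_inv K h ε hε] with i hi ψ hψ
    linarith [hi ψ hψ, hD.nn'_le h]
  · intro A hA ε hε
    refine (hD.finite_rep (mK_le K) A hA).subset fun x ⟨h1, h2, h3⟩ => ⟨h1, h2, ?_⟩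
    refine hD.rep (mK_pos K) (mK_le K) x (l K x) ?_ (hl K x)
    intro h0; simp [h0] at h3; linarith
  · intro K
    refine ⟨2 * MM mm K, by have := MM_nonneg mm K; positivity, fun i g hg => ?_⟩
    simp only [Data.nu, Mean.rew_avgR, tent_avgR_Phi]
    have z1 := hD.one_le_Z (mK_pos 0) i
    have z2 := hD.one_le_Z (mK_pos K) i
    have z3 := hD.Z_le_two (mK_pos K) (mK_le K) i
    have hP : ∀ s, Phi (mK 0) (th3 θ) 0 i s ≤ MM mm K * Phi (mK K) (th3 θ) 0 i s := by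
      intro s
      have a1 : Phi (mK 0) (th3 θ) 0 i s ≤ (∏ k ∈ range i, if k < K then (mm k : ℝ) else 1) *
          Phi (mK K) (th3 θ) 0 i s := by
        rw [Phi, Phi, ← prod_mul_distrib]
        refine prod_le_prod (fun _ _ => Fj_nonneg _ _) fun k _ => ?_
        by_cases hk : k < K
        · simp only [mK, hk, if_true, Fj_one, mul_one, Nat.not_lt_zero, if_false]
          exact Fj_le _ _
        · simp [mK, hk]
      refine a1.trans (mul_le_mul_of_nonneg_right ?_ (Phi_nonneg _ _ _ _ _))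
      rw [← prod_filter]
      exact prod_le_prod_of_subset_of_one_le (fun k hk => mem_range.2 (mem_filter.1 hk).2)
        (fun _ _ => by positivity) fun k _ _ => one_le_mm k
    have a2 : 0 ≤ (tent (N i) (hD.N_pos i)).avgR fun s => Phi (mK K) (th3 θ) 0 i s * g s :=
      Mean.avgR_nonneg _ fun s => mul_nonneg (Phi_nonneg _ _ _ _ _) (hg s)
    have a3 : ((tent (N i) (hD.N_pos i)).avgR fun s => Phi (mK 0) (th3 θ) 0 i s * g s) ≤
        MM mm K * (tent (N i) (hD.N_pos i)).avgR fun s => Phi (mK K) (th3 θ) 0 i s * g s := by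
      rw [← Mean.avgR_const_mul]
      exact Mean.avgR_mono _ fun s => by rw [← mul_assoc]; gcongr; exacts [hg s, hP s]
    have a4 : (1 : ℝ) ≤ 2 * (Bop (mK K) (th3 θ) (TN (N i)) i 0)⁻¹ := by
      rw [← div_eq_mul_inv, le_div_iff₀ (by linarith)]; linarith
    have a5 := MM_nonneg mm K
    calc _ ≤ 1 * (MM mm K *
          (tent (N i) (hD.N_pos i)).avgR fun s => Phi (mK K) (th3 θ) 0 i s * g s) := by
          gcongr
          · exact Mean.avgR_nonneg _ fun s => mul_nonneg (Phi_nonneg _ _ _ _ _) (hg s)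
          · exact inv_le_one_of_one_le₀ z1
      _ ≤ 2 * (Bop (mK K) (th3 θ) (TN (N i)) i 0)⁻¹ * (MM mm K *
          (tent (N i) (hD.N_pos i)).avgR fun s => Phi (mK K) (th3 θ) 0 i s * g s) := by gcongr
      _ = _ := by ring
  · intro A hA
    have hA' : (A ⊔ AddSubgroup.closure {1}).FG :=
      hA.sup ((AddSubgroup.fg_iff _).2 ⟨_, rfl, Set.finite_singleton _⟩)
    obtain ⟨K, hK⟩ := hD.exists_K _ hA'
    refine ⟨K, fun x hx => ?_⟩
    split_ifs with hz
    · obtain ⟨z, rfl⟩ := hz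
      refine tendsto_nhds_unique (hlim K z) ?_
      have : ∀ i, ((hD.nu K i).avg fun s => ex ((z : ℝ) * s)) = 1 := fun i => by
        rw [← (hD.nu K i).avg_const 1]; congr 1; ext s
        rw [← Int.cast_mul, ex_int]
      simp only [this]; exact tendsto_const_nhds
    · by_contra h0
      obtain ⟨w, z, h1, h2⟩ := hD.rep (mK_pos K) (mK_le K) x (l K x)
        (fun h => h0 (by simp [h])) (hl K x)
      have h1' : (1 : ℝ) ∈ AddSubgroup.closure ({1} : Set ℝ) :=
        AddSubgroup.subset_closure (Set.mem_singleton _)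
      have := hK 1 w (box_real (mK_le K) fun k => (h1 k).le) (by
        rw [show ∑' k, w k * th3 θ k = z • (1 : ℝ) - x by rw [zsmul_eq_mul]; linarith]
        exact AddSubgroup.sub_mem _ (AddSubgroup.mem_sup_right (AddSubgroup.zsmul_mem _ h1' z))
          (AddSubgroup.mem_sup_left hx)) fun k hk => by
        have := h1 k
        simp only [mK, hk, if_true] at this
        exact Int.abs_lt_one_iff.1 (by exact_mod_cast this)
      exact hz ⟨z, by simpa [this] using h2⟩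
  · intro i j hj k hk
    have b1 : |(((hD.nu 0 i).p j : ℤ) : ℝ)| ≤ N k :=
      (tent_supp (N i) (hD.N_pos i) j hj).trans (by exact_mod_cast hD.N_mono hk)
    have b3 : 48 ≤ WW k := by
      simpa using WW_ge k 1 1 48 1 1 zero_le_one (by norm_num) zero_le_one zero_le_one
        (one_le_pow₀ one_le_two) (one_le_add_two k) le_rfl (one_le_mm_sq k) (one_le_MM _)
    have b4 : |((hD.nu 0 i).p j : ℝ) * θ k| ≤ 1 / 48 := by
      rw [abs_mul]
      calc _ ≤ N k * |θ k| := by gcongr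
        _ ≤ 1 / 48 := (hD.N_mul_θ k).trans (by gcongr; exact hD.η_le_one k)
    have b5 := abs_le.1 b4
    have : round (3 * (((hD.nu 0 i).p j : ℝ) * θ k)) = 0 := by
      rw [round_eq_zero_iff]; constructor <;> linarith [b5.1, b5.2]
    simp [dd, this]
  · intro i
    have h1 : Tendsto (fun I => (hD.nu 0 i).avgR fun s => ∑ k ∈ range I, dZ (s * th3 θ k)) atTop
        (𝓝 ((hD.nu 0 i).avgR fun s => ∑' k, dZ (s * th3 θ k))) :=
      tendsto_finsetSum _ fun j _ => (hsum _).hasSum.tendsto_sum_nat.const_mul _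
    refine le_of_tendsto' h1 fun I => ?_
    rw [Mean.avgR_sum]
    calc _ ≤ ∑ k ∈ range I, (1 / 2 : ℝ) ^ 10 * (1 / 2) ^ k :=
          sum_le_sum fun k _ => (hD.nu_moment i k).trans (le_of_eq (by ring))
      _ ≤ (1 / 2 : ℝ) ^ 10 * 2 := by rw [← mul_sum]; gcongr; exact sum_geometric_two_le I
      _ ≤ _ := by norm_num
  · intro h I
    refine le_trans (sum_le_sum fun k _ => ?_) (hD.sum_le_nn h I)
    have := dZ_nonneg (h * θ k)
    gcongr; nlinarith [one_le_mm_sq k]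
  · intro h I
    refine le_trans (sum_le_sum fun k _ => ?_) (hD.sum_le_nn' h I)
    have := dZ_nonneg (h * (3 * θ k))
    unfold th3
    gcongr; nlinarith [one_le_mm_sq k]
  · intro k ε hε
    obtain ⟨h, h1, _, h3⟩ := hD.typed k ε hε
    exact ⟨h, h1, h3⟩

end Pool.Agent.P.MP_fc4783_an
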