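import Pool.Agent.P.MP_fc4783_an.Pure
import Pool.Agent.P.MP_fc4783_an.FA

/-! The theta-function model: such sequences are structured. -/

namespace Pool.Agent.P.MP_fc4783_an

open Filter Topology Finset

lemma model_basis {ι : Type} [Finite ι] (x : ι → ℝ) : ∃ (e : ℕ) (γ : Fin e → ℝ) (U : ι → Fin e → ℤ),
    LinearIndependent ℚ γ ∧ ∀ i, ∑ j, (U i j : ℝ) * γ j = x i := by
  have : Module.Finite ℤ (Submodule.span ℤ (Set.range x)) :=
    Module.Finite.span_of_finite ℤ (Set.finite_range x)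
  let b := Module.finBasis ℤ (Submodule.span ℤ (Set.range x))
  refine ⟨_, fun j => b j, fun i j => b.repr ⟨x i, Submodule.subset_span ⟨i, rfl⟩⟩ j, ?_,
    fun i => ?_⟩
  · rw [← LinearIndependent.iff_fractionRing ℤ ℚ]
    exact b.linearIndependent.map' (Submodule.subtype _) (Submodule.ker_subtype _)
  · have := congrArg Subtype.val (b.sum_repr ⟨x i, Submodule.subset_span ⟨i, rfl⟩⟩)
    simpa only [Submodule.coe_sum, Submodule.coe_smul_of_tower, zsmul_eq_mul] using this

/-- A continuous section of the basic theta bundle. -/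
noncomputable def modelG (P q : ℝ) : ℂ := ex (P * q / 2) *
  ((1 - Int.fract q : ℝ) * ex (-(⌊q⌋ * P)) + (Int.fract q : ℝ) * ex (-((⌊q⌋ + 1) * P)))

lemma model_cont : Continuous fun w : ℝ × ℝ => modelG w.1 w.2 := by
  have hex := continuous_ex
  have h := ContinuousOn.comp_fract (s := fun w : ℝ × ℝ => w.2)
    (f := fun (w : ℝ × ℝ) (r : ℝ) => ((1 - r : ℝ) : ℂ) * ex (-((w.2 - r) * w.1)) +
      (r : ℝ) * ex (-((w.2 - r + 1) * w.1)))
    (Continuous.continuousOn (by unfold Function.uncurry; fun_prop)) continuous_snd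
    (fun w => by simp)
  simp only [Int.self_sub_fract] at h
  exact (hex.comp (by fun_prop)).mul h

lemma model_aut (P q : ℝ) (a b : ℤ) :
    modelG (P + a) (q + b) = ex (a * b / 2 + (a * q - b * P) / 2) * modelG P q := by
  unfold modelG
  rw [Int.fract_add_intCast, Int.floor_add_intCast]
  have e1 : ex (-(((⌊q⌋ + b : ℤ) : ℝ) * (P + a))) = ex (-(b * P)) * ex (-(⌊q⌋ * P)) := by
    rw [← ex_add, ← ex_add_int _ ((⌊q⌋ + b) * a)]
    congr 1
    push_cast
    ring
  have e2 : ex (-((((⌊q⌋ + b : ℤ) : ℝ) + 1) * (P + a))) =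
      ex (-(b * P)) * ex (-((⌊q⌋ + 1) * P)) := by
    rw [← ex_add, ← ex_add_int _ ((⌊q⌋ + b + 1) * a)]
    congr 1
    push_cast
    ring
  have e3 : ex ((P + a) * (q + b) / 2) * ex (-(b * P)) =
      ex (a * b / 2 + (a * q - b * P) / 2) * ex (P * q / 2) := by
    rw [← ex_add, ← ex_add]
    congr 1
    ring
  rw [e1, e2]
  linear_combination ((1 - Int.fract q : ℝ) * ex (-(⌊q⌋ * P)) +
    (Int.fract q : ℝ) * ex (-((⌊q⌋ + 1) * P))) * e3

lemma model_int (α : ℝ) (s : ℤ) : modelG (-2 * α * s) s = ex (α * s ^ 2) := by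
  unfold modelG
  simp only [Int.fract_intCast, Int.floor_intCast, sub_zero, Complex.ofReal_one, one_mul,
    Complex.ofReal_zero, zero_mul, add_zero]
  rw [← ex_add]
  congr 1
  ring

lemma model_flat {ι : Type} [Fintype ι] [DecidableEq ι] (γ : ι → ℝ) (c : ι → ℝ)
    (f : (ι → ℝ) → ℂ) (hf : Continuous f)
    (haut : ∀ t j, f (t + Pi.single j 1) = ex (c j) * f t) {A : AddSubgroup ℝ}
    (h1 : ∀ j, γ j ∈ A) (h2 : ∀ j, c j * γ j ∈ A) : Str A fun s : ℤ => f ((s : ℝ) • γ) := by
  have hex := continuous_ex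
  let g : (ι → ℝ) → ℂ := fun t => ex (-∑ j, c j * t j) * f t
  have hg : Continuous g := (hex.comp (by fun_prop)).mul hf
  have hp : ∀ j, Function.Periodic g (Pi.single j 1) := fun j t => by
    simp only [g, haut, Pi.add_apply, mul_add, sum_add_distrib, ← mul_assoc, ← ex_add]
    congr 2
    simp [Pi.single_apply]
  have hper : ∀ (v : ι → ℤ), Function.Periodic g fun a => (v a : ℝ) := by
    intro v
    have e : (fun a => (v a : ℝ)) = ∑ j, v j • (Pi.single j 1 : ι → ℝ) := by
      funext a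
      simp [Pi.single_apply, Finset.sum_apply]
    rw [e]
    exact Finset.sum_induction _ (fun w => Function.Periodic g w) (fun _ _ h h' => h.add_period h')
      (fun t => by rw [add_zero]) fun j _ => (hp j).zsmul (v j)
  obtain ⟨Ψ, -, -, hΨ⟩ := fourier_approx (X := Unit) (fun z _ => g z) (hg.comp continuous_fst)
    fun z _ v => hper v z
  have h3 : Str A fun s : ℤ => g ((s : ℝ) • γ) := Str.of_approx fun ε hε => by
    obtain ⟨S, d, h⟩ := hΨ ε hε
    refine ⟨fun s => ∑ k ∈ S, d k * Ψ k () * ex ((∑ a, k a * γ a) * s),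
      Str.sum S _ fun k _ => (Str.of_TP (ex_mem_TP (A.sum_mem fun a _ => ?_))).const_mul _,
      fun s => le_trans (le_of_eq ?_) (h ((s : ℝ) • γ) ())⟩
    · rw [← zsmul_eq_mul]
      exact A.zsmul_mem (h1 a) _
    · congr 2
      refine sum_congr rfl fun k _ => ?_
      rw [mul_right_comm, sum_mul]
      congr 3
      refine sum_congr rfl fun a _ => ?_
      simp only [Pi.smul_apply, smul_eq_mul]
      ring
  have h4 := h3.mul_ex (A.sum_mem fun j (_ : j ∈ univ) => h2 j)
  refine (congrArg (Str A) ?_).mp h4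
  funext s
  simp only [g, ← mul_assoc, ← ex_add]
  rw [sum_mul, ← sub_eq_add_neg, ← sum_sub_distrib, sum_eq_zero, ex_zero, one_mul]
  intro j _
  simp only [Pi.smul_apply, smul_eq_mul]
  ring

/-- The linear form with integer coefficients `u`. -/
noncomputable def modelL {ι : Type} [Fintype ι] (u : ι → ℤ) : (ι → ℝ) →ₗ[ℝ] ℝ :=
  ∑ j, (u j : ℝ) • LinearMap.proj j

lemma modelL_apply {ι : Type} [Fintype ι] (u : ι → ℤ) (t : ι → ℝ) :
    modelL u t = ∑ j, u j * t j := by
  simp [modelL]

lemma modelL_int {ι : Type} [Fintype ι] (u v : ι → ℤ) :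
    modelL u (fun a => (v a : ℝ)) = ((∑ j, u j * v j : ℤ) : ℝ) := by
  simp [modelL_apply]

theorem model_str {n N : ℕ} (B : (Fin n → ℝ) →ₗ[ℝ] (Fin n → ℝ) →ₗ[ℝ] (Fin N → ℝ))
    (T : (Fin n → ℤ) → Fin N → ℝ) (β x₀ : Fin n → ℝ) (Z₀ Z₁ Z₂ : Fin N → ℝ) :
    ∃ A : AddSubgroup ℝ, A.FG ∧ ∀ (k : Fin N → ℤ) (f : (Fin n → ℝ) → ℂ), Continuous f →
      (∀ (t : Fin n → ℝ) (v : Fin n → ℤ), f (t + fun a => (v a : ℝ)) =
        ex (∑ a, k a * (T v + B t fun a => (v a : ℝ)) a) * f t) →
      Str A (fun s : ℤ => ex (∑ a, k a * (Z₀ + (s : ℝ) • Z₁ + ((s : ℝ) ^ 2) • Z₂) a) *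
        f ((s : ℝ) • β + x₀)) := by
  have hex := continuous_ex
  obtain ⟨e, γ, U, hγ, hU⟩ := model_basis (ι := Option (Fin n ⊕ Fin N))
    fun o => o.elim 1 (Sum.elim β fun a => -2 * (Z₂ + (1 / 2 : ℝ) • B β β) a)
  let L : (Fin e → ℝ) →ₗ[ℝ] Fin n → ℝ := LinearMap.pi fun i => modelL (U (some (.inl i)))
  let Li : (Fin e → ℤ) → Fin n → ℤ := fun w i => ∑ j, U (some (.inl i)) j * w j
  have hL : ∀ w : Fin e → ℤ, L (fun a => (w a : ℝ)) = fun i => (Li w i : ℝ) := fun w =>
    funext fun i => modelL_int _ _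
  have hLγ : L γ = β := funext fun i => (modelL_apply _ _).trans (hU (some (.inl i)))
  have hq : modelL (U none) γ = 1 := (modelL_apply _ _).trans (hU none)
  let T' : (Fin n → ℤ) → Fin N → ℝ := fun v => T v + B x₀ (fun a => (v a : ℝ)) -
    (1 / 2 : ℝ) • B (fun a => (v a : ℝ)) fun a => (v a : ℝ)
  let s₀ : Set ℝ := Set.range Z₁ ∪ (Set.range (fun j => γ j / 2) ∪
    Set.range fun w : Fin e × Fin N => T' (Li (Pi.single w.1 1)) w.2 * γ w.1)
  refine ⟨AddSubgroup.closure s₀, (AddSubgroup.fg_iff _).2 ⟨s₀, rfl,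
    (Set.finite_range _).union ((Set.finite_range _).union (Set.finite_range _))⟩,
    fun k f hf haut => ?_⟩
  set A := AddSubgroup.closure s₀
  have hzA : ∀ (m : ℤ) {x : ℝ}, x ∈ A → (m : ℝ) * x ∈ A := fun m x hx => by
    rw [← zsmul_eq_mul]
    exact A.zsmul_mem hx m
  have hA1 : ∀ a, Z₁ a ∈ A := fun a => AddSubgroup.subset_closure (Or.inl ⟨a, rfl⟩)
  have hA2 : ∀ j, γ j / 2 ∈ A := fun j => AddSubgroup.subset_closure (Or.inr (Or.inl ⟨j, rfl⟩))
  have hA3 : ∀ j a, T' (Li (Pi.single j 1)) a * γ j ∈ A := fun j a =>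
    AddSubgroup.subset_closure (Or.inr (Or.inr ⟨(j, a), rfl⟩))
  let K := modelL k
  let u : Fin e → ℤ := fun j => ∑ a, k a * U (some (.inr a)) j
  have hP : modelL u γ = -2 * K (Z₂ + (1 / 2 : ℝ) • B β β) := by
    simp only [modelL_apply, K, u, Int.cast_sum, Int.cast_mul, sum_mul, mul_sum]
    rw [sum_comm]
    refine sum_congr rfl fun a _ => ?_
    have := hU (some (.inr a))
    simp only [Option.elim, Sum.elim_inr] at this
    simp only [mul_assoc, ← mul_sum, this]
    ring
  let g : (Fin e → ℝ) → ℂ := fun t => f (L t + x₀) * ex (-(K (B (L t) (L t)) / 2)) *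
    modelG (modelL u t) (modelL (U none) t)
  have hLc := L.continuous_of_finiteDimensional
  have hBc : Continuous fun t : Fin n → ℝ => K (B t t) := by
    have h1 : (fun t : Fin n → ℝ => K (B t t)) =
        fun t => ∑ i, t i * K (B (Pi.single i 1) t) := by
      funext t
      nth_rewrite 1 [pi_eq_sum_univ' t]
      simp only [map_sum, map_smul, LinearMap.sum_apply, LinearMap.smul_apply, smul_eq_mul]
    rw [h1]
    exact continuous_finsetSum _ fun i _ => (continuous_apply i).mul
      (K ∘ₗ B (Pi.single i 1)).continuous_of_finiteDimensional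
  have hg : Continuous g := by
    have g1 : Continuous fun t => f (L t + x₀) := hf.comp (hLc.add continuous_const)
    have g2 : Continuous fun t => K (B (L t) (L t)) :=
      Continuous.comp (g := fun t => K (B t t)) hBc hLc
    have g3 : Continuous fun t => ex (-(K (B (L t) (L t)) / 2)) :=
      Continuous.comp (g := ex) hex (g2.div_const 2).neg
    have g4 : Continuous fun t => modelG (modelL u t) (modelL (U none) t) :=
      Continuous.comp (g := fun w : ℝ × ℝ => modelG w.1 w.2)
        (f := fun t => (modelL u t, modelL (U none) t)) model_cont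
        ((modelL u).continuous_of_finiteDimensional.prodMk
          (modelL (U none)).continuous_of_finiteDimensional)
    exact (g1.mul g3).mul g4
  let ω : (Fin e → ℝ) →ₗ[ℝ] (Fin e → ℝ) →ₗ[ℝ] ℝ :=
    ((B.compr₂ K).flip - B.compr₂ K).compl₁₂ L L +
      (LinearMap.mul ℝ ℝ).compl₁₂ (modelL u) (modelL (U none)) -
      (LinearMap.mul ℝ ℝ).compl₁₂ (modelL (U none)) (modelL u)
  have hω : ∀ w t, ω w t = K (B (L t) (L w)) - K (B (L w) (L t)) +
      modelL u w * modelL (U none) t - modelL (U none) w * modelL u t := fun w t => rfl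
  let c : (Fin e → ℤ) → ℝ := fun w => K (T' (Li w)) +
    ((∑ j, u j * w j : ℤ) : ℝ) * ((∑ j, U none j * w j : ℤ) : ℝ) / 2
  have hga : ∀ (t : Fin e → ℝ) (w : Fin e → ℤ), g (t + fun a => (w a : ℝ)) =
      ex (c w + ω (fun a => (w a : ℝ)) t / 2) * g t := by
    intro t w
    have h1 := haut (L t + x₀) (Li w)
    rw [← modelL_apply k, add_right_comm] at h1
    simp only [g, hω, c, T', map_add L, map_add (modelL u), map_add (modelL (U none)), hL,
      modelL_int, model_aut, h1]
    have h2 : ∀ a b c d x : ℝ, ∀ y z : ℂ, a + b + c = d + x →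
        ex a * y * ex b * (ex c * z) = ex d * (y * ex x * z) := by
      intro a b c d x y z h
      have := congrArg ex h
      rw [ex_add, ex_add, ex_add] at this
      linear_combination y * z * this
    apply h2
    simp only [K, map_add, map_sub, map_smul, LinearMap.add_apply, smul_eq_mul]
    ring
  have h3 : Str A fun s : ℤ => g ((s : ℝ) • γ) := by
    by_cases h0 : ω = 0
    · refine model_flat γ (fun j => c (Pi.single j 1)) g hg (fun t j => ?_) (fun j => ?_)
        fun j => ?_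
      · have := hga t (Pi.single j 1)
        rw [h0] at this
        have e1 : (fun a => (((Pi.single j 1 : Fin e → ℤ) a : ℤ) : ℝ)) = Pi.single j 1 := by
          funext a
          simp [Pi.single_apply]
        simpa [e1] using this
      · simpa using A.add_mem (hA2 j) (hA2 j)
      · simp only [c, K, modelL_apply, add_mul, sum_mul]
        refine A.add_mem (A.sum_mem fun a _ => ?_) ?_
        · rw [mul_assoc]
          exact hzA _ (hA3 j a)
        · rw [← Int.cast_mul, div_mul_eq_mul_div, mul_div_assoc]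
          exact hzA _ (hA2 j)
    · exact Str.of_null (pure_model γ hγ ω (fun x => by rw [hω]; ring) h0 c g hg hga)
  have h4 := (h3.mul_ex (y := K Z₁) (by
    simp only [K, modelL_apply]
    exact A.sum_mem fun a _ => hzA _ (hA1 a))).const_mul (ex (K Z₀))
  refine (congrArg (Str A) ?_).mp h4
  funext s
  have e1 : modelL u ((s : ℝ) • γ) = -2 * K (Z₂ + (1 / 2 : ℝ) • B β β) * s := by
    rw [map_smul, hP, smul_eq_mul, mul_comm]
  have e2 : modelL (U none) ((s : ℝ) • γ) = s := by rw [map_smul, hq, smul_eq_mul, mul_one]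
  simp only [g, e1, e2, model_int, map_smul L, hLγ, ← modelL_apply k]
  have h2 : ∀ a b c d x : ℝ, ∀ y : ℂ, a + b + c + d = x →
      ex a * (ex b * (y * ex c * ex d)) = ex x * y := by
    intro a b c d x y h
    rw [← h, ex_add, ex_add, ex_add]
    ring
  apply h2
  simp only [K, map_add, map_smul, LinearMap.smul_apply, smul_eq_mul]
  ring

end Pool.Agent.P.MP_fc4783_an
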