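import Pool.Agent.P.MP_fc4783_an.Nil1

/-!
Coordinates on a compact homogeneous space of a two-step nilpotent group: `nil_model`.
-/

namespace Pool.Agent.P.MP_fc4783_an

open Filter Topology Set

section

variable {G : Type} [Group G] (h2 : ∀ a b c : G, Commute (a * b * a⁻¹ * b⁻¹) c)
  {d : ℕ} (φ : Fin d → ℝ → G) (hφ : ∀ a s t, φ a (s + t) = φ a s * φ a t)

/-- Coordinates of the second kind. -/
def nil_s (x : Fin d → ℝ) : G := (List.ofFn fun a => φ a (x a)).prod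

/-- The central defect of `nil_s`. -/
noncomputable def nil_g (x x' : Fin d → ℝ) : NilC G :=
  ∑ a, ∑ b, if b < a then nil_cm h2 (nil_s φ (Pi.single a (x a))) (nil_s φ (Pi.single b (x' b)))
    else 0

include hφ in
lemma nil_s_mul (x x' : Fin d → ℝ) :
    nil_s φ x * nil_s φ x' = nil_s φ (x + x') * nil_cv (nil_g h2 φ x x') := by
  unfold nil_g nil_s
  simp only [nil_single φ (nil_zero φ hφ), Pi.add_apply, hφ]
  exact nil_prod_mul h2 _ _

include hφ in
lemma nil_s_zero : nil_s φ 0 = 1 := by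
  simp [nil_s, nil_zero φ hφ]

include hφ in
lemma nil_s_add (x x' : Fin d → ℝ) :
    nil_s φ (x + x') = nil_s φ x * nil_s φ x' * nil_cv (-nil_g h2 φ x x') := by
  rw [nil_s_mul h2 φ hφ, nil_cv_neg]; group

/-- Commutator with a fixed element, as an additive map of the coordinates. -/
def nil_E (h : G) : (Fin d → ℝ) →+ NilC G :=
  AddMonoidHom.mk' (fun x => nil_cm h2 (nil_s φ x) h) fun x x' => by
    rw [nil_s_add h2 φ hφ, nil_cm_mul_left, nil_cm_mul_left, nil_cm_cv_left, add_zero]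

lemma nil_E_apply (h : G) (x : Fin d → ℝ) : nil_E h2 φ hφ h x = nil_cm h2 (nil_s φ x) h := rfl

lemma nil_E_swap (x x' : Fin d → ℝ) :
    nil_E h2 φ hφ (nil_s φ x') x = -nil_E h2 φ hφ (nil_s φ x) x' := nil_cm_swap h2 _ _

lemma nil_balance_rat (x u : Fin d → ℝ) (q : ℚ) :
    nil_E h2 φ hφ (nil_s φ ((q : ℝ) • u)) x = nil_E h2 φ hφ (nil_s φ u) ((q : ℝ) • x) := by
  have hden : (q.den : ℝ) ≠ 0 := by exact_mod_cast q.den_nz
  have hq : ∀ w : Fin d → ℝ, (q : ℝ) • w = q.num • ((q.den : ℝ)⁻¹ • w) := by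
    intro w
    rw [← Int.cast_smul_eq_zsmul ℝ, smul_smul, Rat.cast_def, div_eq_mul_inv]
  have hd : ∀ w : Fin d → ℝ, w = q.den • ((q.den : ℝ)⁻¹ • w) := by
    intro w
    rw [← Nat.cast_smul_eq_nsmul ℝ, smul_smul, mul_inv_cancel₀ hden, one_smul]
  have h1 : nil_E h2 φ hφ (nil_s φ ((q.den : ℝ)⁻¹ • u)) x =
      nil_E h2 φ hφ (nil_s φ u) ((q.den : ℝ)⁻¹ • x) := by
    conv_lhs => rw [hd x, map_nsmul, nil_E_swap, smul_neg, ← map_nsmul, ← hd u, ← nil_E_swap]
  rw [nil_E_swap, hq u, map_zsmul, ← smul_neg, ← nil_E_swap, h1, ← map_zsmul, ← hq x]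

variable [TopologicalSpace G] [IsTopologicalGroup G] (hφc : ∀ a, Continuous (φ a))

include hφc in
lemma nil_s_continuous : Continuous (nil_s φ) := nil_continuous_prod φ hφc

include hφc in
lemma nil_E_continuous (h : G) : Continuous fun x => nil_cv (nil_E h2 φ hφ h x) := by
  simp only [nil_E_apply, nil_cv_cm]
  have := nil_s_continuous φ hφc
  fun_prop

include hφc in
lemma nil_balance [T2Space G] (x u : Fin d → ℝ) (t : ℝ) :
    nil_E h2 φ hφ (nil_s φ (t • u)) x = nil_E h2 φ hφ (nil_s φ u) (t • x) := by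
  apply nil_cv_inj
  have hs := nil_s_continuous φ hφc
  have c1 : Continuous fun t : ℝ => nil_cv (nil_E h2 φ hφ (nil_s φ (t • u)) x) := by
    simp only [nil_E_apply, nil_cv_cm]
    fun_prop
  have c2 : Continuous fun t : ℝ => nil_cv (nil_E h2 φ hφ (nil_s φ u) (t • x)) := by
    simp only [nil_E_apply, nil_cv_cm]
    fun_prop
  refine Rat.denseRange_cast.induction_on t (isClosed_eq c1 c2) fun q => ?_
  rw [nil_balance_rat]

end

section

variable {G : Type} [Group G] (h2 : ∀ a b c : G, Commute (a * b * a⁻¹ * b⁻¹) c)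
  {d : ℕ} (φ : Fin d → ℝ → G) (hφ : ∀ a s t, φ a (s + t) = φ a s * φ a t)

/-- The central subgroup generated by commutators of coordinate elements. -/
def nil_K : AddSubgroup (NilC G) :=
  AddSubgroup.closure {z | ∃ x x', z = nil_cm h2 (nil_s φ x) (nil_s φ x')}

lemma nil_g_mem (x x' : Fin d → ℝ) : nil_g h2 φ x x' ∈ nil_K h2 φ := by
  refine AddSubgroup.sum_mem _ fun a _ => AddSubgroup.sum_mem _ fun b _ => ?_
  split_ifs
  · exact AddSubgroup.subset_closure ⟨_, _, rfl⟩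
  · exact AddSubgroup.zero_mem _

include hφ in
lemma nil_mul_eq (x x' : Fin d → ℝ) (z z' : NilC G) :
    nil_s φ x * nil_cv z * (nil_s φ x' * nil_cv z') =
      nil_s φ (x + x') * nil_cv (nil_g h2 φ x x' + z + z') := by
  rw [nil_cv_add, nil_cv_add, ← mul_assoc, ← mul_assoc, ← mul_assoc, ← nil_s_mul h2 φ hφ,
    mul_assoc (nil_s φ x) (nil_cv z), ← nil_cv_comm z, mul_assoc (nil_s φ x) (nil_s φ x')]

include hφ in
lemma nil_inv_eq (x : Fin d → ℝ) (z : NilC G) :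
    (nil_s φ x * nil_cv z)⁻¹ = nil_s φ (-x) * nil_cv (-nil_g h2 φ x (-x) - z) := by
  rw [inv_eq_iff_mul_eq_one, nil_mul_eq h2 φ hφ, add_neg_cancel, nil_s_zero φ hφ]
  have : nil_g h2 φ x (-x) + z + (-nil_g h2 φ x (-x) - z) = 0 := by abel
  rw [this]; simp

/-- The subgroup of all products of a coordinate element and an element of `nil_K`. -/
def nil_H : Subgroup G where
  carrier := {g | ∃ x, ∃ z ∈ nil_K h2 φ, g = nil_s φ x * nil_cv z}
  one_mem' := ⟨0, 0, zero_mem _, by simp [nil_s_zero φ hφ]⟩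
  mul_mem' := by
    rintro _ _ ⟨x, z, hz, rfl⟩ ⟨x', z', hz', rfl⟩
    exact ⟨_, _, add_mem (add_mem (nil_g_mem h2 φ x x') hz) hz', nil_mul_eq h2 φ hφ _ _ _ _⟩
  inv_mem' := by
    rintro _ ⟨x, z, hz, rfl⟩
    exact ⟨_, _, sub_mem (neg_mem (nil_g_mem h2 φ _ _)) hz, nil_inv_eq h2 φ hφ _ _⟩

lemma nil_s_mem_H (x : Fin d → ℝ) : nil_s φ x ∈ nil_H h2 φ hφ := ⟨x, 0, zero_mem _, by simp⟩

lemma nil_closure_le : Subgroup.closure (⋃ a, Set.range (φ a)) ≤ nil_H h2 φ hφ := by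
  rw [Subgroup.closure_le]
  intro g hg
  obtain ⟨a, t, rfl⟩ := mem_iUnion.1 hg
  rw [← nil_single φ (nil_zero φ hφ) a t]
  exact nil_s_mem_H h2 φ hφ _

variable {Y : Type} [MulAction G Y] (y : Y)

/-- Coordinates of elements of the stabiliser. -/
def nil_U : AddSubgroup (Fin d → ℝ) where
  carrier := {u | ∃ z ∈ nil_K h2 φ, nil_s φ u * nil_cv z ∈ MulAction.stabilizer G y}
  zero_mem' := ⟨0, zero_mem _, by simp [nil_s_zero φ hφ]⟩
  add_mem' := by
    rintro x x' ⟨z, hz, h⟩ ⟨z', hz', h'⟩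
    refine ⟨_, add_mem (add_mem (nil_g_mem h2 φ x x') hz) hz', ?_⟩
    rw [← nil_mul_eq h2 φ hφ]
    exact mul_mem h h'
  neg_mem' := by
    rintro x ⟨z, hz, h⟩
    refine ⟨_, sub_mem (neg_mem (nil_g_mem h2 φ x (-x))) hz, ?_⟩
    rw [← nil_inv_eq h2 φ hφ]
    exact inv_mem h

lemma nil_U_dense [TopologicalSpace G] [TopologicalSpace Y] [CompactSpace Y]
    (hopen : ∀ y : Y, ∀ U ∈ 𝓝 (1 : G), (fun g : G => g • y) '' U ∈ 𝓝 y)
    (hnb : nil_s φ '' Metric.closedBall 0 1 ∈ 𝓝 (1 : G)) :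
    ∃ R : ℝ, ∀ x : Fin d → ℝ, ∃ u ∈ nil_U h2 φ hφ y, ‖x - u‖ ≤ R := by
  classical
  have hH : (nil_H h2 φ hφ : Set G) ∈ 𝓝 (1 : G) := by
    refine mem_of_superset hnb ?_
    rintro _ ⟨x, -, rfl⟩
    exact nil_s_mem_H h2 φ hφ x
  have hc := (nil_orbit_closed hopen _ hH y).isCompact
  let O : ℝ → Set Y := fun R =>
    {p | ∃ x, ‖x‖ ≤ R ∧ ∃ z ∈ nil_K h2 φ, p = (nil_s φ x * nil_cv z) • y}
  have hO : ∃ R, (fun g : G => g • y) '' (nil_H h2 φ hφ : Set G) ⊆ O R := by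
    refine hc.induction_on (p := fun s => ∃ R, s ⊆ O R) ⟨0, empty_subset _⟩
      (fun s t hst ⟨R, hR⟩ => ⟨R, hst.trans hR⟩) ?_ ?_
    · rintro s t ⟨R, hR⟩ ⟨R', hR'⟩
      refine ⟨max R R', union_subset (fun p hp => ?_) (fun p hp => ?_)⟩
      · obtain ⟨x, hx, h⟩ := hR hp
        exact ⟨x, hx.trans (le_max_left _ _), h⟩
      · obtain ⟨x, hx, h⟩ := hR' hp
        exact ⟨x, hx.trans (le_max_right _ _), h⟩
    · rintro _ ⟨_, ⟨x, z, hz, rfl⟩, rfl⟩
      refine ⟨_, mem_nhdsWithin_of_mem_nhds (hopen _ _ hnb), 1 + ‖x‖, ?_⟩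
      rintro _ ⟨_, ⟨x', hx', rfl⟩, rfl⟩
      refine ⟨x' + x, (norm_add_le _ _).trans ?_, _,
        add_mem (add_mem (nil_g_mem h2 φ x' x) (zero_mem _)) hz, ?_⟩
      · have := mem_closedBall_zero_iff.1 hx'
        linarith
      · rw [← nil_mul_eq h2 φ hφ]
        simp [mul_smul]
  obtain ⟨R, hR⟩ := hO
  refine ⟨R, fun x => ?_⟩
  obtain ⟨x', hx', z, hz, h⟩ := hR ⟨_, nil_s_mem_H h2 φ hφ x, rfl⟩
  refine ⟨-x' + x, ⟨_, add_mem (add_mem (nil_g_mem h2 φ (-x') x)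
    (sub_mem (neg_mem (nil_g_mem h2 φ x' (-x'))) hz)) (zero_mem _), ?_⟩, by simpa using hx'⟩
  rw [← nil_mul_eq h2 φ hφ, ← nil_inv_eq h2 φ hφ, MulAction.mem_stabilizer_iff, mul_smul,
    inv_smul_eq_iff]
  simpa using h

end

lemma nil_span {d : ℕ} (U : AddSubgroup (Fin d → ℝ)) (R : ℝ)
    (h : ∀ x : Fin d → ℝ, ∃ u ∈ U, ‖x - u‖ ≤ R) :
    ∃ (n : ℕ) (u : Fin n → Fin d → ℝ), (∀ j, u j ∈ U) ∧
      LinearMap.range (Fintype.linearCombination ℝ u) = ⊤ := by
  have hspan : Submodule.span ℝ (U : Set (Fin d → ℝ)) = ⊤ := by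
    rw [eq_top_iff]
    intro x _
    have hcl : IsClosed (Submodule.span ℝ (U : Set (Fin d → ℝ)) : Set (Fin d → ℝ)) :=
      Submodule.closed_of_finiteDimensional _
    refine hcl.closure_subset (Metric.mem_closure_iff.2 fun ε hε => ?_)
    obtain ⟨k, hk⟩ := exists_nat_gt (max (R / ε) 0)
    have hk0 : (0 : ℝ) < k := lt_of_le_of_lt (le_max_right _ _) hk
    have hk1 : R / ε < k := lt_of_le_of_lt (le_max_left _ _) hk
    obtain ⟨u, hu, hxu⟩ := h ((k : ℝ) • x)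
    refine ⟨(k : ℝ)⁻¹ • u, Submodule.smul_mem _ _ (Submodule.subset_span hu), ?_⟩
    have : x - (k : ℝ)⁻¹ • u = (k : ℝ)⁻¹ • ((k : ℝ) • x - u) := by
      rw [smul_sub, smul_smul, inv_mul_cancel₀ hk0.ne', one_smul]
    rw [dist_eq_norm, this, norm_smul, norm_inv, Real.norm_of_nonneg hk0.le,
      inv_mul_lt_iff₀ hk0]
    rw [div_lt_iff₀ hε] at hk1
    linarith
  obtain ⟨s, hs, hs'⟩ := (Submodule.fg_span_iff_fg_span_finset_subset
    (R := ℝ) (U : Set (Fin d → ℝ))).1 (IsNoetherian.noetherian _)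
  refine ⟨s.card, fun j => (s.equivFin.symm j : Fin d → ℝ), fun j => hs (s.equivFin.symm j).2, ?_⟩
  rw [Fintype.range_linearCombination, ← hspan, hs']
  congr 1
  ext x
  constructor
  · rintro ⟨j, rfl⟩; exact (s.equivFin.symm j).2
  · intro hx; exact ⟨s.equivFin ⟨x, hx⟩, by simp⟩

/-- TASK NIL, second part -/
theorem nil_model {G Y : Type} [Group G] [TopologicalSpace G] [IsTopologicalGroup G] [T2Space G]
    [TopologicalSpace Y] [CompactSpace Y] [MulAction G Y] [MulAction.IsPretransitive G Y]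
    (h2 : ∀ a b c : G, Commute (a * b * a⁻¹ * b⁻¹) c)
    (hopen : ∀ y : Y, ∀ U ∈ 𝓝 (1 : G), (fun g : G => g • y) '' U ∈ 𝓝 y)
    {d : ℕ} (φ : Fin d → ℝ → G) (hφc : ∀ a, Continuous (φ a))
    (hφ : ∀ a s t, φ a (s + t) = φ a s * φ a t)
    (hnb : (fun x : Fin d → ℝ => (List.ofFn fun a => φ a (x a)).prod) '' Metric.closedBall 0 1
        ∈ 𝓝 (1 : G)) (c : G) (y : Y)
    (hcy : ∃ g ∈ Subgroup.closure (⋃ a, Set.range (φ a)), c • y = g • y) :
    ∃ (n N : ℕ) (τ : (Fin N → ℝ) → G) (σ : (Fin n → ℝ) → G)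
      (B : (Fin n → ℝ) →ₗ[ℝ] (Fin n → ℝ) →ₗ[ℝ] (Fin N → ℝ)) (T : (Fin n → ℤ) → Fin N → ℝ)
      (β : Fin n → ℝ) (Z₁ Z₂ : Fin N → ℝ),
      Continuous τ ∧ Continuous σ ∧ (∀ z z', τ (z + z') = τ z * τ z') ∧
      (∀ (v : Fin N → ℤ) (y' : Y), τ (fun a => (v a : ℝ)) • y' = y') ∧
      (∀ (t : Fin n → ℝ) (v : Fin n → ℤ), σ (t + fun a => (v a : ℝ)) • y =
        τ (T v + B t fun a => (v a : ℝ)) • σ t • y) ∧
      ∀ m : ℤ, c ^ m • y = τ ((m : ℝ) • Z₁ + ((m : ℝ) ^ 2) • Z₂) • σ ((m : ℝ) • β) • y := by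
  classical
  obtain ⟨R, hR⟩ := nil_U_dense h2 φ hφ y hopen hnb
  obtain ⟨n, u, huU, hu⟩ := nil_span _ R hR
  set L := Fintype.linearCombination ℝ u with hL
  obtain ⟨S, hS⟩ := L.exists_rightInverse_of_surjective hu
  have hLS : ∀ x, L (S x) = x := fun x => LinearMap.congr_fun hS x
  obtain ⟨g, hg, hcg⟩ := hcy
  obtain ⟨x₀, z₀, hz₀, rfl⟩ := nil_closure_le h2 φ hφ hg
  set δ := (nil_s φ x₀ * nil_cv z₀)⁻¹ * c with hδ
  have hδy : δ ∈ MulAction.stabilizer G y := by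
    rw [MulAction.mem_stabilizer_iff, hδ, mul_smul, hcg, inv_smul_smul]
  have hcδ : c = nil_s φ x₀ * nil_cv z₀ * δ := by rw [hδ]; group
  choose w hw hwy using huU
  -- the elements of the stabiliser that are used
  let h : Option (Fin n) → G := fun o => o.elim δ fun j => nil_s φ (u j) * nil_cv (w j)
  have hh : ∀ o, h o ∈ MulAction.stabilizer G y := by
    rintro (_ | j)
    exacts [hδy, hwy j]
  set N := Fintype.card (Option (Fin n) × Fin n)
  let e : Option (Fin n) × Fin n ≃ Fin N := Fintype.equivFin _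
  let pr : Option (Fin n) → (Fin N → ℝ) →ₗ[ℝ] (Fin n → ℝ) := fun o =>
    LinearMap.funLeft ℝ ℝ fun i => e (o, i)
  let τ₀ : (Fin N → ℝ) →+ NilC G :=
    ∑ o, (nil_E h2 φ hφ (h o)).comp (L ∘ₗ pr o).toAddMonoidHom
  have hτ₀ : ∀ z, τ₀ z = ∑ o, nil_E h2 φ hφ (h o) (L fun i => z (e (o, i))) := by
    intro z
    simp only [τ₀, AddMonoidHom.finsetSum_apply]
    rfl
  -- the embedding of one block
  let ι : Option (Fin n) → (Fin n → ℝ) →ₗ[ℝ] (Fin N → ℝ) := fun o =>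
    LinearMap.pi fun k => if (e.symm k).1 = o then LinearMap.proj (e.symm k).2 else 0
  have hι : ∀ o x, τ₀ (ι o (S x)) = nil_E h2 φ hφ (h o) x := by
    intro o x
    rw [hτ₀, Finset.sum_eq_single o]
    · congr 1
      conv_rhs => rw [← hLS x]
      congr 1
      ext i
      simp [ι]
    · intro o' _ ho'
      have : (fun i => ι o (S x) (e (o', i))) = 0 := by
        ext i; simp [ι, ho']
      rw [this, map_zero, map_zero]
    · simp
  let Θ : (Fin d → ℝ) →ₗ[ℝ] (Fin d → ℝ) →ₗ[ℝ] (Fin N → ℝ) :=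
    (∑ j, ((LinearMap.proj j).comp S).smulRight (ι (some j) ∘ₗ S)).flip
  have hΘ : ∀ x x', τ₀ (Θ x x') = nil_cm h2 (nil_s φ x) (nil_s φ x') := by
    intro x x'
    have e1 : Θ x x' = ∑ j, ι (some j) (S (S x' j • x)) := by
      simp [Θ, LinearMap.sum_apply]
    have e2 : x' = ∑ j, S x' j • u j := by
      conv_lhs => rw [← hLS x', hL, Fintype.linearCombination_apply]
    rw [e1, map_sum, ← nil_E_apply h2 φ hφ, nil_E_swap]
    conv_rhs => rw [e2, map_sum, ← Finset.sum_neg_distrib]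
    refine Finset.sum_congr rfl fun j _ => ?_
    rw [hι, ← nil_E_swap, nil_balance h2 φ hφ hφc]
    simp only [h, Option.elim, nil_E_apply, nil_cm_mul_right, nil_cm_cv_right, add_zero]
  have hK : ∀ z ∈ nil_K h2 φ, ∃ p, τ₀ p = z := by
    intro z hz
    have : nil_K h2 φ ≤ τ₀.range := by
      rw [nil_K, AddSubgroup.closure_le]
      rintro _ ⟨x, x', rfl⟩
      exact ⟨_, hΘ x x'⟩
    exact this hz
  let P : Fin d → (Fin d → ℝ) →ₗ[ℝ] (Fin d → ℝ) := fun a =>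
    (LinearMap.single ℝ (fun _ => ℝ) a).comp (LinearMap.proj a)
  let B₀ : (Fin d → ℝ) →ₗ[ℝ] (Fin d → ℝ) →ₗ[ℝ] (Fin N → ℝ) :=
    ∑ a, ∑ b, if b < a then Θ.compl₁₂ (P a) (P b) else 0
  have hB₀ : ∀ x x', τ₀ (B₀ x x') = nil_g h2 φ x x' := by
    intro x x'
    simp only [B₀, LinearMap.sum_apply, map_sum, nil_g]
    refine Finset.sum_congr rfl fun a _ => Finset.sum_congr rfl fun b _ => ?_
    split_ifs
    · rw [LinearMap.compl₁₂_apply, hΘ]; rfl
    · simp
  -- central elements of the stabiliser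
  let K₀ : AddSubgroup (NilC G) :=
    { carrier := {z | nil_cv z ∈ MulAction.stabilizer G y}
      zero_mem' := (MulAction.stabilizer G y).one_mem
      add_mem' := fun {z z'} ha hb =>
        (MulAction.stabilizer G y).mul_mem (x := nil_cv z) (y := nil_cv z') ha hb
      neg_mem' := fun {z} ha => (MulAction.stabilizer G y).inv_mem (x := nil_cv z) ha }
  have hLint : ∀ v : Fin n → ℤ, L (fun i => (v i : ℝ)) = ∑ i, v i • u i := by
    intro v
    rw [hL, Fintype.linearCombination_apply]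
    simp only [Int.cast_smul_eq_zsmul]
  have hT : ∀ v : Fin n → ℤ, ∃ p, nil_s φ (L fun i => (v i : ℝ)) • y = nil_cv (τ₀ p) • y := by
    intro v
    have hmem : L (fun i => (v i : ℝ)) ∈ nil_U h2 φ hφ y := by
      rw [hLint]
      exact sum_mem fun i _ => (nil_U h2 φ hφ y).zsmul_mem (x := u i) ⟨w i, hw i, hwy i⟩ _
    obtain ⟨z, hz, hzy⟩ := hmem
    obtain ⟨p, hp⟩ := hK _ (neg_mem hz)
    refine ⟨p, ?_⟩
    rw [hp, nil_cv_neg, eq_inv_smul_iff, ← mul_smul, ← nil_cv_comm]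
    exact hzy
  choose T hT using hT
  obtain ⟨p₀, hp₀⟩ := hK z₀ hz₀
  set q := B₀ x₀ x₀ - ι none (S x₀) with hq
  refine ⟨n, N, fun z => nil_cv (τ₀ z), fun t => nil_s φ (L t), -B₀.compl₁₂ L L, T, S x₀,
    p₀ - (1 / 2 : ℝ) • q, (1 / 2 : ℝ) • q, ?_, ?_, ?_, ?_, ?_, ?_⟩
  · simp only [hτ₀]
    refine nil_cv_continuous_sum _ _ fun o => (nil_E_continuous h2 φ hφ hφc (h o)).comp ?_
    exact L.continuous_of_finiteDimensional.comp (continuous_pi fun i => continuous_apply _)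
  · exact (nil_s_continuous φ hφc).comp L.continuous_of_finiteDimensional
  · intro z z'
    simp only [map_add, nil_cv_add]
  · intro v y'
    have hmem : τ₀ (fun a => (v a : ℝ)) ∈ K₀ := by
      rw [hτ₀]
      refine sum_mem fun o _ => ?_
      rw [hLint fun i => v (e (o, i)), map_sum]
      refine sum_mem fun i _ => ?_
      rw [map_zsmul]
      refine zsmul_mem ?_ _
      have : nil_E h2 φ hφ (h o) (u i) = nil_cm h2 (h (some i)) (h o) := by
        simp only [h, Option.elim, nil_E_apply, nil_cm_mul_left, nil_cm_cv_left, add_zero]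
      rw [this]
      change nil_cv _ ∈ MulAction.stabilizer G y
      rw [nil_cv_cm]
      exact mul_mem (mul_mem (mul_mem (hh _) (hh _)) (inv_mem (hh _))) (inv_mem (hh _))
    obtain ⟨g', rfl⟩ := MulAction.exists_smul_eq G y y'
    have h1 : nil_cv (τ₀ fun a => (v a : ℝ)) • y = y := hmem
    simp only
    rw [← nil_cv_smul_comm, h1]
  · intro t v
    simp only [map_add, LinearMap.neg_apply, LinearMap.compl₁₂_apply, map_neg, hB₀]
    rw [nil_s_add h2 φ hφ, nil_cv_comm, mul_smul, mul_smul, hT, nil_cv_smul_comm, ← mul_smul,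
      ← nil_cv_add, add_comm]
  · have step : ∀ m : ℝ, c • nil_cv (τ₀ (m • (p₀ - (1 / 2 : ℝ) • q) + m ^ 2 • (1 / 2 : ℝ) • q)) •
        nil_s φ (L (m • S x₀)) • y = nil_cv (τ₀ ((m + 1) • (p₀ - (1 / 2 : ℝ) • q) +
          (m + 1) ^ 2 • (1 / 2 : ℝ) • q)) • nil_s φ (L ((m + 1) • S x₀)) • y := by
      intro m
      have e1 : (m + 1) • (p₀ - (1 / 2 : ℝ) • q) + (m + 1) ^ 2 • (1 / 2 : ℝ) • q =
          (m • (p₀ - (1 / 2 : ℝ) • q) + m ^ 2 • (1 / 2 : ℝ) • q) +
            (p₀ + (B₀ x₀ (m • x₀) - ι none (S (m • x₀)))) := by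
        have : B₀ x₀ (m • x₀) - ι none (S (m • x₀)) = m • q := by
          rw [hq, map_smul, map_smul, map_smul, smul_sub]
        rw [this]; module
      have e2 : (m + 1) • x₀ = x₀ + m • x₀ := by module
      have e3 : c • nil_s φ (m • x₀) • y =
          nil_cv (z₀ + (nil_g h2 φ x₀ (m • x₀) - nil_cm h2 (nil_s φ (m • x₀)) δ)) •
            nil_s φ (x₀ + m • x₀) • y := by
        have hy : δ • y = y := hδy
        have e4 : δ • nil_s φ (m • x₀) • y =
            nil_cv (-nil_cm h2 (nil_s φ (m • x₀)) δ) • nil_s φ (m • x₀) • y := by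
          rw [← mul_smul, nil_mul_comm h2 δ, mul_smul, hy, mul_smul, nil_cm_swap]
        rw [hcδ, mul_smul, mul_smul, e4, nil_cv_smul_comm, nil_cv_smul_comm,
          ← mul_smul (nil_s φ x₀), nil_s_mul h2 φ hφ, nil_cv_comm, mul_smul, ← mul_smul,
          ← mul_smul, ← nil_cv_add, ← nil_cv_add]
        congr 2
        abel
      rw [e1, map_add τ₀ _ (p₀ + _), map_add τ₀ p₀, map_sub τ₀ (B₀ _ _), hι, hB₀, hp₀, nil_cv_add,
        mul_smul, nil_cv_smul_comm]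
      simp only [map_smul, hLS]
      rw [e2, e3]
      rfl
    intro m
    induction m using Int.induction_on with
    | zero => simp [nil_s_zero φ hφ]
    | succ k ih =>
      rw [add_comm (k : ℤ) 1, zpow_one_add, mul_smul, ih, add_comm (1 : ℤ) k]
      have := step k
      push_cast
      exact this
    | pred k ih =>
      have := step (-k - 1)
      rw [sub_add_cancel] at this
      have e5 : c ^ (-(k : ℤ) - 1) = c⁻¹ * c ^ (-(k : ℤ)) := by group
      rw [e5, mul_smul, ih, inv_smul_eq_iff]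
      push_cast
      exact this.symm

end Pool.Agent.P.MP_fc4783_an
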