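import Pool.Agent.P.MP_fc4783_an.Basic

/-!
Commutator calculus in a group all of whose commutators are central, and `nil_power`.
-/

namespace Pool.Agent.P.MP_fc4783_an

open Filter Topology Set

/-- The centre of a group, written additively. -/
def NilC (G : Type) [Group G] : Type := Additive (Subgroup.center G)

section

variable {G : Type} [Group G]

instance nil_addGroup : AddGroup (NilC G) := inferInstanceAs (AddGroup (Additive (Subgroup.center G)))

/-- The inclusion of the centre. -/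
def nil_cv (a : NilC G) : G := ((Additive.toMul (show Additive (Subgroup.center G) from a) :
  Subgroup.center G) : G)

lemma nil_cv_add (a b : NilC G) : nil_cv (a + b) = nil_cv a * nil_cv b := rfl

@[simp] lemma nil_cv_zero : nil_cv (0 : NilC G) = 1 := rfl

lemma nil_cv_neg (a : NilC G) : nil_cv (-a) = (nil_cv a)⁻¹ := rfl

lemma nil_cv_inj {a b : NilC G} (h : nil_cv a = nil_cv b) : a = b := Subtype.ext h

lemma nil_cv_comm (a : NilC G) (g : G) : g * nil_cv a = nil_cv a * g :=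
  Subgroup.mem_center_iff.1 (Additive.toMul (show Additive (Subgroup.center G) from a)).2 g

instance nil_addCommGroup : AddCommGroup (NilC G) :=
  { nil_addGroup with
    add_comm := fun a b => nil_cv_inj (by rw [nil_cv_add, nil_cv_add, nil_cv_comm]) }

lemma nil_cv_smul_comm {Y : Type} [MulAction G Y] (a : NilC G) (g : G) (y : Y) :
    g • nil_cv a • y = nil_cv a • g • y := by
  rw [← mul_smul, nil_cv_comm, mul_smul]

lemma nil_cv_continuous_sum [TopologicalSpace G] [IsTopologicalGroup G] {X ι : Type}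
    [TopologicalSpace X] (s : Finset ι) (f : ι → X → NilC G)
    (hf : ∀ i, Continuous fun x => nil_cv (f i x)) :
    Continuous fun x => nil_cv (∑ i ∈ s, f i x) := by
  classical
  induction s using Finset.induction_on with
  | empty => simpa using continuous_const
  | insert a s ha ih =>
    simp only [Finset.sum_insert ha, nil_cv_add]
    exact (hf a).mul ih

variable (h2 : ∀ a b c : G, Commute (a * b * a⁻¹ * b⁻¹) c)

/-- The commutator as an element of the centre. -/
def nil_cm (a b : G) : NilC G :=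
  Additive.ofMul (⟨a * b * a⁻¹ * b⁻¹, Subgroup.mem_center_iff.2 fun c => (h2 a b c).eq.symm⟩ :
    Subgroup.center G)

lemma nil_cv_cm (a b : G) : nil_cv (nil_cm h2 a b) = a * b * a⁻¹ * b⁻¹ := rfl

lemma nil_mul_comm (a b : G) : a * b = nil_cv (nil_cm h2 a b) * b * a := by
  rw [nil_cv_cm]; group

lemma nil_cm_mul_left (a a' b : G) : nil_cm h2 (a * a') b = nil_cm h2 a b + nil_cm h2 a' b := by
  apply nil_cv_inj
  rw [nil_cv_add, nil_cv_cm h2 a b]
  calc nil_cv (nil_cm h2 (a * a') b) = a * nil_cv (nil_cm h2 a' b) * (b * a⁻¹ * b⁻¹) := by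
        rw [nil_cv_cm, nil_cv_cm]; group
    _ = _ := by rw [mul_assoc a, ← nil_cv_comm]; group

lemma nil_cm_swap (a b : G) : nil_cm h2 b a = -nil_cm h2 a b := by
  apply nil_cv_inj
  rw [nil_cv_neg, nil_cv_cm, nil_cv_cm]; group

lemma nil_cm_mul_right (a b b' : G) : nil_cm h2 a (b * b') = nil_cm h2 a b + nil_cm h2 a b' := by
  rw [nil_cm_swap, nil_cm_mul_left, nil_cm_swap h2 a b, nil_cm_swap h2 a b']; abel

lemma nil_cm_one_left (b : G) : nil_cm h2 1 b = 0 := by
  apply nil_cv_inj; rw [nil_cv_cm]; simp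

lemma nil_cm_cv_left (z : NilC G) (b : G) : nil_cm h2 (nil_cv z) b = 0 := by
  apply nil_cv_inj; rw [nil_cv_cm, ← nil_cv_comm]; simp

lemma nil_cm_cv_right (z : NilC G) (b : G) : nil_cm h2 b (nil_cv z) = 0 := by
  rw [nil_cm_swap, nil_cm_cv_left, neg_zero]

lemma nil_cm_prod_left {d : ℕ} (f : Fin d → G) (b : G) :
    nil_cm h2 (List.ofFn f).prod b = ∑ a, nil_cm h2 (f a) b := by
  induction d with
  | zero => simp [nil_cm_one_left]
  | succ d ih =>
    rw [List.ofFn_succ, List.prod_cons, nil_cm_mul_left, ih, Fin.sum_univ_succ]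

lemma nil_prod_mul {d : ℕ} (f g : Fin d → G) :
    (List.ofFn f).prod * (List.ofFn g).prod = (List.ofFn fun a => f a * g a).prod *
      nil_cv (∑ a, ∑ b, if b < a then nil_cm h2 (f a) (g b) else 0) := by
  induction d with
  | zero => simp
  | succ d ih =>
    have hs : (∑ a : Fin (d + 1), ∑ b : Fin (d + 1), if b < a then nil_cm h2 (f a) (g b) else 0) =
        nil_cm h2 (List.ofFn fun a : Fin d => f a.succ).prod (g 0) +
        ∑ a : Fin d, ∑ b : Fin d, if b < a then nil_cm h2 (f a.succ) (g b.succ) else 0 := by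
      rw [Fin.sum_univ_succ, nil_cm_prod_left, ← Finset.sum_add_distrib]
      simp only [Fin.not_lt_zero, if_false, Finset.sum_const_zero, zero_add]
      refine Finset.sum_congr rfl fun a _ => ?_
      rw [Fin.sum_univ_succ]
      simp only [Fin.succ_pos, if_true, Fin.succ_lt_succ_iff]
    rw [hs, nil_cv_add]
    simp only [List.ofFn_succ, List.prod_cons]
    have ih' := ih (fun a => f a.succ) (fun a => g a.succ)
    set F := (List.ofFn fun a : Fin d => f a.succ).prod
    set Q := (List.ofFn fun a : Fin d => g a.succ).prod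
    set P := (List.ofFn fun a : Fin d => f a.succ * g a.succ).prod
    set w := nil_cv (∑ a : Fin d, ∑ b : Fin d,
      if b < a then nil_cm h2 (f a.succ) (g b.succ) else 0)
    calc f 0 * F * (g 0 * Q) = f 0 * (F * g 0) * Q := by group
      _ = f 0 * (nil_cv (nil_cm h2 F (g 0)) * g 0 * F) * Q := by rw [← nil_mul_comm]
      _ = f 0 * (nil_cv (nil_cm h2 F (g 0)) * (g 0 * (F * Q))) := by group
      _ = f 0 * ((g 0 * P * w) * nil_cv (nil_cm h2 F (g 0))) := by
        rw [← nil_cv_comm, ih']; group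
      _ = f 0 * g 0 * P * (w * nil_cv (nil_cm h2 F (g 0))) := by group
      _ = _ := by rw [nil_cv_comm _ w]

end

lemma nil_single {G : Type} [Group G] {d : ℕ} (φ : Fin d → ℝ → G) (h0 : ∀ a, φ a 0 = 1)
    (a : Fin d) (s : ℝ) :
    (List.ofFn fun b => φ b ((Pi.single a s : Fin d → ℝ) b)).prod = φ a s := by
  rw [List.ofFn_eq_map]
  have := List.prod_map_eq_pow_single (l := List.finRange d) a
    (fun b => φ b ((Pi.single a s : Fin d → ℝ) b)) (fun b hb _ => by
      simp [Pi.single_eq_of_ne hb, h0])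
  rw [this]
  simp

lemma nil_zero {G : Type} [Group G] {d : ℕ} (φ : Fin d → ℝ → G)
    (hφ : ∀ a s t, φ a (s + t) = φ a s * φ a t) (a : Fin d) : φ a 0 = 1 := by
  have := hφ a 0 0
  rw [add_zero] at this
  exact left_eq_mul.1 this

lemma nil_continuous_prod {G : Type} [Group G] [TopologicalSpace G] [IsTopologicalGroup G]
    {d : ℕ} (φ : Fin d → ℝ → G) (hφc : ∀ a, Continuous (φ a)) :
    Continuous fun x : Fin d → ℝ => (List.ofFn fun a => φ a (x a)).prod := by
  simp only [List.ofFn_eq_map]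
  exact continuous_list_prod _ fun a _ => (hφc a).comp (continuous_apply a)

/-- Orbits of a subgroup containing a neighbourhood of the identity are open. -/
lemma nil_orbit_open {G Y : Type} [Group G] [TopologicalSpace G] [TopologicalSpace Y]
    [MulAction G Y] (hopen : ∀ y : Y, ∀ U ∈ 𝓝 (1 : G), (fun g : G => g • y) '' U ∈ 𝓝 y)
    (H : Subgroup G) (hH : (H : Set G) ∈ 𝓝 (1 : G)) (y : Y) :
    IsOpen ((fun g : G => g • y) '' (H : Set G)) := by
  rw [isOpen_iff_mem_nhds]
  rintro _ ⟨g, hg, rfl⟩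
  refine mem_of_superset (hopen (g • y) H hH) ?_
  rintro _ ⟨g', hg', rfl⟩
  exact ⟨g' * g, H.mul_mem hg' hg, mul_smul _ _ _⟩

lemma nil_orbit_closed {G Y : Type} [Group G] [TopologicalSpace G] [TopologicalSpace Y]
    [MulAction G Y] (hopen : ∀ y : Y, ∀ U ∈ 𝓝 (1 : G), (fun g : G => g • y) '' U ∈ 𝓝 y)
    (H : Subgroup G) (hH : (H : Set G) ∈ 𝓝 (1 : G)) (y : Y) :
    IsClosed ((fun g : G => g • y) '' (H : Set G)) := by
  rw [← isOpen_compl_iff, isOpen_iff_mem_nhds]
  intro z hz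
  refine mem_of_superset (hopen z H hH) ?_
  rintro _ ⟨g', hg', rfl⟩ ⟨g, hg, hgg⟩
  refine hz ⟨g'⁻¹ * g, H.mul_mem (H.inv_mem hg') hg, ?_⟩
  simp only at hgg ⊢
  rw [mul_smul, hgg, inv_smul_smul]

/-- TASK NIL, first part -/
theorem nil_power {G Y : Type} [Group G] [TopologicalSpace G] [IsTopologicalGroup G]
    [TopologicalSpace Y] [CompactSpace Y] [MulAction G Y]
    (hopen : ∀ y : Y, ∀ U ∈ 𝓝 (1 : G), (fun g : G => g • y) '' U ∈ 𝓝 y)
    {d : ℕ} (φ : Fin d → ℝ → G) (hφc : ∀ a, Continuous (φ a))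
    (hφ : ∀ a s t, φ a (s + t) = φ a s * φ a t)
    (hnb : (fun x : Fin d → ℝ => (List.ofFn fun a => φ a (x a)).prod) '' Metric.closedBall 0 1
        ∈ 𝓝 (1 : G)) (b : G) (y : Y) :
    ∃ r : ℕ, 0 < r ∧ ∀ j : ℤ, ∃ g ∈ Subgroup.closure (⋃ a, Set.range (φ a)),
      b ^ r • b ^ j • y = g • b ^ j • y := by
  classical
  set H := Subgroup.closure (⋃ a, Set.range (φ a)) with hHdef
  have hφH : ∀ a t, φ a t ∈ H := fun a t =>
    Subgroup.subset_closure (mem_iUnion.2 ⟨a, t, rfl⟩)
  have hH : (H : Set G) ∈ 𝓝 (1 : G) := by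
    refine mem_of_superset hnb ?_
    rintro _ ⟨x, -, rfl⟩
    refine H.list_prod_mem fun g hg => ?_
    obtain ⟨a, rfl⟩ := (List.mem_ofFn' _ _).1 hg
    exact hφH a _
  have hHo : IsOpen (H : Set G) := H.isOpen_of_mem_nhds hH
  have hHc : IsClopen (H : Set G) := ⟨H.isClosed_of_isOpen hHo, hHo⟩
  have hconj : ∀ g : G, ∀ h ∈ H, g * h * g⁻¹ ∈ H := by
    intro g h hh
    induction hh using Subgroup.closure_induction with
    | mem h hh =>
      obtain ⟨a, t, rfl⟩ := mem_iUnion.1 hh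
      have hc : Continuous fun t : ℝ => g * φ a t * g⁻¹ := by
        have := hφc a
        fun_prop
      have := (hHc.preimage hc).eq_univ ⟨0, by simp [nil_zero φ hφ]⟩
      exact (this.symm ▸ mem_univ t : t ∈ (fun t : ℝ => g * φ a t * g⁻¹) ⁻¹' (H : Set G))
    | one => simp
    | mul h h' _ _ h1 h2 =>
      have : g * (h * h') * g⁻¹ = (g * h * g⁻¹) * (g * h' * g⁻¹) := by group
      rw [this]; exact H.mul_mem h1 h2
    | inv h _ h1 =>
      have : g * h⁻¹ * g⁻¹ = (g * h * g⁻¹)⁻¹ := by group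
      rw [this]; exact H.inv_mem h1
  obtain ⟨t, -, ht⟩ := isCompact_univ.elim_nhds_subcover
    (fun z : Y => (fun g : G => g • z) '' (H : Set G)) (fun z _ => hopen z H hH)
  have hch : ∀ i : ℕ, ∃ z : t, ∃ g ∈ H, g • (z : Y) = b ^ i • y := by
    intro i
    obtain ⟨z, hz, g, hg, hgz⟩ := mem_iUnion₂.1 (ht (mem_univ (b ^ i • y)))
    exact ⟨⟨z, hz⟩, g, hg, hgz⟩
  choose z g hg hgz using hch
  obtain ⟨i, i', hne, hzz⟩ := Finite.exists_ne_map_eq_of_infinite z
  wlog hlt : i < i' generalizing i i'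
  · exact this i' i hne.symm hzz.symm (lt_of_le_of_ne (not_lt.1 hlt) hne.symm)
  obtain ⟨r, rfl⟩ := Nat.exists_eq_add_of_le hlt.le
  refine ⟨r, by omega, fun j => ?_⟩
  have h1 : b ^ r • y = ((b ^ i)⁻¹ * (g (i + r) * (g i)⁻¹) * ((b ^ i)⁻¹)⁻¹) • y := by
    rw [inv_inv, mul_smul, mul_smul, mul_smul, ← hgz i, inv_smul_smul, hzz, hgz, pow_add,
      mul_smul, inv_smul_smul]
  refine ⟨b ^ j * ((b ^ i)⁻¹ * (g (i + r) * (g i)⁻¹) * ((b ^ i)⁻¹)⁻¹) * (b ^ j)⁻¹,
    hconj _ _ (hconj _ _ (H.mul_mem (hg _) (H.inv_mem (hg _)))), ?_⟩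
  rw [mul_smul, inv_smul_smul, mul_smul, ← h1, ← mul_smul, ← mul_smul]
  congr 1
  group

end Pool.Agent.P.MP_fc4783_an
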