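import Pool.Agent.P.MP_fc4783_an.Fejer1
import Pool.Agent.P.MP_fc4783_an.FA
import Pool.Agent.P.MP_fc4783_an.Lie
import Pool.Agent.P.MP_fc4783_an.Nil
import Pool.Agent.P.MP_fc4783_an.Model

/-! Orbits on two-step nilmanifolds give structured sequences. -/

namespace Pool.Agent.P.MP_fc4783_an

open Filter Topology Finset

lemma nilstr_residue {G Y : Type} [Group G] [TopologicalSpace G] [IsTopologicalGroup G]
    [T2Space G] [TopologicalSpace Y] [CompactSpace Y] [MulAction G Y]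
    [MulAction.IsPretransitive G Y] [ContinuousSMul G Y]
    (h2 : ∀ a b c : G, Commute (a * b * a⁻¹ * b⁻¹) c)
    (hopen : ∀ y : Y, ∀ U ∈ 𝓝 (1 : G), (fun g : G => g • y) '' U ∈ 𝓝 y)
    {d : ℕ} (φ : Fin d → ℝ → G) (hφc : ∀ a, Continuous (φ a))
    (hφ : ∀ a s t, φ a (s + t) = φ a s * φ a t)
    (hnb : (fun x : Fin d → ℝ => (List.ofFn fun a => φ a (x a)).prod) '' Metric.closedBall 0 1
        ∈ 𝓝 (1 : G)) (c : G) (y : Y)
    (hcy : ∃ g ∈ Subgroup.closure (⋃ a, Set.range (φ a)), c • y = g • y)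
    (r : ℕ) (hr : 0 < r) (j : ℤ) :
    ∃ A : AddSubgroup ℝ, A.FG ∧ ∀ F : Y → ℂ, Continuous F →
      ∃ ψ : ℤ → ℂ, Str A ψ ∧ ∀ m : ℤ, ψ (r * m + j) = F (c ^ m • y) := by
  obtain ⟨n, N, τ, σ, B, T, β, Z₁, Z₂, hτ, hσ, hadd, hfix, haut, horb⟩ :=
    nil_model h2 hopen φ hφc hφ hnb c y hcy
  have hr' : (r : ℝ) ≠ 0 := by positivity
  obtain ⟨A, hA, hstr⟩ := model_str B T ((r : ℝ)⁻¹ • β) (-((j : ℝ) / r) • β)
    (-((j : ℝ) / r) • Z₁ + ((j : ℝ) / r) ^ 2 • Z₂)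
    ((r : ℝ)⁻¹ • Z₁ + (-2 * j / (r : ℝ) ^ 2) • Z₂) (((r : ℝ) ^ 2)⁻¹ • Z₂)
  refine ⟨A, hA, fun F hF => ?_⟩
  obtain ⟨Ψ, hΨc, hΨe, hΨa⟩ := fourier_approx (κ := Fin N) (X := Y) (fun z x => F (τ z • x))
    (by
      have : Continuous fun p : (Fin N → ℝ) × Y => F (τ p.1 • p.2) :=
        hF.comp ((hτ.comp continuous_fst).smul continuous_snd)
      exact this)
    (fun z x v => by rw [hadd, mul_smul, hfix])
  refine ⟨fun s => F (τ ((-((j : ℝ) / r) • Z₁ + ((j : ℝ) / r) ^ 2 • Z₂) +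
      (s : ℝ) • ((r : ℝ)⁻¹ • Z₁ + (-2 * j / (r : ℝ) ^ 2) • Z₂) +
      ((s : ℝ) ^ 2) • (((r : ℝ) ^ 2)⁻¹ • Z₂)) •
      σ ((s : ℝ) • ((r : ℝ)⁻¹ • β) + -((j : ℝ) / r) • β) • y), ?_, fun m => ?_⟩
  · refine Str.of_approx fun ε hε => ?_
    obtain ⟨S, cf, hS⟩ := hΨa ε hε
    refine ⟨_, Str.sum S _ fun k _ => (hstr k (fun t => Ψ k (σ t • y))
      ((hΨc k).comp (hσ.smul continuous_const)) fun t v => ?_).const_mul (cf k), fun s => ?_⟩
    · refine hΨe k _ _ _ fun z => ?_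
      simp only [haut, hadd z, mul_smul]
    · simpa only [mul_assoc] using hS _ _
  · have e1 : (-((j : ℝ) / r) • Z₁ + ((j : ℝ) / r) ^ 2 • Z₂) +
        ((r * m + j : ℤ) : ℝ) • ((r : ℝ)⁻¹ • Z₁ + (-2 * j / (r : ℝ) ^ 2) • Z₂) +
        (((r * m + j : ℤ) : ℝ) ^ 2) • (((r : ℝ) ^ 2)⁻¹ • Z₂) =
        (m : ℝ) • Z₁ + ((m : ℝ) ^ 2) • Z₂ := by
      ext a
      simp only [Pi.add_apply, Pi.smul_apply, smul_eq_mul]
      push_cast; field_simp; ring
    have e2 : ((r * m + j : ℤ) : ℝ) • ((r : ℝ)⁻¹ • β) + -((j : ℝ) / r) • β = (m : ℝ) • β := by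
      ext a
      simp only [Pi.add_apply, Pi.smul_apply, smul_eq_mul]
      push_cast; field_simp; ring
    simp only [e1, e2, horb m]

lemma sum_ex_div (r : ℕ) (hr : 0 < r) (u : ℤ) :
    ∑ t ∈ range r, ex (t * (u / r)) = if (r : ℤ) ∣ u then (r : ℂ) else 0 := by
  have hr' : (r : ℝ) ≠ 0 := by positivity
  simp only [ex_nat_mul]
  split_ifs with h
  · obtain ⟨m, rfl⟩ := h
    have : (((r : ℤ) * m : ℤ) : ℝ) / r = m := by push_cast; field_simp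
    rw [this]; simp
  · have h1 : ex (u / r) ≠ 1 := by
      rw [Ne, ex_eq_one_iff]
      rintro ⟨m, hm⟩
      refine h ⟨m, ?_⟩
      rw [div_eq_iff hr'] at hm
      have : (u : ℝ) = ((r : ℤ) * m : ℤ) := by rw [hm]; push_cast; ring
      exact_mod_cast this
    rw [geom_sum_eq h1, ← ex_nat_mul, mul_div_cancel₀ _ hr']; simp

theorem nil_str {d : ℕ} (G : Type) [Group G] [TopologicalSpace G] [T2Space G]
    [ChartedSpace (EuclideanSpace ℝ (Fin d)) G]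
    [LieGroup (modelWithCornersSelf ℝ (EuclideanSpace ℝ (Fin d))) ((⊤ : ℕ∞) : WithTop ℕ∞) G]
    (h2 : ∀ a b c : G, Commute (a * b * a⁻¹ * b⁻¹) c) (Γ : Subgroup G) [CompactSpace (G ⧸ Γ)]
    (b : G) (y : G ⧸ Γ) :
    ∃ A : AddSubgroup ℝ, A.FG ∧ ∀ F : G ⧸ Γ → ℂ, Continuous F →
      Str A (fun s : ℤ => F (b ^ s • y)) := by
  have : IsTopologicalGroup G := topologicalGroup_of_lieGroup
    (modelWithCornersSelf ℝ (EuclideanSpace ℝ (Fin d))) ((⊤ : ℕ∞) : WithTop ℕ∞)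
  obtain ⟨φ, hφc, hφ, hnb⟩ := exists_oneParam (d := d) G
  have hopen : ∀ y : G ⧸ Γ, ∀ U ∈ 𝓝 (1 : G), (fun g : G => g • y) '' U ∈ 𝓝 y := by
    intro y U hU
    induction y using QuotientGroup.induction_on with
    | H x =>
      have h1 : IsOpenMap fun g : G => g • (x : G ⧸ Γ) :=
        QuotientGroup.isOpenMap_coe.comp (isOpenMap_mul_right x)
      simpa using h1.image_mem_nhds hU
  obtain ⟨r, hr, hpow⟩ := nil_power hopen φ hφc hφ hnb b y
  have hr' : (r : ℝ) ≠ 0 := by positivity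
  choose A hA hstr using fun j : ℕ =>
    nilstr_residue h2 hopen φ hφc hφ hnb (b ^ r) (b ^ (j : ℤ) • y) (hpow j) r hr j
  refine ⟨(range r).sup A ⊔ AddSubgroup.closure {(r : ℝ)⁻¹}, ?_, fun F hF => ?_⟩
  · refine AddSubgroup.FG.sup ?_ ⟨{(r : ℝ)⁻¹}, by simp⟩
    exact Finset.sup_induction (p := AddSubgroup.FG) AddSubgroup.FG.bot
      (fun _ h _ h' => h.sup h') fun j _ => hA j
  choose ψ hψ hψe using fun j => hstr j F hF
  have key : Str ((range r).sup A ⊔ AddSubgroup.closure {(r : ℝ)⁻¹}) (fun s : ℤ =>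
      ∑ j ∈ range r, ∑ t ∈ range r, ((r : ℂ)⁻¹ * ex (t * (-(j : ℝ) / r))) *
        (ex ((t * (r : ℝ)⁻¹) * s) * ψ j s)) := by
    refine Str.sum _ _ fun j hj => Str.sum _ _ fun t _ => Str.const_mul (Str.mul_ex
      ((hψ j).mono (le_sup_of_le_left (Finset.le_sup (f := A) hj))) ?_) _
    refine AddSubgroup.mem_sup_right ?_
    rw [← nsmul_eq_mul]
    exact AddSubgroup.nsmul_mem _ (AddSubgroup.subset_closure (Set.mem_singleton _)) _
  suffices H : (fun s : ℤ => F (b ^ s • y)) = _ from H ▸ key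
  funext s
  have e : ∀ j ∈ range r, ∑ t ∈ range r, ((r : ℂ)⁻¹ * ex (t * (-(j : ℝ) / r))) *
      (ex ((t * (r : ℝ)⁻¹) * s) * ψ j s) = if j = (s % r).toNat then ψ j s else 0 := by
    intro j hj
    have e1 : ∀ t ∈ range r, ((r : ℂ)⁻¹ * ex (t * (-(j : ℝ) / r))) *
        (ex ((t * (r : ℝ)⁻¹) * s) * ψ j s) =
        (r : ℂ)⁻¹ * ψ j s * ex (t * (((s - j : ℤ) : ℝ) / r)) := by
      intro t _
      have : (t : ℝ) * (((s - j : ℤ) : ℝ) / r) = t * (-(j : ℝ) / r) + (t * (r : ℝ)⁻¹) * s := by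
        push_cast; field_simp; ring
      rw [this, ex_add]; ring
    rw [sum_congr rfl e1, ← mul_sum, sum_ex_div r hr]
    have h0 := Int.emod_nonneg s (show (r : ℤ) ≠ 0 by omega)
    have hj' := mem_range.1 hj
    have hiff : (r : ℤ) ∣ s - j ↔ j = (s % r).toNat := by
      rw [Int.dvd_iff_emod_eq_zero, ← Int.emod_eq_emod_iff_emod_sub_eq_zero,
        Int.emod_eq_of_lt (a := j) (by omega) (by omega)]
      omega
    by_cases h : j = (s % r).toNat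
    · rw [if_pos (hiff.2 h), if_pos h]
      have : (r : ℂ) ≠ 0 := by exact_mod_cast hr.ne'
      field_simp
    · rw [if_neg (fun h' => h (hiff.1 h')), if_neg h, mul_zero]
  have h0 := Int.emod_nonneg s (show (r : ℤ) ≠ 0 by omega)
  have h1 := Int.emod_lt_of_pos s (show (0 : ℤ) < r by omega)
  rw [sum_congr rfl e, sum_ite_eq' (range r), if_pos (mem_range.2 (by omega))]
  have h3 := hψe (s % r).toNat (s / r)
  rw [Int.toNat_of_nonneg h0, Int.mul_ediv_add_emod] at h3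
  rw [h3, ← mul_smul, ← zpow_natCast, ← zpow_mul, ← zpow_add, Int.mul_ediv_add_emod]

end Pool.Agent.P.MP_fc4783_an
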