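import Pool.Agent.P.MP_fc4783_an.Basic

/-!
One integer sequence from a sequence of finitely supported means.
-/

namespace Pool.Agent.P.MP_fc4783_an

open Filter Topology Finset

lemma seq_list {ι : Type*} (S : Finset ι) (p : ι → ℤ) (k : ι → ℕ) :
    ∃ c : ℕ → ℤ, ∀ ψ : ℤ → ℂ, ∑ n ∈ range (∑ j ∈ S, k j), ψ (c n) = ∑ j ∈ S, (k j : ℂ) * ψ (p j) := by
  classical
  induction S using Finset.induction_on with
  | empty => exact ⟨fun _ => 0, fun ψ => by simp⟩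
  | insert a S ha ih =>
    obtain ⟨c, hc⟩ := ih
    refine ⟨fun n => if n < ∑ j ∈ S, k j then c n else p a, fun ψ => ?_⟩
    rw [sum_insert ha, sum_insert ha, add_comm (k a), sum_range_add, add_comm, ← hc]
    congr 1
    · rw [sum_congr rfl (g := fun _ => ψ (p a)) fun x _ => by simp]; simp
    · exact sum_congr rfl fun x hx => by simp [mem_range.1 hx]

lemma seq_block (μ : Mean) (ε : ℝ) (hε : 0 < ε) : ∃ (q : ℕ) (c : ℕ → ℤ), 0 < q ∧
    ∀ ψ : ℤ → ℂ, (∀ s, ‖ψ s‖ ≤ 1) → ‖∑ n ∈ range q, (ψ (c n) - μ.avg ψ)‖ ≤ ε * q := by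
  obtain ⟨Q, hQ⟩ := exists_nat_gt ((μ.S.card : ℝ) + 2 * μ.S.card / ε)
  obtain ⟨c, hc⟩ := seq_list μ.S μ.p fun j => ⌊Q * μ.w j⌋₊
  have hw : ∀ j, 0 ≤ Q * μ.w j := fun j => mul_nonneg (Nat.cast_nonneg _) (μ.nonneg j)
  have h1 : (Q : ℝ) - μ.S.card ≤ (∑ j ∈ μ.S, ⌊Q * μ.w j⌋₊ : ℕ) := by
    have : ∑ j ∈ μ.S, ((Q : ℝ) * μ.w j - 1) ≤ ∑ j ∈ μ.S, (⌊Q * μ.w j⌋₊ : ℝ) :=
      sum_le_sum fun j _ => by linarith [Nat.lt_floor_add_one (Q * μ.w j)]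
    rw [sum_sub_distrib, ← mul_sum, μ.sum_one] at this
    simpa using this
  have h2 : 0 ≤ 2 * (μ.S.card : ℝ) / ε := by positivity
  refine ⟨_, c, by exact_mod_cast (by linarith : (0 : ℝ) < (∑ j ∈ μ.S, ⌊Q * μ.w j⌋₊ : ℕ)),
    fun ψ hψ => ?_⟩
  have e : ∑ n ∈ range (∑ j ∈ μ.S, ⌊Q * μ.w j⌋₊), (ψ (c n) - μ.avg ψ) =
      ∑ j ∈ μ.S, (((⌊Q * μ.w j⌋₊ : ℝ) - Q * μ.w j : ℝ) : ℂ) * (ψ (μ.p j) - μ.avg ψ) := by
    rw [hc fun s => ψ s - μ.avg ψ]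
    have h0 : ∑ j ∈ μ.S, (μ.w j : ℂ) * (ψ (μ.p j) - μ.avg ψ) = 0 := by
      have := μ.avg_sub ψ fun _ => μ.avg ψ
      rw [μ.avg_const, sub_self] at this
      exact this
    push_cast
    simp only [sub_mul, sum_sub_distrib, mul_assoc, ← mul_sum, h0, mul_zero, sub_zero]
  rw [e]
  refine (norm_sum_le _ _).trans ((sum_le_card_nsmul _ _ 2 fun j _ => ?_).trans ?_)
  · rw [norm_mul, Complex.norm_real, Real.norm_eq_abs]
    have a1 : |(⌊Q * μ.w j⌋₊ : ℝ) - Q * μ.w j| ≤ 1 := Nat.abs_floor_sub_le (hw j)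
    have a2 : ‖ψ (μ.p j) - μ.avg ψ‖ ≤ 2 :=
      (norm_sub_le _ _).trans (by linarith [hψ (μ.p j), μ.norm_avg_le hψ])
    exact (mul_le_mul a1 a2 (norm_nonneg _) zero_le_one).trans (by norm_num)
  · have : 2 * (μ.S.card : ℝ) / ε ≤ (∑ j ∈ μ.S, ⌊Q * μ.w j⌋₊ : ℕ) := by linarith
    rw [div_le_iff₀' hε] at this
    rw [nsmul_eq_mul]; linarith

lemma seq_per (μ : Mean) (ε : ℝ) (hε : 0 < ε) : ∃ (D : ℕ) (c : ℕ → ℤ),
    ∀ ψ : ℤ → ℂ, (∀ s, ‖ψ s‖ ≤ 1) → ∀ N : ℕ,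
      ‖∑ n ∈ range N, (ψ (c n) - μ.avg ψ)‖ ≤ ε * N + D := by
  obtain ⟨q, c, hq, h⟩ := seq_block μ ε hε
  refine ⟨2 * q, fun n => c (n % q), fun ψ hψ N => ?_⟩
  induction N using Nat.strong_induction_on with
  | _ N ih =>
    rcases lt_or_ge N q with hN | hN
    · refine (norm_sum_le _ _).trans ((sum_le_card_nsmul _ _ 2 fun j _ => ?_).trans ?_)
      · exact (norm_sub_le _ _).trans (by linarith [hψ (c (j % q)), μ.norm_avg_le hψ])
      · have : (N : ℝ) ≤ q := by exact_mod_cast hN.le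
        have : 0 ≤ ε * N := by positivity
        simp only [card_range, nsmul_eq_mul]; push_cast; linarith
    · obtain ⟨N', rfl⟩ := Nat.exists_eq_add_of_le hN
      rw [sum_range_add]
      refine (norm_add_le _ _).trans ?_
      have h1 := ih N' (by omega)
      have h2 := h ψ hψ
      rw [← sum_congr rfl (f := fun n => ψ (c (n % q)) - μ.avg ψ) fun x hx => by
        rw [Nat.mod_eq_of_lt (mem_range.1 hx)]] at h2
      simp only [Nat.add_mod_left]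
      push_cast at h1 ⊢; linarith

lemma seq_idx {A : ℕ → ℕ} (hA : StrictMono A) :
    ∃ idx : ℕ → ℕ, ∀ i n, A i ≤ n → n < A (i + 1) → idx n = i := by
  classical
  have h : ∀ n, ∃ i, n < A (i + 1) := fun n => ⟨n, hA.le_apply (x := n + 1)⟩
  refine ⟨fun n => Nat.find (h n), fun i n h1 h2 => (Nat.find_eq_iff _).2 ⟨h2, fun j hj => ?_⟩⟩
  have := hA.monotone (Nat.succ_le_of_lt hj)
  exact not_lt.2 (this.trans h1)

lemma seq_ces (b : ℕ → ℤ) (ψ : ℤ → ℂ) (N : ℕ) :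
    ces (fun n => b (n - 1)) ψ N = (N : ℂ)⁻¹ * ∑ n ∈ range N, ψ (b n) := by
  unfold ces
  congr 1
  induction N with
  | zero => simp
  | succ N ih => rw [sum_Icc_succ_top (by omega), ih, sum_range_succ]; simp

lemma seq_main (μ : ℕ → Mean) : ∃ (A : ℕ → ℕ) (b : ℕ → ℤ), StrictMono A ∧
    ∀ ψ : ℤ → ℂ, (∀ s, ‖ψ s‖ ≤ 1) → ∀ i N : ℕ, A (i + 1) ≤ N → N ≤ A (i + 2) →
      ‖∑ n ∈ range N, ψ (b n) - (A (i + 1) * (μ i).avg ψ + (N - A (i + 1)) * (μ (i + 1)).avg ψ)‖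
        ≤ 6 * N / (i + 1) := by
  choose D c hc using fun i : ℕ => seq_per (μ i) (1 / (i + 1)) (by positivity)
  obtain ⟨A, hA⟩ : ∃ A : ℕ → ℕ, ∀ i, A (i + 1) = (i + 1) * (A i + D i + D (i + 1) + 1) :=
    ⟨fun i => Nat.rec 0 (fun i a => (i + 1) * (a + D i + D (i + 1) + 1)) i, fun _ => rfl⟩
  have hAm : StrictMono A := strictMono_nat_of_lt_succ fun i => by rw [hA]; nlinarith
  obtain ⟨idx, hidx⟩ := seq_idx hAm
  refine ⟨A, fun n => c (idx n) n, hAm, fun ψ hψ i N h1 h2 => ?_⟩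
  have key : ∀ j M : ℕ, A j ≤ M → M ≤ A (j + 1) →
      ‖∑ n ∈ Ico (A j) M, ψ (c (idx n) n) - ((M : ℂ) - (A j : ℕ)) * (μ j).avg ψ‖ ≤
        2 * M / (j + 1) + 2 * D j := by
    intro j M a1 a2
    have e : ∑ n ∈ Ico (A j) M, ψ (c (idx n) n) - (M - A j) * (μ j).avg ψ =
        ∑ n ∈ range M, (ψ (c j n) - (μ j).avg ψ) -
          ∑ n ∈ range (A j), (ψ (c j n) - (μ j).avg ψ) := by
      rw [← sum_Ico_eq_sub _ a1, sum_sub_distrib, sum_const, Nat.card_Ico, nsmul_eq_mul,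
        Nat.cast_sub a1]
      congr 1
      exact sum_congr rfl fun n hn => by
        rw [hidx j n (mem_Ico.1 hn).1 ((mem_Ico.1 hn).2.trans_le a2)]
    rw [e]
    refine (norm_sub_le _ _).trans ?_
    have b1 := hc j ψ hψ M
    have b2 := hc j ψ hψ (A j)
    have b3 : 1 / ((j : ℝ) + 1) * A j ≤ 1 / ((j : ℝ) + 1) * M := by gcongr
    have b4 : 2 * (M : ℝ) / (j + 1) = 2 * (1 / ((j : ℝ) + 1) * M) := by ring
    linarith
  have k1 := key i (A (i + 1)) (hAm.monotone (Nat.le_succ i)) le_rfl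
  have k2 := key (i + 1) N h1 h2
  have k0 : ‖∑ n ∈ range (A i), (ψ (c (idx n) n) - (μ i).avg ψ)‖ ≤ 2 * A i := by
    refine (norm_sum_le _ _).trans ((sum_le_card_nsmul _ _ 2 fun j _ => ?_).trans ?_)
    · exact (norm_sub_le _ _).trans (by linarith [hψ (c (idx j) j), (μ i).norm_avg_le hψ])
    · simp [mul_comm]
  have e : ∑ n ∈ range N, ψ (c (idx n) n) -
      (A (i + 1) * (μ i).avg ψ + (N - A (i + 1)) * (μ (i + 1)).avg ψ) =
      ∑ n ∈ range (A i), (ψ (c (idx n) n) - (μ i).avg ψ) +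
      (∑ n ∈ Ico (A i) (A (i + 1)), ψ (c (idx n) n) - (A (i + 1) - A i) * (μ i).avg ψ) +
      (∑ n ∈ Ico (A (i + 1)) N, ψ (c (idx n) n) - (N - A (i + 1)) * (μ (i + 1)).avg ψ) := by
    rw [← sum_range_add_sum_Ico _ h1, ← sum_range_add_sum_Ico _ (hAm.monotone (Nat.le_succ i)),
      sum_sub_distrib, sum_const, card_range, nsmul_eq_mul]
    ring
  rw [e]
  refine norm_add₃_le.trans ?_
  have hN : (A (i + 1) : ℝ) ≤ N := by exact_mod_cast h1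
  have hi : (0 : ℝ) < i + 1 := by positivity
  have c1 : (A i : ℝ) + D i + D (i + 1) ≤ N / (i + 1) := by
    rw [le_div_iff₀' hi]
    have := hA i
    have : (A (i + 1) : ℝ) = (i + 1) * (A i + D i + D (i + 1) + 1) := by exact_mod_cast this
    nlinarith
  have c2 : 2 * (A (i + 1) : ℝ) / (i + 1) ≤ 2 * N / (i + 1) := by gcongr
  have c3 : 2 * (N : ℝ) / ((i + 1 : ℕ) + 1) ≤ 2 * N / (i + 1) := by
    push_cast; gcongr; linarith
  have c4 : 2 * (N : ℝ) / (i + 1) = 2 * (N / (i + 1)) := by ring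
  have c5 : 6 * (N : ℝ) / (i + 1) = 6 * (N / (i + 1)) := by ring
  linarith

lemma seq_scale {ψ : ℤ → ℂ} {C : ℝ} (h : ∀ s, ‖ψ s‖ ≤ C) :
    ∃ (c : ℂ) (φ : ℤ → ℂ), (∀ s, ‖φ s‖ ≤ 1) ∧ ψ = fun s => c * φ s := by
  have hC : 0 < C + 1 := by linarith [norm_nonneg (ψ 0), h 0]
  refine ⟨((C + 1 : ℝ) : ℂ), fun s => ((C + 1 : ℝ) : ℂ)⁻¹ * ψ s, fun s => ?_, ?_⟩
  · rw [norm_mul, norm_inv, Complex.norm_real, Real.norm_of_nonneg hC.le, inv_mul_le_iff₀ hC]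
    linarith [h s]
  · ext s
    rw [mul_inv_cancel_left₀ (by exact_mod_cast hC.ne')]

lemma seq_ces_mul (a : ℕ → ℤ) (c : ℂ) (φ : ℤ → ℂ) (N : ℕ) :
    ces a (fun s => c * φ s) N = c * ces a φ N := by
  simp only [ces, ← mul_sum]; ring

theorem exists_seq (μ : ℕ → Mean) : ∃ a : ℕ → ℤ,
    (∀ (ψ : ℤ → ℂ) (C : ℝ) (l : ℂ), (∀ s, ‖ψ s‖ ≤ C) →
      Tendsto (fun i => (μ i).avg ψ) atTop (𝓝 l) → Tendsto (ces a ψ) atTop (𝓝 l)) ∧
    ∃ n : ℕ → ℕ, Tendsto n atTop atTop ∧ ∀ (ψ : ℤ → ℂ) (C : ℝ), (∀ s, ‖ψ s‖ ≤ C) →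
      Tendsto (fun i => ces a ψ (n i) - (μ i).avg ψ) atTop (𝓝 0) := by
  obtain ⟨A, b, hA, h⟩ := seq_main μ
  have h6 : Tendsto (fun i : ℕ => (6 : ℝ) * (1 / ((i : ℝ) + 1))) atTop (𝓝 0) := by
    simpa using tendsto_one_div_add_atTop_nhds_zero_nat.const_mul (6 : ℝ)
  have hpos : ∀ i, 0 < A (i + 1) := fun i => lt_of_le_of_lt (Nat.zero_le _) (hA (Nat.lt_succ_self i))
  refine ⟨fun n => b (n - 1), fun ψ C l hψ hl => ?_, fun i => A (i + 1),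
    hA.tendsto_atTop.comp (tendsto_add_atTop_nat 1), fun ψ C hψ => ?_⟩
  · obtain ⟨c, φ, hφ, e⟩ := seq_scale hψ
    rw [Metric.tendsto_atTop] at hl ⊢
    intro ε hε
    obtain ⟨i₀, hi₀⟩ := hl (ε / 3) (by positivity)
    obtain ⟨i₁, hi₁⟩ := eventually_atTop.1
      ((h6.const_mul ‖c‖).eventually_lt_const (u := ε / 3) (by simpa using hε))
    refine ⟨A (i₀ + i₁ + 1), fun N hN => ?_⟩
    obtain ⟨i, h0, h1, h2⟩ : ∃ i, i₀ + i₁ ≤ i ∧ A (i + 1) ≤ N ∧ N < A (i + 2) := by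
      classical
      have hh : ∃ i, N < A (i + 1) := ⟨N, hA.le_apply (x := N + 1)⟩
      have a1 := Nat.find_spec hh
      have a2 : i₀ + i₁ < Nat.find hh := by
        by_contra hc
        have := hA.monotone (Nat.succ_le_succ (not_lt.1 hc))
        exact absurd (a1.trans_le this) (not_lt.2 hN)
      obtain ⟨i, hi⟩ : ∃ i, Nat.find hh = i + 1 := ⟨Nat.find hh - 1, by omega⟩
      exact ⟨i, by omega, not_lt.1 (Nat.find_min hh (by omega)), by rwa [hi] at a1⟩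
    have hN0 : (0 : ℝ) < N := by exact_mod_cast (hpos i).trans_le h1
    have hNc : (N : ℂ) ≠ 0 := by exact_mod_cast hN0.ne'
    have b1 := hi₀ i (by omega)
    have b2 := hi₀ (i + 1) (by omega)
    have b3 := hi₁ i (by omega)
    have b4 := h φ hφ i N h1 h2.le
    rw [dist_eq_norm] at b1 b2 ⊢
    have e1 : ces (fun n => b (n - 1)) ψ N - l = c * ((N : ℂ)⁻¹ * (∑ n ∈ range N, φ (b n) -
        (A (i + 1) * (μ i).avg φ + (N - A (i + 1)) * (μ (i + 1)).avg φ))) +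
        ((A (i + 1) / N : ℝ) : ℂ) * ((μ i).avg ψ - l) +
        ((1 - A (i + 1) / N : ℝ) : ℂ) * ((μ (i + 1)).avg ψ - l) := by
      rw [e, seq_ces_mul, seq_ces, Mean.avg_const_mul, Mean.avg_const_mul]
      push_cast; field_simp; ring
    have t0 : (0 : ℝ) ≤ A (i + 1) / N := by positivity
    have t1 : (A (i + 1) : ℝ) / N ≤ 1 := div_le_one_of_le₀ (by exact_mod_cast h1) hN0.le
    rw [e1]
    refine norm_add₃_le.trans_lt ?_
    simp only [norm_mul, norm_inv, Complex.norm_real, Complex.norm_natCast]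
    rw [Real.norm_of_nonneg t0, Real.norm_of_nonneg (by linarith)]
    have c1 : ‖c‖ * ((N : ℝ)⁻¹ * ‖∑ n ∈ range N, φ (b n) -
        (A (i + 1) * (μ i).avg φ + (N - A (i + 1)) * (μ (i + 1)).avg φ)‖) ≤
        ‖c‖ * (6 * (1 / ((i : ℝ) + 1))) := by
      refine mul_le_mul_of_nonneg_left ?_ (norm_nonneg _)
      rw [inv_mul_le_iff₀ hN0]
      exact b4.trans (le_of_eq (by ring))
    nlinarith [norm_nonneg ((μ i).avg ψ - l), norm_nonneg ((μ (i + 1)).avg ψ - l)]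
  · obtain ⟨c, φ, hφ, rfl⟩ := seq_scale hψ
    simp only [seq_ces_mul, Mean.avg_const_mul, ← mul_sub]
    rw [← mul_zero c]
    refine Tendsto.const_mul c (squeeze_zero_norm (fun i => ?_) h6)
    have b4 := h φ hφ i (A (i + 1)) le_rfl (hA.monotone (Nat.le_succ _))
    have hN0 : (0 : ℝ) < A (i + 1) := by exact_mod_cast hpos i
    have hNc : (A (i + 1) : ℂ) ≠ 0 := by exact_mod_cast hN0.ne'
    rw [sub_self, zero_mul, add_zero] at b4
    rw [seq_ces, ← inv_mul_cancel_left₀ hNc ((μ i).avg φ), ← mul_sub, norm_mul, norm_inv,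
      Complex.norm_natCast, inv_mul_le_iff₀ hN0]
    exact b4.trans (le_of_eq (by ring))

end Pool.Agent.P.MP_fc4783_an
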