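import Pool.Agent.P.MP_fc4783_an.Basic

/-!
The measure preserving system: a weak limit of torus rotations read through a quadratic form.
-/

namespace Pool.Agent.P.MP_fc4783_an

open Filter Topology Finset MeasureTheory

lemma sys_periodic : Function.Periodic dd 1 := fun x => by
  have : 3 * (x + 1) = 3 * x + ((3 : ℤ) : ℝ) := by push_cast; ring
  unfold dd
  rw [this, round_add_intCast, Int.cast_add]
  exact add_eq_left.2 rfl

/-- The function `dd` on the circle. -/
noncomputable def sysD (x : UnitAddCircle) : ZMod 3 := sys_periodic.lift x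

lemma sys_meas : Measurable sysD := by
  refine measurable_from_quotient.2 ?_
  change Measurable dd
  have : dd = fun x : ℝ => ((⌊3 * x + 1 / 2⌋ : ℤ) : ZMod 3) := by
    ext x; unfold dd; rw [round_eq]
  rw [this]
  exact (measurable_of_countable (fun n : ℤ => (n : ZMod 3))).comp
    (Int.measurable_floor.comp (by fun_prop))

lemma sys_round {y v : ℝ} (h : |v| < dZ (y + 1 / 2)) : round (y + v) = round y := by
  rw [round_eq, round_eq, Int.floor_eq_iff]
  have h1 := dZ_le (y + 1 / 2) ⌊y + 1 / 2⌋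
  have h2 := dZ_le (y + 1 / 2) (⌊y + 1 / 2⌋ + 1)
  have h3 := Int.floor_le (y + 1 / 2)
  have h4 := Int.lt_floor_add_one (y + 1 / 2)
  push_cast at h2
  rw [abs_of_nonneg (by linarith)] at h1
  rw [abs_of_nonpos (by linarith)] at h2
  have := abs_lt.1 (h.trans_le h1)
  have := abs_lt.1 (h.trans_le h2)
  constructor <;> linarith

/-- The exceptional set. -/
def sysB (r : ℝ) : Set UnitAddCircle :=
  (fun x => (3 : ℤ) • x) ⁻¹' Metric.closedBall (((-(1 / 2) : ℝ)) : UnitAddCircle) r

lemma sys_vol {r : ℝ} (hr : 0 ≤ r) : (volume : Measure UnitAddCircle).real (sysB r) ≤ 2 * r := by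
  unfold sysB Measure.real
  rw [(Measure.measurePreserving_zsmul volume (by norm_num : (3 : ℤ) ≠ 0)).measure_preimage
    measurableSet_closedBall.nullMeasurableSet, AddCircle.volume_closedBall,
    ENNReal.toReal_ofReal (by positivity)]
  exact min_le_right _ _

lemma sys_step (t : ℝ) (x : UnitAddCircle) (hx : x ∉ sysB (2 * dZ (3 * t))) :
    sysD (x + (t : ℝ)) = sysD x + dd t ∧ sysD (x + (2 * t : ℝ)) = sysD x + 2 * dd t := by
  obtain ⟨y, rfl⟩ := QuotientAddGroup.mk_surjective x
  have h : 2 * dZ (3 * t) < dZ (3 * y + 1 / 2) := by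
    simp only [sysB, Set.mem_preimage, Metric.mem_closedBall, not_le, dist_eq_norm] at hx
    rw [← QuotientAddGroup.mk_zsmul, ← QuotientAddGroup.mk_sub, UnitAddCircle.norm_eq] at hx
    rwa [show (3 : ℤ) • y - -(1 / 2) = 3 * y + 1 / 2 by simp] at hx
  have h0 := dZ_nonneg (3 * t)
  rw [← QuotientAddGroup.mk_add, ← QuotientAddGroup.mk_add]
  change dd _ = dd _ + _ ∧ dd _ = dd _ + _
  unfold dd
  have e1 : 3 * (y + t) = 3 * y + (3 * t - round (3 * t)) + round (3 * t) := by ring
  have e2 : 3 * (y + 2 * t) = 3 * y + 2 * (3 * t - round (3 * t)) + (2 * round (3 * t) : ℤ) := by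
    push_cast; ring
  rw [e1, e2, round_add_intCast, round_add_intCast, sys_round, sys_round]
  · push_cast; exact ⟨rfl, rfl⟩
  · rw [abs_mul, abs_two]; exact h
  · change dZ _ < _; linarith

lemma sys_quad (I : ℕ) (y y₁ y₂ d : ℕ → ZMod 3) (h1 : ∀ k < 2 * I, y₁ k = y k + d k)
    (h2 : ∀ k < 2 * I, y₂ k = y k + 2 * d k) : Qd I y + Qd I y₁ + Qd I y₂ = -Qd I d := by
  unfold Qd
  rw [← sum_add_distrib, ← sum_add_distrib, ← sum_neg_distrib]
  refine sum_congr rfl fun l hl => ?_
  have := mem_range.1 hl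
  rw [h1 _ (by omega), h1 _ (by omega), h2 _ (by omega), h2 _ (by omega)]
  generalize y (2 * l) = a
  generalize y (2 * l + 1) = b
  generalize d (2 * l) = c
  generalize d (2 * l + 1) = e
  revert a b c e
  decide

lemma sys_Qd {i I : ℕ} (h : i ≤ I) {d : ℕ → ZMod 3} (hd : ∀ k, i ≤ k → d k = 0) :
    Qd I d = Qd i d := by
  unfold Qd
  refine (sum_subset (range_mono h) fun l _ hl => ?_).symm
  rw [hd _ (by have := not_lt.1 (fun h => hl (mem_range.2 h)); omega), zero_mul]

/-- The shift. -/
def sysT : (ℤ → ZMod 3) ≃ᵐ (ℤ → ZMod 3) where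
  toFun u m := u (m + 1)
  invFun u m := u (m - 1)
  left_inv u := by ext m; simp
  right_inv u := by ext m; simp
  measurable_toFun := measurable_pi_lambda _ fun _ => measurable_pi_apply _
  measurable_invFun := measurable_pi_lambda _ fun _ => measurable_pi_apply _

lemma sys_pow (s : ℤ) (u : ℤ → ZMod 3) (m : ℤ) : (sysT.toEquiv ^ s) u m = u (m + s) := by
  induction s using Int.induction_on generalizing m with
  | zero => simp
  | succ s ih =>
    rw [add_comm (s : ℤ), zpow_one_add, Equiv.Perm.mul_apply]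
    change (sysT.toEquiv ^ (s : ℤ)) u (m + 1) = _
    rw [ih, add_assoc]
  | pred s ih =>
    rw [sub_eq_neg_add, zpow_add, zpow_neg_one, Equiv.Perm.mul_apply]
    change (sysT.toEquiv ^ (-s : ℤ)) u (m - 1) = _
    rw [ih]; congr 1; ring

instance sys_prob : IsProbabilityMeasure (volume : Measure UnitAddCircle) :=
  ⟨UnitAddCircle.measure_univ⟩

/-- The coding map. -/
noncomputable def sysΦ (θ : ℕ → ℝ) (I : ℕ) (x : ℕ → UnitAddCircle) (m : ℤ) : ZMod 3 :=
  Qd I fun k => sysD (x k + (m * θ k : ℝ))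

lemma sys_measΦ (θ : ℕ → ℝ) (I : ℕ) : Measurable (sysΦ θ I) := by
  refine measurable_pi_lambda _ fun m => ?_
  unfold sysΦ Qd
  refine Finset.measurable_fun_sum _ fun l _ => ?_
  have h : ∀ k, Measurable fun x : ℕ → UnitAddCircle => sysD (x k + (m * θ k : ℝ)) := fun k =>
    sys_meas.comp ((measurable_pi_apply k).add_const _)
  exact (h _).mul (h _)

/-- The approximating measures. -/
noncomputable def sysν (θ : ℕ → ℝ) (I : ℕ) : ProbabilityMeasure (ℤ → ZMod 3) :=
  ⟨(Measure.infinitePi fun _ : ℕ => (volume : Measure UnitAddCircle)).map (sysΦ θ I),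
    Measure.isProbabilityMeasure_map (sys_measΦ θ I).aemeasurable⟩

lemma sys_inv (θ : ℕ → ℝ) (I : ℕ) :
    (sysν θ I : Measure (ℤ → ZMod 3)).map sysT = sysν θ I := by
  have h := Measure.infinitePi_map_pi (fun _ : ℕ => (volume : Measure UnitAddCircle))
    (f := fun k x => x + (θ k : ℝ)) fun k => measurable_add_const _
  simp only [map_add_right_eq_self] at h
  change (Measure.map _ _).map _ = Measure.map _ _
  rw [Measure.map_map sysT.measurable (sys_measΦ θ I)]
  conv_rhs => rw [← h]
  rw [Measure.map_map (sys_measΦ θ I) (by fun_prop)]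
  congr 1
  ext x m
  change sysΦ θ I x (m + 1) = _
  simp only [sysΦ, Function.comp]
  congr 1; ext k; congr 1
  rw [add_assoc, ← QuotientAddGroup.mk_add]
  congr 2; push_cast; ring

lemma sys_cont (s : ℤ) :
    Continuous fun u : ℤ → ZMod 3 => om (u 0) * om (u s) * om (u (2 * s)) := by
  have : Continuous om := continuous_of_discreteTopology
  fun_prop

lemma sys_bound (θ : ℕ → ℝ) (I : ℕ) (s : ℤ) :
    ‖∫ u, om (u 0) * om (u s) * om (u (2 * s)) ∂(sysν θ I : Measure (ℤ → ZMod 3)) -
      om (-Qd I fun k => dd (s * θ k))‖ ≤ 8 * ∑ k ∈ range (2 * I), dZ (s * (3 * θ k)) := by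
  set P := Measure.infinitePi fun _ : ℕ => (volume : Measure UnitAddCircle)
  have hm : Measurable fun x => om (sysΦ θ I x 0) * om (sysΦ θ I x s) * om (sysΦ θ I x (2 * s)) :=
    (sys_cont s).measurable.comp (sys_measΦ θ I)
  change ‖∫ u, _ ∂(P.map _) - _‖ ≤ _
  rw [integral_map (sys_measΦ θ I).aemeasurable (sys_cont s).aestronglyMeasurable]
  have e : om (-Qd I fun k => dd (s * θ k)) = ∫ _, om (-Qd I fun k => dd (s * θ k)) ∂P := by simp
  rw [e, ← integral_sub (Integrable.of_bound hm.aestronglyMeasurable 1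
    (Eventually.of_forall fun x => by simp)) (integrable_const _),
    ← setIntegral_eq_integral_of_forall_compl_eq_zero
      (s := ⋃ k ∈ range (2 * I), (fun x => x k) ⁻¹' sysB (2 * dZ (3 * (s * θ k))))]
  · refine (norm_setIntegral_le_of_norm_le_const (C := 2) (measure_lt_top _ _) fun x _ =>
      (norm_sub_le _ _).trans (by simp; norm_num)).trans ?_
    have := (measureReal_biUnion_finset_le (μ := P) (range (2 * I))
      fun k => (fun x => x k) ⁻¹' sysB (2 * dZ (3 * (s * θ k)))).trans
        (sum_le_sum (g := fun k => 4 * dZ (s * (3 * θ k))) fun k _ => by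
          have h := sys_vol (r := 2 * dZ (3 * (s * θ k))) (by linarith [dZ_nonneg (3 * (s * θ k))])
          rw [mul_left_comm (s : ℝ)]
          refine le_trans (le_of_eq ?_) (h.trans (le_of_eq (by ring)))
          exact (measurePreserving_eval_infinitePi _ k).measureReal_preimage
            (measurableSet_closedBall.preimage (by fun_prop)).nullMeasurableSet)
    rw [← mul_sum] at this
    linarith
  · intro x hx
    simp only [Set.mem_iUnion, not_exists, Set.mem_preimage, mem_range] at hx
    rw [← om_add, ← om_add, sub_eq_zero]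
    congr 1
    refine sys_quad I _ _ _ _ (fun k hk => ?_) fun k hk => ?_
    · simpa using (sys_step _ _ (hx k hk)).1
    · simpa [mul_assoc] using (sys_step _ _ (hx k hk)).2

theorem exists_system (θ : ℕ → ℝ) :
    ∃ (X : Type) (_ : MeasurableSpace X) (μ : Measure X) (_ : IsProbabilityMeasure μ)
      (T : X ≃ᵐ X) (f : X → ℂ), MeasurePreserving T μ μ ∧ Measurable f ∧ (∀ x, ‖f x‖ ≤ 1) ∧
      ∀ (s : ℤ) (i : ℕ) (C : ℝ), (∀ k, i ≤ k → dd (s * θ k) = 0) →
        (∀ I, ∑ k ∈ range I, dZ (s * (3 * θ k)) ≤ C) →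
        ‖∫ x, f x * f ((T.toEquiv ^ s) x) * f ((T.toEquiv ^ (2 * s)) x) ∂μ
          - om (-Qd i fun k => dd (s * θ k))‖ ≤ 12 * C := by
  let U : Ultrafilter ℕ := Ultrafilter.of atTop
  obtain ⟨μ, -, hμ⟩ := isCompact_univ.ultrafilter_le_nhds (U.map (sysν θ)) (by simp)
  have hμ' : Tendsto (sysν θ) U (𝓝 μ) := hμ
  have hT : Continuous sysT := continuous_pi fun m => continuous_apply _
  refine ⟨ℤ → ZMod 3, inferInstance, μ, inferInstance, sysT, fun u => om (u 0),
    ⟨sysT.measurable, ?_⟩, (measurable_of_countable om).comp (measurable_pi_apply _),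
    fun x => by simp, fun s i C h1 h2 => ?_⟩
  · have h := ProbabilityMeasure.tendsto_map_of_tendsto_of_continuous _ _ hμ' hT
    have e : (fun I => (sysν θ I).map hT.measurable.aemeasurable) = sysν θ := by
      ext1 I; exact Subtype.ext (sys_inv θ I)
    rw [e] at h
    have h' := tendsto_nhds_unique h hμ'
    exact congrArg ProbabilityMeasure.toMeasure h'
  · simp only [sys_pow, zero_add]
    have h := (ProbabilityMeasure.tendsto_iff_forall_integral_rclike_tendsto ℂ).1 hμ'
      (BoundedContinuousFunction.mkOfCompact ⟨_, sys_cont s⟩)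
    refine le_of_tendsto (h.sub_const _).norm
      (((eventually_ge_atTop i).filter_mono (Ultrafilter.of_le _)).mono fun I hI => ?_)
    have h3 := sys_bound θ I s
    rw [sys_Qd hI h1] at h3
    have h4 := h2 0
    have h5 := h2 (2 * I)
    simp only [range_zero, sum_empty] at h4
    exact h3.trans (by linarith)

end Pool.Agent.P.MP_fc4783_an
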