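import Pool.Agent.P.MP_fc4783_an.Good
import Pool.Agent.P.MP_fc4783_an.Sys
import Pool.Agent.P.MP_fc4783_an.Seq

/-! The correlation sequence oscillates along the biased means. -/

namespace Pool.Agent.P.MP_fc4783_an

open Filter Topology Finset MeasureTheory

lemma re_om_sq (u : ZMod 3) : 1 / 4 ≤ (om u).re ^ 2 := by
  have h1 : om u * om u = (starRingEnd ℂ) (om u) := by
    rw [conj_om, ← om_add]; congr 1
    revert u; decide
  have h2 := congrArg Complex.re h1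
  have h3 := Complex.sq_norm (om u)
  rw [norm_om, Complex.normSq_apply] at h3
  simp only [Complex.mul_re, Complex.conj_re] at h2
  nlinarith [sq_nonneg ((om u).re + 1 / 2), sq_nonneg ((om u).re - 1)]

lemma Mean.re_avg (μ : Mean) (ψ : ℤ → ℂ) : (μ.avg ψ).re = μ.avgR fun s => (ψ s).re := by
  simp [Mean.avg, Mean.avgR]

lemma osc_point (θ : ℕ → ℝ) (i : ℕ) (s : ℤ) (c : ℂ) (t : ℝ)
    (h1 : ‖c - om (-Qd i (dv θ s))‖ ≤ 12 * t) (h2 : 1 - chi θ i s ≤ 4 * t) :
    (-1) ^ i * (Xi θ i s).re + 1 / 8 - 25 * t ≤ (-1) ^ i * (dens θ i s * c.re) := by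
  have a0 := chi_nonneg θ i s
  have a1 := chi_le_one θ i s
  have a2 : |c.re - (Xi θ i s).re| ≤ 16 * t := by
    have b1 := (Complex.abs_re_le_norm _).trans h1
    rw [← conj_om, Complex.sub_re, Complex.conj_re] at b1
    have b2 : |(om (Qd i (dv θ s))).re| ≤ 1 := (Complex.abs_re_le_norm _).trans (norm_om _).le
    rw [Xi, Complex.re_ofReal_mul]
    have b3 : |(1 - chi θ i s) * (om (Qd i (dv θ s))).re| ≤ 4 * t := by
      rw [abs_mul, abs_of_nonneg (by linarith)]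
      nlinarith [abs_nonneg (om (Qd i (dv θ s))).re]
    have := abs_add_le (c.re - (om (Qd i (dv θ s))).re)
      ((1 - chi θ i s) * (om (Qd i (dv θ s))).re)
    rw [show c.re - (om (Qd i (dv θ s))).re + (1 - chi θ i s) * (om (Qd i (dv θ s))).re =
      c.re - chi θ i s * (om (Qd i (dv θ s))).re by ring] at this
    linarith
  have a3 : 1 / 4 - 2 * t ≤ (Xi θ i s).re ^ 2 := by
    rw [Xi, Complex.re_ofReal_mul, mul_pow]
    nlinarith [re_om_sq (Qd i (dv θ s)), sq_nonneg (chi θ i s), sq_nonneg (1 - chi θ i s)]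
  have a4 : ((-1 : ℝ) ^ i) ^ 2 = 1 := by rw [← pow_mul, mul_comm, pow_mul]; simp
  have a5 : |(-1) ^ i * (dens θ i s * (c.re - (Xi θ i s).re))| ≤ 3 / 2 * (16 * t) := by
    rw [abs_mul, abs_pow, abs_neg, abs_one, one_pow, one_mul, abs_mul,
      abs_of_nonneg (dens_nonneg θ i s)]
    exact mul_le_mul (dens_le θ i s) a2 (abs_nonneg _) (by norm_num)
  have a6 : (-1) ^ i * (dens θ i s * c.re) = (-1) ^ i * (dens θ i s * (c.re - (Xi θ i s).re)) +
      (-1) ^ i * (Xi θ i s).re + ((-1) ^ i) ^ 2 * (Xi θ i s).re ^ 2 / 2 := by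
    unfold dens; ring
  rw [a6, a4]
  linarith [(abs_le.1 a5).1]

section
variable {θ : ℕ → ℝ} {ν : ℕ → ℕ → Mean} {n n' : ℤ → ℝ} {L : ℕ → ℝ → ℂ} (hS : Spec θ ν n n' L)
include hS

lemma Spec.osc (C : ℤ → ℂ) (hC : ∀ (s : ℤ) (i : ℕ) (B : ℝ), (∀ k, i ≤ k → dd (s * θ k) = 0) →
      (∀ I, ∑ k ∈ range I, dZ (s * (3 * θ k)) ≤ B) →
      ‖C s - om (-Qd i fun k => dd (s * θ k))‖ ≤ 12 * B) :
    ∀ᶠ i in atTop, 1 / 30 ≤ (-1) ^ i * ((bias θ (ν 0) i).avg C).re := by
  have h1 := hS.ex_Xi 0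
  simp only [zero_mul, ex_zero, one_mul] at h1
  rw [NormedAddGroup.tendsto_nhds_zero] at h1
  filter_upwards [h1 (1 / 40) (by norm_num)] with i hi
  have hsum : ∀ (s : ℤ) (I : ℕ), ∑ k ∈ range I, dZ (s * (3 * θ k)) ≤ ∑' k, dZ (s * (3 * θ k)) :=
    fun s I => (hS.summ s).sum_le_tsum _ fun _ _ => dZ_nonneg _
  have h2 := (ν 0 i).avgR_mono_on
    (f := fun s => ((-1) ^ i * (Xi θ i s).re + 1 / 8) - 25 * ∑' k, dZ (s * (3 * θ k)))
    (g := fun s => (-1) ^ i * (dens θ i s * (C s).re)) fun j hj =>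
      osc_point θ i _ _ _ (hC _ i _ (hS.supp i j hj) (hsum _))
        ((one_sub_chi_le θ i _).trans (by rw [← mul_sum]; linarith [hsum ((ν 0 i).p j) (2 * i)]))
  rw [Mean.avgR_sub, Mean.avgR_add, Mean.avgR_const_mul, Mean.avgR_const_mul,
    Mean.avgR_const_mul, Mean.avgR_const, ← Mean.re_avg] at h2
  have h3 : |(-1) ^ i * ((ν 0 i).avg (Xi θ i)).re| ≤ 1 / 40 := by
    rw [abs_mul, abs_pow, abs_neg, abs_one, one_pow, one_mul]
    exact (Complex.abs_re_le_norm _).trans hi.le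
  have h4 := hS.moment i
  rw [Mean.re_avg, bias, Mean.rew_avgR, mul_left_comm,
    le_inv_mul_iff₀ (by linarith [half_le_avg_dens θ (ν 0 i) i])]
  linarith [(abs_le.1 h3).1, avg_dens_le θ (ν 0 i) i]

end

lemma not_tendsto_of_osc {u : ℕ → ℂ} (h : ∀ᶠ i in atTop, 1 / 30 ≤ (-1) ^ i * (u i).re) (l : ℂ) :
    ¬ Tendsto u atTop (𝓝 l) := by
  intro hl
  have h1 := (Metric.tendsto_nhds.1 ((Complex.continuous_re.tendsto _).comp hl)) (1 / 30)
    (by norm_num)
  obtain ⟨N, hN⟩ := eventually_atTop.1 (h.and h1)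
  obtain ⟨a1, a2⟩ := hN (2 * N) (by omega)
  obtain ⟨b1, b2⟩ := hN (2 * N + 1) (by omega)
  simp only [pow_succ, pow_mul, Function.comp, Real.dist_eq] at a1 a2 b1 b2
  norm_num at a1 b1
  linarith [(abs_lt.1 a2).2, (abs_lt.1 b2).1]

lemma measurable_zpow {X : Type} [MeasurableSpace X] (T : X ≃ᵐ X) (s : ℤ) :
    Measurable (T.toEquiv ^ s : Equiv.Perm X) := by
  induction s using Int.induction_on with
  | zero => simpa using measurable_id
  | succ k ih => rw [zpow_add_one, Equiv.Perm.coe_mul]; exact ih.comp T.measurable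
  | pred k ih => rw [zpow_sub_one, Equiv.Perm.coe_mul]; exact ih.comp T.symm.measurable

lemma ces_tendsto_of_L2 {X : Type} [MeasurableSpace X] (μ : Measure X) [IsProbabilityMeasure μ]
    (T : X ≃ᵐ X) (f : X → ℂ) (hf : Measurable f) (hf1 : ∀ x, ‖f x‖ ≤ 1) (a : ℕ → ℤ) (h : X → ℂ)
    (hh : MemLp h 2 μ) (hl : Tendsto (fun N : ℕ => eLpNorm (fun x => (N : ℂ)⁻¹ *
      ∑ n ∈ Icc 1 N, f ((T.toEquiv ^ a n) x) * f ((T.toEquiv ^ (2 * a n)) x) - h x) 2 μ)
      atTop (𝓝 0)) :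
    Tendsto (ces a fun s => ∫ x, f x * f ((T.toEquiv ^ s) x) * f ((T.toEquiv ^ (2 * s)) x) ∂μ)
      atTop (𝓝 (∫ x, f x * h x ∂μ)) := by
  have m1 : ∀ s : ℤ, Measurable fun x => f ((T.toEquiv ^ s) x) * f ((T.toEquiv ^ (2 * s)) x) :=
    fun s => (hf.comp (measurable_zpow T s)).mul (hf.comp (measurable_zpow T _))
  have i1 : ∀ s : ℤ, Integrable
      (fun x => f x * f ((T.toEquiv ^ s) x) * f ((T.toEquiv ^ (2 * s)) x)) μ := fun s => by
    simp only [mul_assoc]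
    refine Integrable.of_bound (hf.mul (m1 s)).aestronglyMeasurable 1 (ae_of_all _ fun x => ?_)
    rw [norm_mul, norm_mul]
    exact mul_le_one₀ (hf1 _) (by positivity) (mul_le_one₀ (hf1 _) (by positivity) (hf1 _))
  have i2 : Integrable (fun x => f x * h x) μ :=
    (hh.integrable one_le_two).bdd_mul hf.aestronglyMeasurable (ae_of_all _ hf1)
  rw [tendsto_iff_edist_tendsto_0]
  refine tendsto_of_tendsto_of_tendsto_of_le_of_le tendsto_const_nhds hl
    (fun _ => zero_le) fun N => ?_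
  rw [edist_eq_enorm_sub, ces, ← integral_finsetSum _ fun n _ => i1 (a n), ← integral_const_mul,
    ← integral_sub ((integrable_finsetSum _ fun n _ => i1 (a n)).const_mul _) i2]
  refine (enorm_integral_le_lintegral_enorm _).trans (le_trans ?_
    (eLpNorm_le_eLpNorm_of_exponent_le one_le_two ?_))
  · rw [eLpNorm_one_eq_lintegral_enorm]
    refine lintegral_mono fun x => ?_
    simp only [mul_assoc, ← mul_sum]
    rw [mul_left_comm, ← mul_sub, enorm_mul]
    refine mul_le_of_le_one_left' ?_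
    rw [← ofReal_norm]
    exact ENNReal.ofReal_le_one.2 (hf1 x)
  · exact ((Finset.measurable_sum _ fun n _ => m1 (a n)).const_mul _).aestronglyMeasurable.sub
      hh.aestronglyMeasurable

end Pool.Agent.P.MP_fc4783_an
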