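import Pool.Agent.P.MP_fc4783_an.Vdc

/-! Sections of a nontrivial theta bundle along an irrational line are null sequences. -/

namespace Pool.Agent.P.MP_fc4783_an

open Filter Topology Finset

section
variable {ι : Type} [Fintype ι]

/-- Real vector of an integer vector. -/
def cv (v : ι → ℤ) : ι → ℝ := fun a => (v a : ℝ)

lemma pure_decomp (t : ι → ℝ) : ∃ (ξ : ι → ℝ) (v : ι → ℤ), ‖ξ‖ ≤ 1 ∧ t = ξ + cv v := by
  refine ⟨fun a => Int.fract (t a), fun a => ⌊t a⌋, ?_, ?_⟩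
  · refine (pi_norm_le_iff_of_nonneg zero_le_one).2 fun a => ?_
    rw [Real.norm_of_nonneg (Int.fract_nonneg _)]; exact (Int.fract_lt_one _).le
  · ext a; simp [cv]

variable {γ : ι → ℝ} {ω : (ι → ℝ) →ₗ[ℝ] (ι → ℝ) →ₗ[ℝ] ℝ} {c : (ι → ℤ) → ℝ} {f : (ι → ℝ) → ℂ}

omit [Fintype ι] in
lemma pure_anti (halt : ∀ x, ω x x = 0) (x y : ι → ℝ) : ω x y = -ω y x := by
  have := halt (x + y)
  simp only [map_add, LinearMap.add_apply, halt] at this
  linarith

lemma pure_bdd (hf : Continuous f)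
    (haut : ∀ t v, f (t + cv v) = ex (c v + ω (cv v) t / 2) * f t) :
    ∃ C : ℝ, 1 ≤ C ∧ ∀ t, ‖f t‖ ≤ C := by
  obtain ⟨C, hC⟩ := (isCompact_closedBall (0 : ι → ℝ) 1).exists_bound_of_continuousOn
    hf.continuousOn
  refine ⟨max 1 C, le_max_left _ _, fun t => ?_⟩
  obtain ⟨ξ, v, h1, rfl⟩ := pure_decomp t
  rw [haut, norm_mul, norm_ex, one_mul]
  exact (hC ξ (by simpa using h1)).trans (le_max_right _ _)

omit [Fintype ι] in
lemma pure_int (halt : ∀ x, ω x x = 0) (t : ι → ℝ) (ht : f t ≠ 0)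
    (haut : ∀ t v, f (t + cv v) = ex (c v + ω (cv v) t / 2) * f t) (v v' : ι → ℤ) :
    ∃ z : ℤ, ω (cv v) (cv v') = z := by
  have h1 : f (t + cv v' + cv v) = f (t + cv v + cv v') := by congr 1; abel
  rw [haut, haut, haut, haut, ← mul_assoc, ← mul_assoc, ← ex_add, ← ex_add] at h1
  have h2 := mul_right_cancel₀ ht h1
  rw [← ex_eq_one_iff]
  have h3 : c v + ω (cv v) (t + cv v') / 2 + (c v' + ω (cv v') t / 2) =
      ω (cv v) (cv v') + (c v' + ω (cv v') (t + cv v) / 2 + (c v + ω (cv v) t / 2)) := by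
    simp only [map_add]; rw [pure_anti halt (cv v') (cv v)]; ring
  rw [h3, ex_add] at h2
  exact mul_right_cancel₀ (ex_ne_zero _) (h2.trans (one_mul _).symm)

lemma pure_cocycle (halt : ∀ x, ω x x = 0) (hf : Continuous f)
    (haut : ∀ t v, f (t + cv v) = ex (c v + ω (cv v) t / 2) * f t) (ε : ℝ) (hε : 0 < ε) :
    ∃ δ : ℝ, 0 < δ ∧ ∀ (h : ℤ) (v : ι → ℤ), ‖(h : ℝ) • γ - cv v‖ ≤ δ →
      |ω (cv v) γ| ≤ 1 / 2 ∧ ∃ c' : ℂ, ‖c'‖ = 1 ∧ ∀ s : ℤ,
        ‖f (((s + h : ℤ) : ℝ) • γ) - c' * ex (ω (cv v) γ * s) * f ((s : ℝ) • γ)‖ ≤ ε := by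
  have hω : Continuous fun p : (ι → ℝ) × (ι → ℝ) => ω p.1 p.2 :=
    ω.toContinuousBilinearMap.continuous₂
  set g : (ι → ℝ) × (ι → ℝ) → ℂ := fun p => ex (-ω p.1 p.2 / 2) * f (p.1 + p.2) with hg
  have hgc : Continuous g :=
    (continuous_ex.comp (hω.neg.div_const 2)).mul (hf.comp (continuous_fst.add continuous_snd))
  have huc := (isCompact_closedBall (0 : (ι → ℝ) × (ι → ℝ)) 1).uniformContinuousOn_of_continuous
    hgc.continuousOn
  obtain ⟨δ₁, hδ₁, H₁⟩ := Metric.uniformContinuousOn_iff_le.1 huc ε hε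
  have hl : Continuous fun ξ : ι → ℝ => ω γ ξ := (ω γ).continuous_of_finiteDimensional
  obtain ⟨δ₂, hδ₂, H₂⟩ := Metric.continuousAt_iff.1 (hl.continuousAt (x := 0)) (1 / 2)
    (by norm_num)
  refine ⟨min 1 (min δ₁ (δ₂ / 2)), by positivity, fun h v hv => ?_⟩
  set ξ := (h : ℝ) • γ - cv v with hξ
  have hv1 : ‖ξ‖ ≤ 1 := hv.trans (min_le_left _ _)
  have hv2 : ‖ξ‖ ≤ δ₁ := hv.trans ((min_le_right _ _).trans (min_le_left _ _))
  have hv3 : ‖ξ‖ < δ₂ := by
    have := hv.trans ((min_le_right _ _).trans (min_le_right _ _)); linarith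
  have hlam : ω γ ξ = ω (cv v) γ := by
    rw [hξ, map_sub, map_smul, halt, pure_anti halt γ (cv v)]; simp
  refine ⟨?_, ex (c v + ω (cv v) ξ / 2), norm_ex _, fun s => ?_⟩
  · have := H₂ (x := ξ) (by simpa using hv3)
    rw [← hlam]; simpa [Real.dist_eq] using this.le
  obtain ⟨ξ', v', h1, h2⟩ := pure_decomp ((s : ℝ) • γ)
  have e1 : ((s + h : ℤ) : ℝ) • γ = (ξ' + ξ + cv v') + cv v := by
    push_cast; rw [add_smul, h2, hξ]; abel
  have e2 : ω (cv v) (ξ' + ξ + cv v') = ω (cv v) γ * s + ω (cv v) ξ := by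
    have : ξ' + ξ + cv v' = (s : ℝ) • γ + ξ := by rw [h2]; abel
    rw [this, map_add, map_smul, smul_eq_mul]; ring
  have e3 : ω (cv v') ξ = ω (cv v) γ * s - ω ξ' ξ := by
    have : cv v' = (s : ℝ) • γ - ξ' := by rw [h2]; abel
    rw [this, map_sub ω, map_smul ω, LinearMap.sub_apply, LinearMap.smul_apply, hlam, smul_eq_mul]
    ring
  have e4 : f (((s + h : ℤ) : ℝ) • γ) = ex (c v + ω (cv v) ξ / 2) * ex (ω (cv v) γ * s) *
      ex (c v' + ω (cv v') ξ' / 2) * g (ξ', ξ) := by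
    rw [e1, haut, haut, hg]
    simp only [← mul_assoc, ← ex_add]
    congr 2
    rw [e2, map_add, e3]; ring
  have e5 : f ((s : ℝ) • γ) = ex (c v' + ω (cv v') ξ' / 2) * g (ξ', 0) := by
    rw [h2, haut, hg]; simp
  rw [e4, e5, ← mul_assoc _ _ (g (ξ', 0)), ← mul_sub, norm_mul, norm_mul, norm_mul, norm_ex, norm_ex, norm_ex]
  simp only [one_mul]
  rw [← dist_eq_norm]
  refine H₁ _ ?_ _ ?_ ?_
  · simp [Prod.norm_def, h1, hv1]
  · simp [Prod.norm_def, h1]
  · simpa [Prod.dist_eq, hδ₁.le] using hv2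

lemma cv_eq_sum [DecidableEq ι] (v : ι → ℤ) :
    cv v = ∑ a, (v a : ℝ) • cv (Pi.single a (1 : ℤ)) := by
  ext b; simp [cv, Pi.single_apply]

lemma pure_inf {ν n L} (hA : Adm ν n L) (hγ : LinearIndependent ℚ γ) (hω : ω ≠ 0)
    (hint : ∀ v v' : ι → ℤ, ∃ z : ℤ, ω (cv v) (cv v') = z) (ε δ : ℝ) (hε : 0 < ε) (hδ : 0 < δ) :
    {x | ∃ (h : ℤ) (v : ι → ℤ), n h ≤ ε ∧ ‖(h : ℝ) • γ - cv v‖ ≤ δ ∧ x = ω (cv v) γ}.Infinite := by
  classical
  intro hfin
  set M := hfin.toFinset.card with hM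
  have hz : ∀ (h : ℤ) (v : ι → ℤ), n h ≤ ε / (M + 1) → ‖(h : ℝ) • γ - cv v‖ ≤ δ / (M + 1) →
      ω (cv v) γ = 0 := by
    intro h v h1 h2
    by_contra hne
    have hinj : Set.InjOn (fun j : ℕ => (j : ℝ) * ω (cv v) γ) (range (M + 1) : Finset ℕ) :=
      fun a _ b _ hab => by exact_mod_cast mul_right_cancel₀ hne hab
    have hmap : ∀ j ∈ range (M + 1), (j : ℝ) * ω (cv v) γ ∈ hfin.toFinset := by
      intro j hj
      have hj' : (j : ℝ) ≤ M + 1 := by exact_mod_cast (mem_range.1 hj).le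
      have hcv : cv (j • v) = (j : ℝ) • cv v := by ext a; simp [cv]
      rw [Set.Finite.mem_toFinset]
      refine ⟨j * h, j • v, ?_, ?_, ?_⟩
      · calc _ ≤ j * n h := hA.nat_mul_le j h
          _ ≤ (M + 1) * (ε / (M + 1)) := by gcongr; exact hA.nonneg h
          _ = ε := by field_simp
      · rw [hcv]; push_cast
        rw [mul_smul, ← smul_sub, norm_smul, Real.norm_natCast]
        calc _ ≤ (M + 1) * (δ / (M + 1)) := by gcongr
          _ = δ := by field_simp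
      · rw [hcv, map_smul, LinearMap.smul_apply, smul_eq_mul]
    have := card_le_card_of_injOn _ hmap hinj
    rw [card_range] at this; omega
  set ε' := ε / (M + 1) with hε'
  set δ' := δ / (M + 1) with hδ'
  have hδ'0 : 0 < δ' := by positivity
  have hH := hA.inf (ε' / 2) (by positivity)
  -- pigeonhole
  set cell : ℤ → ι → ℤ := fun h a => ⌊Int.fract (h * γ a) / δ'⌋ with hcell
  have hfinc : (cell '' {h | n h ≤ ε' / 2}).Finite := by
    refine (Set.Finite.pi' (t := fun _ => Set.Icc (0 : ℤ) ⌊1 / δ'⌋)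
      fun _ => Set.finite_Icc _ _).subset ?_
    rintro _ ⟨h, -, rfl⟩ a
    refine ⟨Int.floor_nonneg.2 (div_nonneg (Int.fract_nonneg _) hδ'0.le), Int.floor_mono ?_⟩
    gcongr; exact (Int.fract_lt_one _).le
  obtain ⟨κ, hκ⟩ : ∃ κ, {h | n h ≤ ε' / 2 ∧ cell h = κ}.Infinite := by
    by_contra hcon
    push Not at hcon
    refine hH ((hfinc.biUnion fun κ _ => hcon κ).subset fun h hh => ?_)
    simp only [Set.mem_iUnion]
    exact ⟨cell h, ⟨h, hh, rfl⟩, hh, rfl⟩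
  obtain ⟨h₀, hh₀⟩ := hκ.nonempty
  have hgood : ∀ h, n h ≤ ε' / 2 ∧ cell h = κ → ∃ v : ι → ℤ,
      ‖((h - h₀ : ℤ) : ℝ) • γ - cv v‖ ≤ δ' ∧ ω (cv v) γ = 0 := by
    intro h hh
    have hb : ‖((h - h₀ : ℤ) : ℝ) • γ - cv (fun a => ⌊h * γ a⌋ - ⌊h₀ * γ a⌋)‖ ≤ δ' := by
      refine (pi_norm_le_iff_of_nonneg hδ'0.le).2 fun a => ?_
      have e : (((h - h₀ : ℤ) : ℝ) • γ - cv (fun a => ⌊h * γ a⌋ - ⌊h₀ * γ a⌋)) a
          = δ' * (Int.fract (h * γ a) / δ' - Int.fract (h₀ * γ a) / δ') := by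
        simp only [cv, Pi.sub_apply, Pi.smul_apply, smul_eq_mul, Int.fract]
        push_cast; field_simp; ring
      have e2 : ⌊Int.fract (h * γ a) / δ'⌋ = ⌊Int.fract (h₀ * γ a) / δ'⌋ :=
        congrFun (hh.2.trans hh₀.2.symm) a
      rw [e, norm_mul, Real.norm_of_nonneg hδ'0.le, Real.norm_eq_abs]
      have := (Int.abs_sub_lt_one_of_floor_eq_floor e2).le
      nlinarith
    refine ⟨_, hb, hz _ _ ?_ hb⟩
    linarith [hA.sub h h₀, hh.1, hh₀.1]
  have hlam : ∀ a, ω (cv (Pi.single a 1)) γ = 0 := by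
    by_contra hcon
    push Not at hcon
    obtain ⟨a₀, ha₀⟩ := hcon
    obtain ⟨π, hπ⟩ : ∃ π : Module.Dual ℚ ℝ, π (ω (cv (Pi.single a₀ 1)) γ) ≠ 0 := by
      by_contra hc; push Not at hc
      exact ha₀ ((Module.forall_dual_apply_eq_zero_iff ℚ _).1 hc)
    set b : ι → ℚ := fun a => π (ω (cv (Pi.single a 1)) γ) with hb
    set y : ℝ := ∑ a, (b a : ℝ) * γ a with hy
    have hbound : ∀ h, n h ≤ ε' / 2 ∧ cell h = κ →
        |((h - h₀ : ℤ) : ℝ)| * |y| ≤ ∑ a, |(b a : ℝ)| * δ' := by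
      intro h hh
      obtain ⟨v, hv1, hv2⟩ := hgood h hh
      have e1 : ∑ a, (v a : ℚ) * b a = 0 := by
        have : π (ω (cv v) γ) = 0 := by rw [hv2, map_zero]
        rw [cv_eq_sum, map_sum, LinearMap.sum_apply, map_sum] at this
        rw [← this]
        refine sum_congr rfl fun a _ => ?_
        rw [map_smul, LinearMap.smul_apply, smul_eq_mul, ← zsmul_eq_mul, ← zsmul_eq_mul,
          map_zsmul]
      have e2 : ∑ a, (v a : ℝ) * b a = 0 := by exact_mod_cast e1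
      have e3 : ((h - h₀ : ℤ) : ℝ) * y
          = ∑ a, (b a : ℝ) * (((h - h₀ : ℤ) : ℝ) • γ - cv v) a := by
        simp only [hy, cv, Pi.sub_apply, Pi.smul_apply, smul_eq_mul, mul_sub, sum_sub_distrib,
          mul_sum]
        rw [show ∑ a, (b a : ℝ) * v a = 0 by rw [← e2]; exact sum_congr rfl fun _ _ => by ring,
          sub_zero]
        exact sum_congr rfl fun _ _ => by ring
      rw [← abs_mul, e3]
      refine (abs_sum_le_sum_abs _ _).trans (sum_le_sum fun a _ => ?_)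
      rw [abs_mul]; gcongr
      exact (norm_le_pi_norm _ a).trans hv1
    have hy0 : y = 0 := by
      by_contra hy0
      have hyp : 0 < |y| := abs_pos.2 hy0
      set K := ⌈(∑ a, |(b a : ℝ)| * δ') / |y|⌉ with hK
      refine hκ ((Set.finite_Icc (h₀ - K) (h₀ + K)).subset fun h hh => ?_)
      have h1 : |((h - h₀ : ℤ) : ℝ)| ≤ K :=
        ((le_div_iff₀ hyp).2 (hbound h hh)).trans (Int.le_ceil _)
      have h2 : |h - h₀| ≤ K := by exact_mod_cast h1
      have := abs_le.1 h2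
      constructor <;> omega
    have := Fintype.linearIndependent_iff.1 hγ b (by
      rw [← hy0, hy]; exact sum_congr rfl fun a _ => by rw [Rat.smul_def]) a₀
    exact hπ this
  apply hω
  choose z hz' using fun a b : ι => hint (Pi.single a 1) (Pi.single b 1)
  have hcvs : ∀ a : ι, cv (Pi.single a (1 : ℤ)) = Pi.single a 1 := by
    intro a; ext b; simp [cv, Pi.single_apply]
  have hz0 : ∀ a b, z a b = 0 := by
    intro a b
    have e : ∑ b, ((z a b : ℚ)) • γ b = 0 := by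
      rw [← hlam a]
      conv_rhs => rw [pi_eq_sum_univ' γ, map_sum]
      refine sum_congr rfl fun b _ => ?_
      rw [map_smul, ← hcvs b, hz', Rat.smul_def, smul_eq_mul]; push_cast; ring
    exact_mod_cast Fintype.linearIndependent_iff.1 hγ _ e b
  refine LinearMap.pi_ext fun a x => LinearMap.pi_ext fun b y => ?_
  have e1 : (Pi.single a x : ι → ℝ) = x • cv (Pi.single a 1) := by
    rw [hcvs, ← Pi.single_smul]; simp
  have e2 : (Pi.single b y : ι → ℝ) = y • cv (Pi.single b 1) := by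
    rw [hcvs, ← Pi.single_smul]; simp
  rw [e1, e2]; simp [hz', hz0]

end

theorem pure_model {ι : Type} [Fintype ι] (γ : ι → ℝ) (hγ : LinearIndependent ℚ γ)
    (ω : (ι → ℝ) →ₗ[ℝ] (ι → ℝ) →ₗ[ℝ] ℝ) (halt : ∀ x, ω x x = 0) (hω : ω ≠ 0)
    (c : (ι → ℤ) → ℝ) (f : (ι → ℝ) → ℂ) (hf : Continuous f)
    (haut : ∀ (t : ι → ℝ) (v : ι → ℤ), f (t + fun a => (v a : ℝ)) =
      ex (c v + ω (fun a => (v a : ℝ)) t / 2) * f t) :
    Null (fun s : ℤ => f ((s : ℝ) • γ)) := by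
  classical
  have haut' : ∀ t v, f (t + cv v) = ex (c v + ω (cv v) t / 2) * f t := haut
  by_cases hf0 : ∀ t, f t = 0
  · simpa only [hf0] using Null.zero
  push Not at hf0
  obtain ⟨t₀, ht₀⟩ := hf0
  have hint := pure_int halt t₀ ht₀ haut'
  obtain ⟨C, hC1, hC⟩ := pure_bdd hf haut'
  have hC0 : 0 < C := by linarith
  intro ν n L U hA hU x
  refine tendsto_zero_of_forall (5 * C + 1) fun ε hε => ?_
  obtain ⟨δ, hδ, Hδ⟩ := pure_cocycle (γ := γ) halt hf haut' ε hε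
  have hinf := pure_inf hA hγ hω hint ε δ hε hδ
  set A : AddSubgroup ℝ := AddSubgroup.closure (Set.range fun a => ω (cv (Pi.single a 1)) γ)
  have hAfg : A.FG := (AddSubgroup.fg_iff _).2 ⟨_, rfl, Set.finite_range _⟩
  have hmem : ∀ v : ι → ℤ, ω (cv v) γ ∈ A := by
    intro v
    rw [cv_eq_sum, map_sum, LinearMap.sum_apply]
    refine A.sum_mem fun a _ => ?_
    rw [map_smul, LinearMap.smul_apply, smul_eq_mul, ← zsmul_eq_mul]
    exact A.zsmul_mem (AddSubgroup.subset_closure ⟨a, rfl⟩) _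
  obtain ⟨R, hR⟩ := exists_nat_gt (1 / ε ^ 2)
  have hR0 : (0 : ℝ) < R := lt_trans (by positivity) hR
  obtain ⟨T, hT1, hT2, hT3⟩ := exists_finset_sep _ _ hinf (hA.fin A hAfg (ε ^ 2) (by positivity)) R
  choose! hh vv hn hξ hl using hT2
  have hb : ∀ a ∈ T, |a| ≤ 1 / 2 ∧ ∃ c' : ℂ, ‖c'‖ = 1 ∧ ∀ s : ℤ,
      ‖f (((s + hh a : ℤ) : ℝ) • γ) - c' * ex (a * s) * f ((s : ℝ) • γ)‖ ≤ ε := by
    intro a ha
    have := Hδ _ _ (hξ a ha)
    rwa [← hl a ha] at this
  choose! hb1 cc hcc hcc' using hb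
  have ev1 : ∀ᶠ i in atTop, ∀ a ∈ T, ∀ ψ : ℤ → ℂ, (∀ s, ‖ψ s‖ ≤ 1) →
      ‖(ν i).avg (fun s => ψ (s + hh a)) - (ν i).avg ψ‖ ≤ n (hh a) + ε :=
    (eventually_all_finset T).2 fun a _ => hA.inv _ ε hε
  have ev2 : ∀ᶠ i in atTop, ∀ a ∈ T, ∀ b ∈ T, a ≠ b →
      ‖(ν i).avg fun s => ex ((a - b) * s)‖ ≤ ε ^ 2 := by
    refine (eventually_all_finset T).2 fun a ha => (eventually_all_finset T).2 fun b hb => ?_
    by_cases hab : a = b
    · simp [hab]
    have hlt : ‖L (a - b)‖ < ε ^ 2 := by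
      by_contra hcon
      refine hT3 a ha b hb hab ⟨?_, ?_, not_lt.1 hcon⟩
      · rw [hl a ha, hl b hb]; exact A.sub_mem (hmem _) (hmem _)
      · linarith [abs_sub a b, hb1 a ha, hb1 b hb]
    filter_upwards [(hA.lim (a - b)).norm.eventually (gt_mem_nhds hlt)] with i hi _
    exact hi.le
  filter_upwards [ev1, ev2] with i h1 h2
  set Ψ : ℤ → ℂ := fun s => f ((s : ℝ) • γ) * ex (x * s) * U i s with hΨ
  have hΨb : ∀ s, ‖Ψ s‖ ≤ C := fun s => by
    simp only [hΨ, norm_mul, norm_ex, mul_one]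
    calc _ ≤ C * 1 := by gcongr; exacts [hC _, hU.1 i s]
      _ = C := mul_one C
  have key := vdc (ν i) T (card_pos.1 (by rw [hT1]; exact_mod_cast hR0)) Ψ (fun _ => 1)
    (fun _ => zero_le_one) (fun _ => le_rfl) C hC0.le (fun s => by simpa using hΨb s)
    (fun a s => (if a ∈ T then cc a else 1) * ex (x * hh a) * ex (a * s))
    (fun a s => by
      by_cases ha : a ∈ T
      · simp [ha, hcc a ha]
      · simp [ha]) ((3 * C + 1) * ε) (ε ^ 2) (by positivity) ?_ ?_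
  · refine key.trans ?_
    have : √(1 / T.card + ε ^ 2) ≤ 2 * ε := by
      refine Real.sqrt_le_iff.2 ⟨by positivity, ?_⟩
      rw [hT1]
      have : 1 / (R : ℝ) ≤ ε ^ 2 := by
        rw [div_le_iff₀ hR0]; rw [div_lt_iff₀ (by positivity)] at hR; linarith
      nlinarith
    nlinarith
  · intro a ha
    have s1 := shift_bound (ν i) (hh a) _ C hC0 (h1 a ha) Ψ hΨb
    have s2 : ‖(ν i).avg (fun s => Ψ (s + hh a)) - (ν i).avg
        (fun s => Ψ s * ((if a ∈ T then cc a else 1) * ex (x * hh a) * ex (a * s)))‖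
        ≤ ε + C * ε := by
      refine (ν i).norm_avg_sub_le fun s => ?_
      simp only [hΨ, ha, if_true]
      have e : f (((s + hh a : ℤ) : ℝ) • γ) * ex (x * ((s + hh a : ℤ) : ℝ)) * U i (s + hh a) -
          f ((s : ℝ) • γ) * ex (x * s) * U i s * (cc a * ex (x * hh a) * ex (a * s)) =
          ex (x * s) * ex (x * hh a) *
            ((f (((s + hh a : ℤ) : ℝ) • γ) - cc a * ex (a * s) * f ((s : ℝ) • γ)) * U i (s + hh a)
            + cc a * ex (a * s) * f ((s : ℝ) • γ) * (U i (s + hh a) - U i s)) := by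
        rw [show x * ((s + hh a : ℤ) : ℝ) = x * s + x * hh a by push_cast; ring, ex_add]; ring
      rw [e, norm_mul, norm_mul, norm_ex, norm_ex, one_mul, one_mul]
      refine (norm_add_le _ _).trans (add_le_add ?_ ?_)
      · rw [norm_mul]
        calc _ ≤ ε * 1 := by gcongr; exacts [hcc' a ha s, hU.1 _ _]
          _ = ε := mul_one ε
      · rw [norm_mul, norm_mul, norm_mul, hcc a ha, norm_ex, one_mul, one_mul]
        gcongr; exacts [hC _, (hU.2 _ _ _).trans (hn a ha)]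
    have s3 := norm_sub_le_norm_sub_add_norm_sub ((ν i).avg Ψ) ((ν i).avg (fun s => Ψ (s + hh a)))
      ((ν i).avg (fun s => Ψ s * ((if a ∈ T then cc a else 1) * ex (x * hh a) * ex (a * s))))
    rw [norm_sub_rev] at s1
    have : C * (n (hh a) + ε) ≤ C * (ε + ε) := by gcongr; exact hn a ha
    nlinarith
  · intro a ha b hb hab
    simp only [ha, hb, if_true]
    have e : (fun s : ℤ => (((1 : ℝ) : ℂ)) * (cc a * ex (x * hh a) * ex (a * s) *
        (starRingEnd ℂ) (cc b * ex (x * hh b) * ex (b * s)))) = fun s : ℤ =>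
        (cc a * ex (x * hh a) * (starRingEnd ℂ) (cc b * ex (x * hh b))) * ex ((a - b) * s) := by
      ext s
      rw [map_mul _ _ (ex (b * s)), conj_ex (b * s),
        show (a - b) * s = a * s + -(b * s) by ring, ex_add]
      push_cast; ring
    rw [e, Mean.avg_const_mul, norm_mul, norm_mul, norm_mul, Complex.norm_conj, norm_mul,
      hcc a ha, hcc b hb, norm_ex, norm_ex]
    simpa using h2 a ha b hb hab

end Pool.Agent.P.MP_fc4783_an
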