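import Pool.Agent.P.MP_fc4783_an.Basic

/-! A van der Corput type inequality for means, and small combinatorial lemmas. -/

namespace Pool.Agent.P.MP_fc4783_an

open Filter Topology Finset

lemma vdc (μ : Mean) {α : Type*} [DecidableEq α] (T : Finset α) (hT : T.Nonempty) (Ψ : ℤ → ℂ)
    (χ : ℤ → ℝ) (h0 : ∀ s, 0 ≤ χ s) (h1 : ∀ s, χ s ≤ 1) (C : ℝ) (hC : 0 ≤ C)
    (hΨ : ∀ s, ‖Ψ s‖ ≤ C * χ s) (u : α → ℤ → ℂ) (hu : ∀ a s, ‖u a s‖ ≤ 1) (η ρ : ℝ) (hρ : 0 ≤ ρ)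
    (h2 : ∀ a ∈ T, ‖μ.avg Ψ - μ.avg (fun s => Ψ s * u a s)‖ ≤ η)
    (h3 : ∀ a ∈ T, ∀ b ∈ T, a ≠ b →
      ‖μ.avg (fun s => (χ s : ℂ) * (u a s * (starRingEnd ℂ) (u b s)))‖ ≤ ρ) :
    ‖μ.avg Ψ‖ ≤ η + C * √(1 / T.card + ρ) := by
  have hR : (0 : ℝ) < T.card := by exact_mod_cast hT.card_pos
  have hRc : (T.card : ℂ) ≠ 0 := by exact_mod_cast hT.card_pos.ne'
  set W : ℤ → ℂ := fun s => (T.card : ℂ)⁻¹ * ∑ a ∈ T, u a s with hW
  have e1 : μ.avg Ψ - μ.avg (fun s => Ψ s * W s)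
      = (T.card : ℂ)⁻¹ * ∑ a ∈ T, (μ.avg Ψ - μ.avg (fun s => Ψ s * u a s)) := by
    have : μ.avg (fun s => Ψ s * W s)
        = (T.card : ℂ)⁻¹ * ∑ a ∈ T, μ.avg (fun s => Ψ s * u a s) := by
      rw [← μ.avg_sum, ← μ.avg_const_mul]
      congr 1; ext s; simp only [hW, mul_sum]; exact sum_congr rfl fun _ _ => by ring
    rw [this, sum_sub_distrib, sum_const, nsmul_eq_mul, mul_sub, ← mul_assoc,
      inv_mul_cancel₀ hRc, one_mul]
  have e2 : ‖μ.avg Ψ - μ.avg (fun s => Ψ s * W s)‖ ≤ η := by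
    rw [e1, norm_mul, norm_inv, Complex.norm_natCast]
    calc _ ≤ (T.card : ℝ)⁻¹ * ∑ a ∈ T, η := by
          gcongr; exact (norm_sum_le _ _).trans (sum_le_sum h2)
      _ = η := by rw [sum_const, nsmul_eq_mul]; field_simp
  have e3 : ‖μ.avg (fun s => Ψ s * W s)‖ ≤ C * μ.avgR (fun s => χ s * ‖W s‖) := by
    rw [← μ.avgR_const_mul]
    refine μ.norm_avg_le_avgR fun s => ?_
    rw [norm_mul, ← mul_assoc]; gcongr; exact hΨ s
  have e4 : μ.avgR (fun s => χ s * ‖W s‖ ^ 2) ≤ 1 / T.card + ρ := by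
    have a1 : ((μ.avgR (fun s => χ s * ‖W s‖ ^ 2) : ℝ) : ℂ) = ((T.card : ℂ)⁻¹) ^ 2 *
        ∑ a ∈ T, ∑ b ∈ T, μ.avg (fun s => (χ s : ℂ) * (u a s * (starRingEnd ℂ) (u b s))) := by
      rw [← μ.avg_ofReal]
      simp_rw [← μ.avg_sum]
      rw [← μ.avg_const_mul]
      congr 1; ext s
      have : ((‖W s‖ ^ 2 : ℝ) : ℂ) = W s * (starRingEnd ℂ) (W s) := by
        rw [Complex.mul_conj, Complex.normSq_eq_norm_sq]
      rw [Complex.ofReal_mul, this]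
      simp only [hW, map_mul, map_inv₀, map_natCast, map_sum, ← mul_sum, ← sum_mul]
      ring
    have a2 : ∀ a ∈ T, ∑ b ∈ T, ‖μ.avg (fun s => (χ s : ℂ) * (u a s * (starRingEnd ℂ) (u b s)))‖
        ≤ 1 + T.card * ρ := by
      intro a ha
      rw [← add_sum_erase T _ ha]
      gcongr
      · refine μ.norm_avg_le fun s => ?_
        rw [norm_mul, norm_mul, Complex.norm_conj, Complex.norm_real, Real.norm_of_nonneg (h0 s)]
        calc _ ≤ 1 * (1 * 1 : ℝ) := by gcongr; exacts [h1 s, hu a s, hu a s]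
          _ = 1 := by norm_num
      · calc _ ≤ ∑ b ∈ T.erase a, ρ :=
            sum_le_sum fun b hb => h3 a ha b (mem_of_mem_erase hb) (ne_of_mem_erase hb).symm
          _ ≤ _ := by
            rw [sum_const, nsmul_eq_mul]; gcongr; exact erase_subset _ _
    calc _ ≤ ‖((μ.avgR (fun s => χ s * ‖W s‖ ^ 2) : ℝ) : ℂ)‖ := by
          rw [Complex.norm_real]; exact le_abs_self _
      _ ≤ ((T.card : ℝ)⁻¹) ^ 2 * ∑ a ∈ T, (1 + T.card * ρ) := by
          rw [a1, norm_mul, norm_pow, norm_inv, Complex.norm_natCast]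
          gcongr
          exact (norm_sum_le _ _).trans
            (sum_le_sum fun a ha => (norm_sum_le _ _).trans (a2 a ha))
      _ = _ := by rw [sum_const, nsmul_eq_mul]; field_simp
  have e5 : μ.avgR (fun s => χ s * ‖W s‖) ≤ √(1 / T.card + ρ) :=
    Real.le_sqrt_of_sq_le ((μ.avgR_mul_sq_le χ _ h0 h1).trans e4)
  calc ‖μ.avg Ψ‖ = ‖(μ.avg Ψ - μ.avg (fun s => Ψ s * W s)) + μ.avg (fun s => Ψ s * W s)‖ := by
        ring_nf
    _ ≤ η + C * √(1 / T.card + ρ) := by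
        refine (norm_add_le _ _).trans (add_le_add e2 (e3.trans ?_)); gcongr

lemma exists_finset_sep (S E : Set ℝ) (hS : S.Infinite) (hE : E.Finite) (R : ℕ) :
    ∃ T : Finset ℝ, T.card = R ∧ (∀ a ∈ T, a ∈ S) ∧ ∀ a ∈ T, ∀ b ∈ T, a ≠ b → a - b ∉ E := by
  classical
  induction R with
  | zero => exact ⟨∅, rfl, by simp, by simp⟩
  | succ R ih =>
    obtain ⟨T, h1, h2, h3⟩ := ih
    obtain ⟨x, hx, hx'⟩ := hS.exists_notMem_finite (t := (T : Set ℝ) ∪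
      (Set.image2 (· + ·) (T : Set ℝ) E ∪ Set.image2 (· - ·) (T : Set ℝ) E))
      (T.finite_toSet.union ((T.finite_toSet.image2 _ hE).union (T.finite_toSet.image2 _ hE)))
    simp only [Set.mem_union, not_or, mem_coe] at hx'
    refine ⟨insert x T, by rw [card_insert_of_notMem hx'.1, h1], ?_, ?_⟩
    · intro a ha; rcases mem_insert.1 ha with rfl | ha; exacts [hx, h2 a ha]
    · intro a ha b hb hab hm
      rcases mem_insert.1 ha with rfl | ha' <;> rcases mem_insert.1 hb with rfl | hb'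
      · exact hab rfl
      · exact hx'.2.1 ⟨b, hb', _, hm, by ring⟩
      · exact hx'.2.2 ⟨a, ha', _, hm, by ring⟩
      · exact h3 a ha' b hb' hab hm

lemma Adm.neg_le {ν n L} (h : Adm ν n L) (a : ℤ) : n (-a) ≤ n a := by
  simpa [h.zero] using h.sub 0 a

lemma Adm.add_le {ν n L} (h : Adm ν n L) (a b : ℤ) : n (a + b) ≤ n a + n b := by
  have := h.sub a (-b)
  rw [sub_neg_eq_add] at this
  linarith [h.neg_le b]

lemma Adm.nat_mul_le {ν n L} (h : Adm ν n L) (j : ℕ) (a : ℤ) : n (j * a) ≤ j * n a := by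
  induction j with
  | zero => simp [h.zero]
  | succ j ih =>
    push_cast
    rw [add_mul, one_mul, add_mul, one_mul]
    linarith [h.add_le (j * a) a]

/-- Approximate invariance for sequences bounded by `C`. -/
lemma shift_bound (μ : Mean) (h : ℤ) (η C : ℝ) (hC : 0 < C)
    (H : ∀ ψ : ℤ → ℂ, (∀ s, ‖ψ s‖ ≤ 1) → ‖μ.avg (fun s => ψ (s + h)) - μ.avg ψ‖ ≤ η)
    (ψ : ℤ → ℂ) (hψ : ∀ s, ‖ψ s‖ ≤ C) : ‖μ.avg (fun s => ψ (s + h)) - μ.avg ψ‖ ≤ C * η := by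
  have := H (fun s => (C : ℂ)⁻¹ * ψ s) fun s => by
    rw [norm_mul, norm_inv, Complex.norm_real, Real.norm_of_nonneg hC.le]
    exact inv_mul_le_one_of_le₀ (hψ s) hC.le
  rw [μ.avg_const_mul, μ.avg_const_mul, ← mul_sub, norm_mul, norm_inv, Complex.norm_real,
    Real.norm_of_nonneg hC.le] at this
  rwa [inv_mul_le_iff₀ hC] at this

lemma tendsto_zero_of_forall {u : ℕ → ℂ} (K : ℝ)
    (h : ∀ ε : ℝ, 0 < ε → ∀ᶠ i in atTop, ‖u i‖ ≤ K * ε) : Tendsto u atTop (𝓝 0) := by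
  rw [NormedAddGroup.tendsto_nhds_zero]
  intro ε hε
  filter_upwards [h (ε / (2 * (|K| + 1))) (by positivity)] with i hi
  calc _ ≤ K * (ε / (2 * (|K| + 1))) := hi
    _ ≤ (|K| + 1) * (ε / (2 * (|K| + 1))) := by gcongr; linarith [le_abs_self K]
    _ = ε / 2 := by field_simp
    _ < ε := by linarith

end Pool.Agent.P.MP_fc4783_an
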