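import Pool.Agent.P.MP_fc4783_an.Means

/-! The quadratic multipliers and their orthogonality to characters. -/

namespace Pool.Agent.P.MP_fc4783_an

open Filter Topology Finset

/-- One dimensional cutoff. -/
noncomputable def chi0 (x : ℝ) : ℝ := max 0 (1 - 4 * dZ x)

/-- Cutoff in the first `2 i` coordinates. -/
noncomputable def chi (θ : ℕ → ℝ) (i : ℕ) (s : ℤ) : ℝ :=
  ∏ k ∈ range (2 * i), chi0 (s * (3 * θ k))

/-- The digits modulo three of an integer. -/
noncomputable def dv (θ : ℕ → ℝ) (s : ℤ) (k : ℕ) : ZMod 3 := dd (s * θ k)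

/-- The quadratic multiplier. -/
noncomputable def Xi (θ : ℕ → ℝ) (i : ℕ) (s : ℤ) : ℂ := chi θ i s * om (Qd i (dv θ s))

lemma chi0_nonneg (x : ℝ) : 0 ≤ chi0 x := le_max_left _ _

lemma chi0_le_one (x : ℝ) : chi0 x ≤ 1 := max_le zero_le_one (by linarith [dZ_nonneg x])

lemma chi0_lip (x u : ℝ) : |chi0 (x + u) - chi0 x| ≤ 4 * dZ u := by
  unfold chi0
  rw [max_comm 0, max_comm 0]
  refine (abs_max_sub_max_le_abs _ _ _).trans ?_
  have h1 := dZ_add_le x u
  have h2 := dZ_sub_le (x + u) u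
  rw [add_sub_cancel_right] at h2
  rw [abs_le]; constructor <;> linarith

lemma chi_nonneg (θ : ℕ → ℝ) (i : ℕ) (s : ℤ) : 0 ≤ chi θ i s :=
  prod_nonneg fun _ _ => chi0_nonneg _

lemma chi_le_one (θ : ℕ → ℝ) (i : ℕ) (s : ℤ) : chi θ i s ≤ 1 :=
  prod_le_one (fun _ _ => chi0_nonneg _) fun _ _ => chi0_le_one _

lemma abs_prod_sub_prod_le' (a b : ℕ → ℝ) (ha : ∀ k, 0 ≤ a k) (hb : ∀ k, 0 ≤ b k)
    (ha1 : ∀ k, a k ≤ 1) (hb1 : ∀ k, b k ≤ 1) (i : ℕ) :
    |∏ l ∈ range i, a l - ∏ l ∈ range i, b l| ≤ ∑ k ∈ range i, |a k - b k| := by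
  refine (abs_prod_sub_prod_le a b ha hb i).trans (sum_le_sum fun k _ => ?_)
  refine mul_le_of_le_one_right (abs_nonneg _) (prod_le_one (fun l _ => ?_) fun l _ => ?_)
  · split_ifs; exacts [ha l, zero_le_one, hb l]
  · split_ifs; exacts [ha1 l, le_rfl, hb1 l]

lemma one_sub_chi_le (θ : ℕ → ℝ) (i : ℕ) (s : ℤ) :
    1 - chi θ i s ≤ ∑ k ∈ range (2 * i), 4 * dZ (s * (3 * θ k)) := by
  have := abs_prod_sub_prod_le' (fun _ => 1) (fun k => chi0 (s * (3 * θ k)))
    (fun _ => zero_le_one) (fun _ => chi0_nonneg _) (fun _ => le_rfl) (fun _ => chi0_le_one _)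
    (2 * i)
  rw [prod_const_one] at this
  refine (le_abs_self _).trans (this.trans (sum_le_sum fun k _ => ?_))
  rw [abs_of_nonneg (by linarith [chi0_le_one (s * (3 * θ k))])]
  linarith [le_max_right 0 (1 - 4 * dZ (s * (3 * θ k))), show chi0 (s * (3 * θ k)) =
    max 0 (1 - 4 * dZ (s * (3 * θ k))) from rfl]

lemma dd_add (x y : ℝ) (h : dZ (3 * x) + dZ (3 * y) < 1 / 2) : dd (x + y) = dd x + dd y := by
  unfold dd
  have : round (3 * (x + y)) = round (3 * x) + round (3 * y) := by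
    unfold dZ at h
    have h1 := neg_abs_le (3 * x - round (3 * x))
    have h2 := le_abs_self (3 * x - round (3 * x))
    have h3 := neg_abs_le (3 * y - round (3 * y))
    have h4 := le_abs_self (3 * y - round (3 * y))
    rw [round_eq (3 * (x + y)), Int.floor_eq_iff]
    push_cast; constructor <;> linarith
  rw [this]; push_cast; rfl

lemma dd_eq_zero (x : ℝ) (h : dZ x < 1 / 6) : dd x = 0 := by
  unfold dd
  have : round (3 * x) = 3 * round x := by
    unfold dZ at h
    have := abs_lt.1 h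
    rw [round_eq (3 * x), Int.floor_eq_iff]
    push_cast; constructor <;> linarith [this.1, this.2]
  rw [this]; push_cast
  have : (3 : ZMod 3) = 0 := rfl
  simp [this]

lemma chi_shift (θ : ℕ → ℝ) (i : ℕ) (G : (ℕ → ZMod 3) → ℂ) (hG1 : ∀ y, ‖G y‖ ≤ 1)
    (hG : ∀ y y', (∀ k < 2 * i, y k = y' k) → G y = G y') (s h : ℤ) (E : ℝ)
    (hE : ∑ k ∈ range (2 * i), 16 * dZ (h * (3 * θ k)) ≤ E) :
    ‖chi θ i (s + h) * G (dv θ (s + h)) - chi θ i s * G (dv θ s + dv θ h)‖ ≤ E := by
  have hb : ∀ (t : ℤ) y, ‖chi θ i t * G y‖ ≤ 1 := fun t y => by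
    rw [norm_mul, Complex.norm_real, Real.norm_of_nonneg (chi_nonneg _ _ _)]
    exact mul_le_one₀ (chi_le_one _ _ _) (norm_nonneg _) (hG1 y)
  by_cases hE2 : 2 ≤ E
  · linarith [norm_sub_le (chi θ i (s + h) * G (dv θ (s + h))) (chi θ i s * G (dv θ s + dv θ h)),
      hb (s + h) (dv θ (s + h)), hb s (dv θ s + dv θ h)]
  have hu : ∀ k < 2 * i, dZ (h * (3 * θ k)) < 1 / 8 := by
    intro k hk
    have := single_le_sum (f := fun k => 16 * dZ (h * (3 * θ k)))
      (fun _ _ => mul_nonneg (by norm_num) (dZ_nonneg _)) (mem_range.2 hk)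
    linarith [not_le.1 hE2]
  have hE0 : 0 ≤ E :=
    (sum_nonneg fun k _ => by have := dZ_nonneg (h * (3 * θ k)); positivity).trans hE
  have e : ∀ k, ((s + h : ℤ) : ℝ) * (3 * θ k) = s * (3 * θ k) + h * (3 * θ k) := fun k => by
    push_cast; ring
  by_cases hc : ∀ k < 2 * i, dZ (s * (3 * θ k)) < 3 / 8
  · have : G (dv θ (s + h)) = G (dv θ s + dv θ h) := hG _ _ fun k hk => by
      simp only [dv, Pi.add_apply]
      rw [← dd_add]
      · congr 1; push_cast; ring
      · rw [mul_left_comm, mul_left_comm 3 (h : ℝ)]; linarith [hc k hk, hu k hk]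
    rw [this, ← sub_mul, norm_mul, ← Complex.ofReal_sub, Complex.norm_real, Real.norm_eq_abs]
    refine (mul_le_of_le_one_right (abs_nonneg _) (hG1 _)).trans ?_
    refine (abs_prod_sub_prod_le' _ _ (fun _ => chi0_nonneg _) (fun _ => chi0_nonneg _)
      (fun _ => chi0_le_one _) (fun _ => chi0_le_one _) _).trans
      (le_trans (sum_le_sum fun k _ => ?_) hE)
    rw [e]
    linarith [chi0_lip (s * (3 * θ k)) (h * (3 * θ k)), dZ_nonneg (h * (3 * θ k))]
  · push Not at hc
    obtain ⟨k, hk, hk'⟩ := hc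
    have h1 : chi θ i s = 0 := prod_eq_zero (mem_range.2 hk) (max_eq_left (by linarith))
    have h2 : chi θ i (s + h) = 0 := prod_eq_zero (mem_range.2 hk) (max_eq_left (by
      have := dZ_sub_le (s * (3 * θ k) + h * (3 * θ k)) (h * (3 * θ k))
      rw [add_sub_cancel_right] at this
      rw [e]; linarith [hu k hk]))
    simpa [h1, h2] using hE0

lemma Qd_congr (i : ℕ) (y y' : ℕ → ZMod 3) (h : ∀ k < 2 * i, y k = y' k) : Qd i y = Qd i y' :=
  sum_congr rfl fun l hl => by
    have := mem_range.1 hl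
    rw [h _ (by omega), h _ (by omega)]

lemma Qd_add_single (i a : ℕ) (ha : a < i) (y e : ℕ → ZMod 3)
    (he : ∀ l, e l = if l = 2 * a then 1 else 0) : Qd i (y + e) = Qd i y + y (2 * a + 1) := by
  unfold Qd
  have : ∀ l ∈ range i, (y + e) (2 * l) * (y + e) (2 * l + 1) =
      y (2 * l) * y (2 * l + 1) + if l = a then y (2 * a + 1) else 0 := by
    intro l _
    simp only [Pi.add_apply, he]
    rw [if_neg (show ¬ 2 * l + 1 = 2 * a by omega)]
    by_cases hl : l = a
    · subst hl; simp [add_mul]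
    · rw [if_neg hl, if_neg (by omega)]; simp
  rw [sum_congr rfl this, sum_add_distrib, sum_ite_eq' (range i) a, if_pos (mem_range.2 ha)]

lemma norm_Xi (θ : ℕ → ℝ) (i : ℕ) (s : ℤ) : ‖Xi θ i s‖ = chi θ i s := by
  rw [Xi, norm_mul, norm_om, mul_one, Complex.norm_real, Real.norm_of_nonneg (chi_nonneg _ _ _)]

lemma one_le_norm_om_one : 1 ≤ ‖om 1 - 1‖ := by
  have : om 1 = ex (1 / 3) := by
    have := ZMod.stdAddChar_coe (N := 3) 1
    unfold om ex
    rw [Int.cast_one] at this
    rw [this]; congr 1; push_cast; ring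
  rw [this]
  refine le_trans ?_ (four_dZ_le _)
  have : round (1 / 3 : ℝ) = 0 := by rw [round_eq_zero_iff]; constructor <;> norm_num
  unfold dZ; rw [this]; norm_num

section
variable {θ : ℕ → ℝ} {ν : ℕ → ℕ → Mean} {n n' : ℤ → ℝ} {L : ℕ → ℝ → ℂ} (hS : Spec θ ν n n' L)
include hS

lemma Spec.mult_Xi : Mult n (Xi θ) := by
  refine ⟨fun i s => (norm_Xi _ _ _).le.trans (chi_le_one _ _ _), fun i s h => ?_⟩
  by_cases h2 : 2 ≤ n h
  · linarith [norm_sub_le (Xi θ i (s + h)) (Xi θ i s), norm_Xi θ i (s + h), norm_Xi θ i s,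
      chi_le_one θ i (s + h), chi_le_one θ i s]
  have := chi_shift θ i (fun y => om (Qd i y)) (fun _ => (norm_om _).le)
    (fun y y' hy => by rw [Qd_congr i y y' hy]) s h (n h)
    (le_trans (sum_le_sum fun k _ => by
      rw [mul_left_comm (h : ℝ)]; linarith [dZ_three_mul (h * θ k)]) (hS.fine h (2 * i)))
  rwa [Qd_congr i (dv θ s + dv θ h) (dv θ s) fun k hk => ?_] at this
  have a1 := single_le_sum (f := fun k => 48 * dZ (h * θ k))
    (fun _ _ => mul_nonneg (by norm_num) (dZ_nonneg _)) (mem_range.2 hk)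
  have a2 := hS.fine h (2 * i)
  have : dv θ h k = 0 := dd_eq_zero _ (by linarith [not_le.1 h2])
  simp [this]

lemma Spec.mult_conj_Xi : Mult n (fun i s => (starRingEnd ℂ) (Xi θ i s)) :=
  ⟨fun i s => by rw [Complex.norm_conj]; exact hS.mult_Xi.1 i s,
    fun i s h => by rw [← map_sub, Complex.norm_conj]; exact hS.mult_Xi.2 i s h⟩

lemma Spec.mult_one : Mult n (fun _ _ => 1) :=
  ⟨fun _ _ => by simp, fun _ _ h => by simpa using (hS.adm 0).nonneg h⟩

lemma Spec.ex_Xi (x : ℝ) :
    Tendsto (fun i => (ν 0 i).avg fun s => ex (x * s) * Xi θ i s) atTop (𝓝 0) := by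
  refine tendsto_zero_of_forall 5 fun ε hε => ?_
  obtain ⟨R, hR⟩ := exists_nat_gt (1 / ε ^ 2)
  have hR0 : (0 : ℝ) < R := lt_trans (by positivity) hR
  choose h h1 h2 using fun a => hS.typed (2 * a) ε hε
  choose g g1 g2 using fun a => hS.typed (2 * a + 1) (ε ^ 2) (by positivity)
  have ev1 := (eventually_all_finset (range R)).2 fun a _ => hS.inv' (h a) ε hε
  have ev2 := (eventually_all_finset (range R)).2 fun a _ => hS.inv' (g a) (ε ^ 2) (by positivity)
  filter_upwards [ev1, ev2, eventually_ge_atTop R] with i e1 e2 hi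
  have hb : ∀ s : ℤ, ‖ex (x * s) * Xi θ i s‖ ≤ 1 * chi θ i s := fun s => by
    rw [norm_mul, norm_ex, norm_Xi]
  have key := vdc (ν 0 i) (range R) (nonempty_range_iff.2 (by rintro rfl; simp at hR0))
    (fun s => ex (x * s) * Xi θ i s) (chi θ i) (chi_nonneg θ i) (chi_le_one θ i) 1 zero_le_one hb
    (fun a s => ex (x * h a) * om (dv θ s (2 * a + 1))) (fun a s => by simp)
    (3 * ε) (3 * ε ^ 2) (by positivity) ?_ ?_
  · refine key.trans ?_
    have : √(1 / (range R).card + 3 * ε ^ 2) ≤ 2 * ε := by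
      refine Real.sqrt_le_iff.2 ⟨by positivity, ?_⟩
      rw [card_range]
      have : 1 / (R : ℝ) ≤ ε ^ 2 := by
        rw [div_le_iff₀ hR0]; rw [div_lt_iff₀ (by positivity)] at hR; linarith
      nlinarith
    linarith
  · intro a ha
    have hai : a < i := lt_of_lt_of_le (mem_range.1 ha) hi
    have s1 := e1 a ha (fun s => ex (x * s) * Xi θ i s) fun s =>
      (hb s).trans (by simpa using chi_le_one θ i s)
    have s2 : ‖(ν 0 i).avg (fun s => ex (x * ((s + h a : ℤ) : ℝ)) * Xi θ i (s + h a)) -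
        (ν 0 i).avg (fun s => ex (x * s) * Xi θ i s * (ex (x * h a) * om (dv θ s (2 * a + 1))))‖
        ≤ ε := by
      refine (ν 0 i).norm_avg_sub_le fun s => ?_
      have := chi_shift θ i (fun y => om (Qd i y)) (fun _ => (norm_om _).le)
        (fun y y' hy => by rw [Qd_congr i y y' hy]) s (h a) ε
        ((hS.fine' _ _).trans (h1 a))
      rw [Qd_add_single i a hai _ (dv θ (h a)) (h2 a), om_add] at this
      have e : ex (x * ((s + h a : ℤ) : ℝ)) * Xi θ i (s + h a) -
          ex (x * s) * Xi θ i s * (ex (x * h a) * om (dv θ s (2 * a + 1))) =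
          ex (x * s) * ex (x * h a) * (chi θ i (s + h a) * om (Qd i (dv θ (s + h a))) -
            chi θ i s * (om (Qd i (dv θ s)) * om (dv θ s (2 * a + 1)))) := by
        rw [show x * ((s + h a : ℤ) : ℝ) = x * s + x * h a by push_cast; ring, ex_add, Xi, Xi]
        ring
      rw [e, norm_mul, norm_mul, norm_ex, norm_ex]
      simpa using this
    rw [norm_sub_rev] at s1
    refine (norm_sub_le_norm_sub_add_norm_sub _ _ _).trans ((add_le_add s1 s2).trans ?_)
    linarith [h1 a]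
  · intro a ha b hb' hab
    have hai : a < i := lt_of_lt_of_le (mem_range.1 ha) hi
    have hbi : b < i := lt_of_lt_of_le (mem_range.1 hb') hi
    set G : (ℕ → ZMod 3) → ℂ := fun y => om (y (2 * a + 1) - y (2 * b + 1)) with hG
    have e : (fun s : ℤ => (chi θ i s : ℂ) * (ex (x * h a) * om (dv θ s (2 * a + 1)) *
        (starRingEnd ℂ) (ex (x * h b) * om (dv θ s (2 * b + 1))))) = fun s : ℤ =>
        (ex (x * h a) * ex (-(x * h b))) * (chi θ i s * G (dv θ s)) := by
      ext s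
      rw [map_mul, conj_ex, conj_om, hG]
      simp only [sub_eq_add_neg, om_add]; ring
    rw [e, Mean.avg_const_mul, norm_mul, norm_mul, norm_ex, norm_ex, one_mul, one_mul]
    have s1 := e2 a ha (fun s => chi θ i s * G (dv θ s)) fun s => by
      rw [norm_mul, Complex.norm_real, Real.norm_of_nonneg (chi_nonneg _ _ _), hG, norm_om,
        mul_one]
      exact chi_le_one _ _ _
    have s2 : ‖(ν 0 i).avg (fun s => chi θ i (s + g a) * G (dv θ (s + g a))) -
        (ν 0 i).avg (fun s => om 1 * (chi θ i s * G (dv θ s)))‖ ≤ ε ^ 2 := by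
      refine (ν 0 i).norm_avg_sub_le fun s => ?_
      have := chi_shift θ i G (fun _ => (norm_om _).le) (fun y y' hy => by
        simp only [hG]; rw [hy _ (by omega), hy (2 * b + 1) (by omega)]) s (g a) (ε ^ 2)
        ((hS.fine' _ _).trans (g1 a))
      have e2 : G (dv θ s + dv θ (g a)) = om 1 * G (dv θ s) := by
        have b1 : dv θ (g a) (2 * a + 1) = 1 := by simp [dv, g2]
        have b2 : dv θ (g a) (2 * b + 1) = 0 := by simp [dv, g2, hab.symm]
        simp only [hG, Pi.add_apply, b1, b2, ← om_add]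
        congr 1; ring
      rwa [e2, mul_left_comm] at this
    rw [Mean.avg_const_mul] at s2
    have s3 := norm_sub_le_norm_sub_add_norm_sub
      (om 1 * (ν 0 i).avg (fun s => chi θ i s * G (dv θ s)))
      ((ν 0 i).avg (fun s => chi θ i (s + g a) * G (dv θ (s + g a))))
      ((ν 0 i).avg (fun s => chi θ i s * G (dv θ s)))
    rw [norm_sub_rev] at s2
    rw [← sub_one_mul, norm_mul] at s3
    have s4 := le_mul_of_one_le_left (norm_nonneg ((ν 0 i).avg
      (fun s => chi θ i s * G (dv θ s)))) one_le_norm_om_one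
    linarith [g1 a]

end

end Pool.Agent.P.MP_fc4783_an
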